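import Pool.Agent.H566R4.Stmts

set_option autoImplicit false

namespace Pool.Agent.H151.Bog

open Polynomial Module
open Pool.Agent.H566R4

theorem bdd {k : Type} [Field k] (U : Submodule k k[X]) [FiniteDimensional k U] :
    ∃ n, U ≤ degreeLT k n := by
  obtain ⟨s, hs⟩ := (Submodule.fg_iff_finiteDimensional U).2 inferInstance
  refine ⟨s.sup natDegree + 1, ?_⟩
  rw [← hs, Submodule.span_le]
  intro p hp
  rw [SetLike.mem_coe, mem_degreeLT]
  refine degree_le_natDegree.trans_lt ?_
  exact_mod_cast Nat.lt_succ_of_le (Finset.le_sup (f := natDegree) hp)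

theorem exists_not_mem {k : Type} [Field k] (U : Submodule k k[X]) [FiniteDimensional k U]
    (hU : U ≠ ⊥) : ∃ u ∈ U, X * u ∉ U := by
  classical
  have h := bdd U
  have hn : U ≤ degreeLT k (Nat.find h) := Nat.find_spec h
  have hn0 : Nat.find h ≠ 0 := by
    intro h0
    rw [h0] at hn
    apply hU
    rw [eq_bot_iff]
    intro p hp
    have h1 := hn hp
    rw [mem_degreeLT, degree_lt_iff_coeff_zero] at h1
    rw [Submodule.mem_bot]
    ext i
    simpa using h1 i (Nat.zero_le _)
  have hm : ¬ U ≤ degreeLT k (Nat.find h - 1) := Nat.find_min h (by omega)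
  rw [SetLike.not_le_iff_exists] at hm
  obtain ⟨u, hu, hu'⟩ := hm
  refine ⟨u, hu, fun h1 => hu' ?_⟩
  have h2 := hn h1
  rw [mem_degreeLT, degree_lt_iff_coeff_zero] at h2 ⊢
  intro i hi
  have h3 := h2 (i + 1) (by omega)
  rwa [coeff_X_mul] at h3

theorem part1 {k : Type} [Field k] (U : Submodule k k[X]) [FiniteDimensional k U]
    (hU : U ≠ ⊥) : finrank k U + 1 ≤ finrank k ↥(U ⊔ U.map (mX k)) := by
  obtain ⟨u, hu, hu'⟩ := exists_not_mem U hU
  have hlt : U < U ⊔ U.map (mX k) := by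
    rw [lt_iff_le_and_ne]
    refine ⟨le_sup_left, fun h => hu' ?_⟩
    have h1 : X * u ∈ U ⊔ U.map (mX k) := Submodule.mem_sup_right ⟨u, hu, rfl⟩
    rwa [← h] at h1
  exact Submodule.finrank_lt_finrank_of_lt hlt

theorem mul_inj {k : Type} [Field k] {g : k[X]} (hg : g ≠ 0) :
    Function.Injective (LinearMap.mulLeft k g) := by
  intro a b hab
  simp only [LinearMap.mulLeft_apply] at hab
  exact mul_left_cancel₀ hg hab

theorem part2 {k : Type} [Field k] (m : ℕ) : ∀ (U : Submodule k k[X]) [FiniteDimensional k U],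
    finrank k U = m + 1 → finrank k ↥(U ⊔ U.map (mX k)) ≤ m + 2 →
    ∃ g : k[X], g ≠ 0 ∧ (degreeLT k (m + 1)).map (LinearMap.mulLeft k g) ≤ U := by
  induction m with
  | zero =>
    intro U _ hU _
    have hb : U ≠ ⊥ := by
      rintro rfl
      simp at hU
    obtain ⟨g, hg, hg0⟩ := Submodule.exists_mem_ne_zero_of_ne_bot hb
    refine ⟨g, hg0, ?_⟩
    rintro _ ⟨p, hp, rfl⟩
    have hp1 := mem_degreeLT.1 hp
    rw [degree_lt_iff_coeff_zero] at hp1
    have hp' : p = C (p.coeff 0) := by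
      ext i
      rcases Nat.eq_zero_or_pos i with rfl | hi
      · simp
      · rw [coeff_C, if_neg (by omega)]
        exact hp1 i (by omega)
    rw [hp', LinearMap.mulLeft_apply, mul_comm, ← smul_eq_C_mul]
    exact U.smul_mem _ hg
  | succ m ih =>
    intro U _ hU hs
    have hb : U ≠ ⊥ := by
      rintro rfl
      simp at hU
    have hinj : Function.Injective (mX k) := mul_inj X_ne_zero
    have hmap : (U ⊓ U.comap (mX k)).map (mX k) = U ⊓ U.map (mX k) := by
      ext p
      constructor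
      · rintro ⟨u, hu, rfl⟩
        exact ⟨hu.2, u, hu.1, rfl⟩
      · rintro ⟨hp, u, hu, rfl⟩
        exact ⟨u, ⟨hu, hp⟩, rfl⟩
    have h1 := Submodule.finrank_sup_add_finrank_inf_eq U (U.map (mX k))
    have h2 : finrank k ↥(U.map (mX k)) = finrank k U :=
      (Submodule.equivMapOfInjective (mX k) hinj U).finrank_eq.symm
    have h3 : finrank k ↥(U ⊓ U.map (mX k)) = finrank k ↥(U ⊓ U.comap (mX k)) := by
      rw [← hmap]
      exact (Submodule.equivMapOfInjective (mX k) hinj (U ⊓ U.comap (mX k))).finrank_eq.symm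
    have h4 := part1 U hb
    have h5 : finrank k ↥(U ⊓ U.comap (mX k)) = m + 1 := by omega
    have : FiniteDimensional k ↥(U ⊓ U.comap (mX k)) :=
      Submodule.finiteDimensional_of_le (inf_le_left : U ⊓ U.comap (mX k) ≤ U)
    have h6 : finrank k ↥((U ⊓ U.comap (mX k)) ⊔ (U ⊓ U.comap (mX k)).map (mX k)) ≤ m + 2 := by
      have h7 : (U ⊓ U.comap (mX k)) ⊔ (U ⊓ U.comap (mX k)).map (mX k) ≤ U := by
        refine sup_le inf_le_left ?_
        rw [hmap]
        exact inf_le_left
      have h8 := Submodule.finrank_mono h7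
      omega
    obtain ⟨g, hg0, hg⟩ := ih (U ⊓ U.comap (mX k)) h5 h6
    refine ⟨g, hg0, ?_⟩
    rintro _ ⟨p, hp, rfl⟩
    have hp1 := mem_degreeLT.1 hp
    rw [degree_lt_iff_coeff_zero] at hp1
    have hq : g * divX p ∈ U ⊓ U.comap (mX k) := by
      apply hg
      refine ⟨divX p, ?_, rfl⟩
      rw [SetLike.mem_coe, mem_degreeLT, degree_lt_iff_coeff_zero]
      intro i hi
      rw [coeff_divX]
      exact hp1 (i + 1) (by omega)
    have hc : g * C (p.coeff 0) ∈ U ⊓ U.comap (mX k) := by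
      apply hg
      refine ⟨C (p.coeff 0), ?_, rfl⟩
      rw [SetLike.mem_coe, mem_degreeLT, degree_lt_iff_coeff_zero]
      intro i hi
      rw [coeff_C, if_neg (by omega)]
    have he : (LinearMap.mulLeft k g) p = X * (g * divX p) + g * C (p.coeff 0) := by
      rw [LinearMap.mulLeft_apply]
      conv_lhs => rw [← divX_mul_X_add p]
      ring
    rw [he]
    exact U.add_mem hq.2 hc.1

theorem taskGM : TaskGM := by
  intro k _ U _ hU
  refine ⟨part1 U hU, fun h => ?_⟩
  have h0 : finrank k U ≠ 0 := by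
    intro h1
    exact hU (Submodule.finrank_eq_zero.1 h1)
  obtain ⟨m, hm⟩ := Nat.exists_eq_succ_of_ne_zero h0
  obtain ⟨g, hg0, hg⟩ := part2 m U hm (by omega)
  refine ⟨g, hg0, ?_⟩
  rw [hm]
  refine (Submodule.eq_of_le_of_finrank_eq hg ?_).symm
  rw [hm, ← (Submodule.equivMapOfInjective _ (mul_inj hg0) (degreeLT k (m + 1))).finrank_eq,
    (degreeLTEquiv k (m + 1)).finrank_eq, finrank_fin_fun]

end Pool.Agent.H151.Bog
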