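import Pool.Agent.H33R3.Bom.Stmts
import Pool.Agent.Helper202.Geom

set_option autoImplicit false

namespace Pool.Agent.H151.BomD

open Complex Metric Set Filter Topology Pool.Agent.H33R3.Bom

theorem taskD : TaskD := by
  intro Y hY ζ hζ hζ0
  have hb : IsOpen (ball (0:ℂ) 1) := isOpen_ball
  set D : ℂ → ℂ := fun z => Y ζ * z - Y z * ζ with hD
  have hDd : DifferentiableOn ℂ D (ball 0 1) :=
    ((differentiableOn_const _).mul differentiableOn_id).sub (hY.diff.mul (differentiableOn_const _))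
  have hDζ : D ζ = 0 := by simp [hD]
  set d : ℂ → ℂ := dslope D ζ with hd
  have hdd : DifferentiableOn ℂ d (ball 0 1) :=
    (Complex.differentiableOn_dslope (hb.mem_nhds hζ)).mpr hDd
  have hDd' : ∀ z, D z = (z - ζ) * d z := by
    intro z
    have h := sub_smul_dslope D ζ z
    rw [hDζ, sub_zero, smul_eq_mul] at h
    exact h.symm
  have hUo : IsOpen (ball (0:ℂ) 1 \ {0}) := hb.sdiff isClosed_singleton
  have hGd : DifferentiableOn ℂ (fun z => Y z / z) (ball (0:ℂ) 1 \ {0}) :=
    (hY.diff.mono diff_subset).div differentiableOn_id (fun z hz => hz.2)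
  have hYat : HasDerivAt Y (deriv Y ζ) ζ := (hY.diff.differentiableAt (hb.mem_nhds hζ)).hasDerivAt
  have hG' : deriv (fun z => Y z / z) ζ ≠ 0 :=
    Pool.Agent.Helper202.Geom.deriv_ne_zero_of_injOn hUo hGd hY.inj ⟨hζ, hζ0⟩
  have hdne : ∀ z ∈ ball (0:ℂ) 1, d z ≠ 0 := by
    intro z hz hz0
    by_cases hzζ : z = ζ
    · rw [hzζ, hd, dslope_same] at hz0
      have h1 : HasDerivAt D (Y ζ * 1 - deriv Y ζ * ζ) ζ :=
        ((hasDerivAt_id ζ).const_mul (Y ζ)).sub (hYat.mul_const ζ)
      rw [h1.deriv] at hz0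
      have h2 : HasDerivAt (fun z => Y z / z) ((deriv Y ζ * ζ - Y ζ * 1) / ζ ^ 2) ζ :=
        hYat.div (hasDerivAt_id ζ) hζ0
      apply hG'
      rw [h2.deriv, div_eq_zero_iff]
      left
      linear_combination -hz0
    · have h1 : D z = 0 := by rw [hDd', hz0, mul_zero]
      by_cases hz00 : z = 0
      · rw [hz00] at h1
        simp [hD, hY.one, hζ0] at h1
      · apply hzζ
        apply hY.inj ⟨hz, hz00⟩ ⟨hζ, hζ0⟩
        show Y z / z = Y ζ / ζ
        rw [div_eq_div_iff hz00 hζ0]
        have h2 : Y ζ * z - Y z * ζ = 0 := h1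
        linear_combination -h2
  -- logarithm of `d`
  have hq : DifferentiableOn ℂ (fun z => deriv d z / d z) (ball 0 1) :=
    (hdd.deriv hb).div hdd hdne
  obtain ⟨L, hL⟩ := hq.isExactOn_ball
  have hLd : ∀ z ∈ ball (0:ℂ) 1, DifferentiableAt ℂ L z := fun z hz => (hL z hz).differentiableAt
  have hconst : ∀ z ∈ ball (0:ℂ) 1, d z * exp (-(L z)) = d 0 * exp (-(L 0)) := by
    intro z hz
    have h0 : (0:ℂ) ∈ ball (0:ℂ) 1 := by simp
    have hder : ∀ w ∈ ball (0:ℂ) 1, HasDerivAt (fun w => d w * exp (-(L w))) 0 w := by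
      intro w hw
      have h1 : HasDerivAt d (deriv d w) w := (hdd.differentiableAt (hb.mem_nhds hw)).hasDerivAt
      have h2 : HasDerivAt (fun w => exp (-(L w))) (exp (-(L w)) * (-(deriv d w / d w))) w :=
        (hL w hw).neg.cexp
      have h3 := h1.mul h2
      have h4 : deriv d w * exp (-(L w)) + d w * (exp (-(L w)) * (-(deriv d w / d w))) = 0 := by
        have := hdne w hw
        field_simp
        ring
      rw [h4] at h3
      exact h3
    exact hb.is_const_of_deriv_eq_zero (convex_ball 0 1).isPreconnected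
      (fun w hw => (hder w hw).differentiableAt.differentiableWithinAt)
      (fun w hw => (hder w hw).deriv) hz h0
  have hneg : ∀ z ∈ ball (0:ℂ) 1, -z ∈ ball (0:ℂ) 1 := by
    intro z hz
    simpa using hz
  have hexp : ∀ z ∈ ball (0:ℂ) 1, d z = d 0 * exp (-(L 0)) * exp (L z) := by
    intro z hz
    rw [← hconst z hz, mul_assoc, ← Complex.exp_add]
    simp
  refine ⟨fun z => L (-z) - L z, ?_, by simp, ?_, ?_⟩
  · intro z hz
    have h1 : DifferentiableAt ℂ (fun z => L (-z)) z :=
      (hLd (-z) (hneg z hz)).comp z differentiableAt_id.neg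
    exact (h1.sub (hLd z hz)).differentiableWithinAt
  · intro z _
    simp
  · intro z hz
    have h1 : d z * exp (L (-z) - L z) = d (-z) := by
      rw [hexp z hz, hexp (-z) (hneg z hz), mul_assoc, ← Complex.exp_add]
      congr 2
      ring
    have h2 : Y ζ * z - Y z * ζ = (z - ζ) * d z := hDd' z
    have h3 : Y ζ * (-z) - Y (-z) * ζ = (-z - ζ) * d (-z) := hDd' (-z)
    rw [hY.even z hz] at h3
    have h4 : Y ζ * z + Y z * ζ = (z + ζ) * d (-z) := by linear_combination -h3
    rw [h2, h4, ← h1]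
    ring

end Pool.Agent.H151.BomD
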