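import Pool.Agent.H111R5.CP.Stmts

/-! Project H111-CP, TaskHardy. -/

set_option autoImplicit false

open MeasureTheory ProbabilityTheory Filter Finset

namespace Pool.Agent.H111R5.CP

namespace HardyH151

theorem poly_ineq (t : ℝ) (h1 : -(1/64) ≤ t) (h2 : t ≤ 1/64) :
    1 ≤ (1 - t/4 + 11/64*t^2)^4 * (1+t) := by
  have hQ : 1 - t/2 + 25/64*t^2 ≤ (1 - t/4 + 11/64*t^2)^2 := by
    have h : (1 - t/4 + 11/64*t^2)^2 - (1 - t/2 + 25/64*t^2)
        = t^2 * (1/64 - 11/128*t + 121/4096*t^2) := by ring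
    have hb : 0 ≤ 1/64 - 11/128*t + 121/4096*t^2 := by nlinarith [sq_nonneg t]
    have := mul_nonneg (sq_nonneg t) hb
    linarith
  have hQ0 : 0 ≤ 1 - t/2 + 25/64*t^2 := by nlinarith [sq_nonneg t]
  have hsq : (1 - t/2 + 25/64*t^2)^2 ≤ (1 - t/4 + 11/64*t^2)^4 := by
    have := pow_le_pow_left₀ hQ0 hQ 2
    calc (1 - t/2 + 25/64*t^2)^2 ≤ ((1 - t/4 + 11/64*t^2)^2)^2 := this
      _ = (1 - t/4 + 11/64*t^2)^4 := by ring
  have h3 : 1 ≤ (1 - t/2 + 25/64*t^2)^2 * (1 + t) := by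
    have h : (1 - t/2 + 25/64*t^2)^2 * (1 + t) - 1
        = t^2 * (1/32 + 41/64*t - 975/4096*t^2 + 625/4096*t^3) := by ring
    have ht2 : t^2 ≤ 1/4096 := by nlinarith
    have ht3 : -(1/4096) ≤ t^3 := by
      have : -(t^2) ≤ t^3 := by nlinarith [sq_nonneg t]
      linarith
    have hb : 0 ≤ 1/32 + 41/64*t - 975/4096*t^2 + 625/4096*t^3 := by linarith
    have := mul_nonneg (sq_nonneg t) hb
    linarith
  calc 1 ≤ (1 - t/2 + 25/64*t^2)^2 * (1 + t) := h3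
    _ ≤ (1 - t/4 + 11/64*t^2)^4 * (1+t) := by
        apply mul_le_mul_of_nonneg_right hsq; linarith

theorem rpow_ineq (t : ℝ) (h1 : -(1/64) ≤ t) (h2 : t ≤ 1/64) :
    (1 + t) ^ (-(1/4) : ℝ) ≤ 1 - t/4 + 11/64*t^2 := by
  have hpos : 0 < 1 + t := by linarith
  have hP : 0 ≤ 1 - t/4 + 11/64*t^2 := by nlinarith [sq_nonneg t]
  have h3 := poly_ineq t h1 h2
  have h4 : (1 + t)⁻¹ ≤ (1 - t/4 + 11/64*t^2)^4 := by
    rw [inv_eq_one_div, div_le_iff₀ hpos]; exact h3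
  have h5 : (1 + t) ^ (-(1/4) : ℝ) = ((1 + t)⁻¹) ^ ((4 : ℕ)⁻¹ : ℝ) := by
    rw [← Real.rpow_neg_one, ← Real.rpow_mul hpos.le]
    congr 1
    norm_num
  rw [h5]
  calc ((1 + t)⁻¹) ^ (((4 : ℕ) : ℝ)⁻¹) ≤ ((1 - t/4 + 11/64*t^2)^4) ^ (((4 : ℕ) : ℝ)⁻¹) :=
        Real.rpow_le_rpow (inv_nonneg.mpr hpos.le) h4 (by positivity)
    _ = 1 - t/4 + 11/64*t^2 := Real.pow_rpow_inv_natCast hP (by norm_num)

theorem nsq_nonneg (z : Fin 3 → ℤ) : 0 ≤ nsq z := by
  unfold nsq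
  positivity

/-- sign -/
def sg (b : Bool) : ℝ := if b then 1 else -1

theorem nsq_step (z : Fin 3 → ℤ) (i : Fin 3) (b : Bool) :
    nsq (z + stp (i, b)) = nsq z + (1 + 2 * sg b * z i) := by
  unfold nsq stp sg
  fin_cases i <;> cases b <;> simp [Fin.sum_univ_three, Pi.single_apply] <;> ring

theorem stp_not (e : Fin 3 × Bool) : stp (e.1, !e.2) = - stp e := by
  obtain ⟨i, b⟩ := e
  unfold stp
  cases b <;> simp [Pi.single_neg]

theorem sum_neg (g : (Fin 3 → ℤ) → ℝ) (w : Fin 3 → ℤ) :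
    ∑ e' : Fin 3 × Bool, g (w - stp e') = ∑ e' : Fin 3 × Bool, g (w + stp e') := by
  refine Fintype.sum_equiv (Equiv.prodCongr (Equiv.refl (Fin 3)) Equiv.boolNot) _ _ fun e => ?_
  have : stp ((Equiv.prodCongr (Equiv.refl (Fin 3)) Equiv.boolNot) e) = - stp e := stp_not e
  rw [this, sub_eq_add_neg]

/-- the function `K + |z|²` -/
noncomputable def RR (z : Fin 3 → ℤ) : ℝ := 5000 + nsq z

theorem RR_ge (z : Fin 3 → ℤ) : 5000 ≤ RR z := by
  unfold RR; linarith [nsq_nonneg z]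

noncomputable def uf (z : Fin 3 → ℤ) : ℝ := (RR z) ^ (-(1/4) : ℝ)

noncomputable def vf (z : Fin 3 → ℤ) : ℝ := uf z / RR z

theorem uf_pos (z : Fin 3 → ℤ) : 0 < uf z := Real.rpow_pos_of_pos (by linarith [RR_ge z]) _

theorem vf_pos (z : Fin 3 → ℤ) : 0 < vf z := div_pos (uf_pos z) (by linarith [RR_ge z])

theorem t_bd (z : Fin 3 → ℤ) (i : Fin 3) (b : Bool) :
    -(1/64) ≤ (1 + 2 * sg b * z i) / RR z ∧ (1 + 2 * sg b * z i) / RR z ≤ 1/64 := by
  have hR := RR_ge z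
  have hRpos : 0 < RR z := by linarith
  have hz : ((z i : ℝ)) ^ 2 ≤ nsq z := by
    unfold nsq
    exact Finset.single_le_sum (f := fun i => ((z i : ℝ)) ^ 2) (fun j _ => sq_nonneg _) (Finset.mem_univ i)
  have hR2 : 5000 + ((z i : ℝ)) ^ 2 ≤ RR z := by unfold RR; linarith
  constructor
  · rw [le_div_iff₀ hRpos]
    unfold sg
    split_ifs
    · nlinarith [sq_nonneg ((z i : ℝ) + 64), sq_nonneg ((z i : ℝ) - 64)]
    · nlinarith [sq_nonneg ((z i : ℝ) + 64), sq_nonneg ((z i : ℝ) - 64)]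
  · rw [div_le_iff₀ hRpos]
    unfold sg
    split_ifs
    · nlinarith [sq_nonneg ((z i : ℝ) + 64), sq_nonneg ((z i : ℝ) - 64)]
    · nlinarith [sq_nonneg ((z i : ℝ) + 64), sq_nonneg ((z i : ℝ) - 64)]

theorem RR_step (z : Fin 3 → ℤ) (i : Fin 3) (b : Bool) :
    RR (z + stp (i, b)) = RR z * (1 + (1 + 2 * sg b * z i) / RR z) := by
  have hRpos : 0 < RR z := by linarith [RR_ge z]
  rw [mul_add, mul_one, mul_div_cancel₀ _ hRpos.ne']
  unfold RR
  rw [nsq_step]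
  ring

theorem uf_step (z : Fin 3 → ℤ) (i : Fin 3) (b : Bool) :
    uf (z + stp (i, b)) ≤ uf z * (1 - ((1 + 2 * sg b * z i) / RR z)/4
      + 11/64*((1 + 2 * sg b * z i) / RR z)^2) := by
  obtain ⟨h1, h2⟩ := t_bd z i b
  have hRpos : 0 < RR z := by linarith [RR_ge z]
  have h3 := rpow_ineq _ h1 h2
  have h4 := (uf_pos z).le
  unfold uf at h4 ⊢
  rw [RR_step, Real.mul_rpow hRpos.le (by linarith)]
  exact mul_le_mul_of_nonneg_left h3 h4

theorem one_step (z : Fin 3 → ℤ) :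
    ∑ e : Fin 3 × Bool, uf (z + stp e) ≤ 6 * uf z - (1/8) * vf z := by
  have hRpos : 0 < RR z := by linarith [RR_ge z]
  have h1 : ∑ e : Fin 3 × Bool, uf (z + stp e) ≤ ∑ e : Fin 3 × Bool, uf z *
      (1 - ((1 + 2 * sg e.2 * z e.1) / RR z)/4 + 11/64*((1 + 2 * sg e.2 * z e.1) / RR z)^2) :=
    Finset.sum_le_sum fun e _ => uf_step z e.1 e.2
  refine le_trans h1 ?_
  have h2 : ∑ e : Fin 3 × Bool, uf z *
      (1 - ((1 + 2 * sg e.2 * z e.1) / RR z)/4 + 11/64*((1 + 2 * sg e.2 * z e.1) / RR z)^2)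
      = uf z * (6 - (3/2) / RR z + 11/64 * (6 + 8 * nsq z) / (RR z)^2) := by
    rw [Fintype.sum_prod_type]
    simp only [Fintype.sum_bool, Fin.sum_univ_three, sg, nsq]
    field_simp
    simp
    ring
  rw [h2]
  have h3 : 11/64 * (6 + 8 * nsq z) / (RR z)^2 ≤ (11/8) / RR z := by
    rw [div_le_div_iff₀ (by positivity) hRpos]
    have h4 : 6 + 8 * nsq z ≤ 8 * RR z := by unfold RR; linarith
    have h5 : 11/64 * (6 + 8 * nsq z) * RR z ≤ 11/64 * (8 * RR z) * RR z := by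
      gcongr
    calc 11/64 * (6 + 8 * nsq z) * RR z ≤ 11/64 * (8 * RR z) * RR z := h5
      _ = 11/8 * RR z ^ 2 := by ring
  have h6 : 6 - (3/2) / RR z + 11/64 * (6 + 8 * nsq z) / (RR z)^2 ≤ 6 - (1/8) / RR z := by
    have : (3/2) / RR z - (11/8) / RR z = (1/8) / RR z := by ring
    linarith
  calc uf z * (6 - (3/2) / RR z + 11/64 * (6 + 8 * nsq z) / (RR z)^2)
      ≤ uf z * (6 - (1/8) / RR z) := mul_le_mul_of_nonneg_left h6 (uf_pos z).le
    _ = 6 * uf z - (1/8) * vf z := by unfold vf; ring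

theorem vf_step (z : Fin 3 → ℤ) (e : Fin 3 × Bool) : vf (z + stp e) ≤ 4 * vf z := by
  obtain ⟨i, b⟩ := e
  obtain ⟨h1, h2⟩ := t_bd z i b
  have hRpos : 0 < RR z := by linarith [RR_ge z]
  have hu : uf (z + stp (i, b)) ≤ uf z * 2 := by
    refine le_trans (uf_step z i b) ?_
    apply mul_le_mul_of_nonneg_left _ (uf_pos z).le
    set t := (1 + 2 * sg b * z i) / RR z
    nlinarith
  have hR : RR z / 2 ≤ RR (z + stp (i, b)) := by
    rw [RR_step]
    nlinarith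
  unfold vf
  calc uf (z + stp (i, b)) / RR (z + stp (i, b)) ≤ (uf z * 2) / (RR z / 2) := by
        apply div_le_div₀ (by have := uf_pos z; positivity) hu (by positivity) hR
    _ = 4 * (uf z / RR z) := by field_simp; ring

theorem sum_vf (z : Fin 3 → ℤ) : ∑ e : Fin 3 × Bool, vf (z + stp e) ≤ 24 * vf z := by
  calc ∑ e : Fin 3 × Bool, vf (z + stp e) ≤ ∑ _e : Fin 3 × Bool, 4 * vf z :=
        Finset.sum_le_sum fun e _ => vf_step z e
    _ = 24 * vf z := by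
        rw [Finset.sum_const, Finset.card_univ]
        simp
        ring

theorem f_le (hH : TaskH) (β : ℝ) (hβ : 0 < β) (hβ1 : β ≤ 1/2000) (x : Fin 3 → ℤ) :
    Real.exp (β ^ 2 * hh x) * uf x ≤ uf x + (1/192) * vf x := by
  obtain ⟨_, _, hb, _, _⟩ := hH
  obtain ⟨h0, h1, h2⟩ := hb x
  have hRpos : 0 < RR x := by linarith [RR_ge x]
  have hβ2 : β ^ 2 ≤ 1/4000000 := by nlinarith
  have hβ20 : 0 < β ^ 2 := by positivity
  have hs0 : 0 ≤ β ^ 2 * hh x := by positivity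
  have hs1 : β ^ 2 * hh x ≤ 1 := by nlinarith
  have h3 : Real.exp (β ^ 2 * hh x) ≤ 1 + 2 * (β ^ 2 * hh x) := by
    have h4 := Real.abs_exp_sub_one_le (x := β ^ 2 * hh x) (by rw [abs_of_nonneg hs0]; exact hs1)
    rw [abs_of_nonneg hs0] at h4
    have := le_abs_self (Real.exp (β ^ 2 * hh x) - 1)
    linarith
  have h5 : hh x * RR x ≤ 5001 := by
    unfold RR
    nlinarith
  have h6 : 2 * (β ^ 2 * hh x) ≤ (1/192) / RR x := by
    rw [le_div_iff₀ hRpos]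
    nlinarith
  calc Real.exp (β ^ 2 * hh x) * uf x ≤ (1 + (1/192) / RR x) * uf x := by
        apply mul_le_mul_of_nonneg_right _ (uf_pos x).le
        linarith
    _ = uf x + (1/192) * vf x := by unfold vf; ring

end HardyH151

open HardyH151 in
theorem taskHardy : TaskHardy := by
  intro hH
  refine ⟨5000, 1/2000, by norm_num, by norm_num, fun β hβ hβ1 z => ?_⟩
  have h1 : ∀ x, Real.exp (β ^ 2 * hh x) * (5000 + nsq x) ^ (-(1 / 4) : ℝ) ≤
      uf x + (1/192) * vf x := fun x => f_le hH β hβ hβ1 x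
  have h2 : ∑ e : Fin 3 × Bool, ∑ e' : Fin 3 × Bool,
      Real.exp (β ^ 2 * hh (z + stp e - stp e')) *
        (5000 + nsq (z + stp e - stp e')) ^ (-(1 / 4) : ℝ) ≤
      ∑ e : Fin 3 × Bool, (6 * uf (z + stp e)) := by
    refine Finset.sum_le_sum fun e _ => ?_
    calc ∑ e' : Fin 3 × Bool, Real.exp (β ^ 2 * hh (z + stp e - stp e')) *
          (5000 + nsq (z + stp e - stp e')) ^ (-(1 / 4) : ℝ)
        ≤ ∑ e' : Fin 3 × Bool, (uf (z + stp e - stp e') + (1/192) * vf (z + stp e - stp e')) :=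
          Finset.sum_le_sum fun e' _ => h1 _
      _ = ∑ e' : Fin 3 × Bool, (uf (z + stp e + stp e') + (1/192) * vf (z + stp e + stp e')) :=
          sum_neg (fun x => uf x + (1/192) * vf x) (z + stp e)
      _ = ∑ e' : Fin 3 × Bool, uf (z + stp e + stp e') +
            (1/192) * ∑ e' : Fin 3 × Bool, vf (z + stp e + stp e') := by
          rw [Finset.sum_add_distrib, Finset.mul_sum]
      _ ≤ (6 * uf (z + stp e) - (1/8) * vf (z + stp e)) + (1/192) * (24 * vf (z + stp e)) := by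
          have h3 := one_step (z + stp e)
          have h4 := sum_vf (z + stp e)
          linarith
      _ = 6 * uf (z + stp e) := by ring
  have h3 := one_step z
  have h4 := vf_pos z
  rw [← Finset.mul_sum] at h2
  have h5 : uf z = (5000 + nsq z) ^ (-(1 / 4) : ℝ) := rfl
  rw [← h5]
  linarith

end Pool.Agent.H111R5.CP
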