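import Mathlib

set_option autoImplicit false

open Set Topology Filter unitInterval

namespace Pool.Agent.H151

universe u v w

variable {κ : Type u}

/-- The set of points of the cube with prescribed coordinates on `A`. -/
def Box (A : Set κ) (z : κ → I) : Set (κ → I) := {y | ∀ i ∈ A, y i = z i}

lemma Box.self (A : Set κ) (z : κ → I) : z ∈ Box A z := fun _ _ => rfl

lemma Box.sub {A A' : Set κ} {z z' : κ → I} (h : A ⊆ A') (hz : z' ∈ Box A z) :
    Box A' z' ⊆ Box A z := fun y hy i hi => (hy i (h hi)).trans (hz i hi)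

lemma basic_nhd {Y : Type v} [TopologicalSpace Y] {U : Set (κ → Y)} (hU : IsOpen U) {y : κ → Y}
    (hy : y ∈ U) : ∃ F : Finset κ, ∀ y' : κ → Y, (∀ i ∈ F, y' i = y i) → y' ∈ U := by
  rw [isOpen_pi_iff] at hU
  obtain ⟨F, u, hu, hsub⟩ := hU y hy
  refine ⟨F, fun y' hy' => hsub ?_⟩
  intro i hi
  rw [hy' i hi]
  exact (hu i hi).2

/-- Meeting countably many dense open sets of countable conditions. -/
theorem generic (D : ℕ → Set κ → (κ → I) → Prop) (A0 : Set κ) (hA0 : A0.Countable) (z0 : κ → I)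
    (hopen : ∀ n A z A' z', A0 ⊆ A → z ∈ Box A0 z0 → D n A z → A ⊆ A' → z' ∈ Box A z → D n A' z')
    (hdense : ∀ n (A : Set κ) z, A.Countable → A0 ⊆ A → z ∈ Box A0 z0 →
      ∃ (A' : Set κ) (z' : κ → I), A'.Countable ∧ A ⊆ A' ∧ z' ∈ Box A z ∧ D n A' z') :
    ∃ (A : Set κ) (z : κ → I), A.Countable ∧ A0 ⊆ A ∧ z ∈ Box A0 z0 ∧ ∀ n, D n A z := by
  classical
  let S := {p : Set κ × (κ → I) // p.1.Countable ∧ A0 ⊆ p.1 ∧ p.2 ∈ Box A0 z0}
  have hstep : ∀ (n : ℕ) (p : S), ∃ p' : S, p.1.1 ⊆ p'.1.1 ∧ p'.1.2 ∈ Box p.1.1 p.1.2 ∧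
      D n p'.1.1 p'.1.2 := by
    intro n p
    obtain ⟨A', z', h1, h2, h3, h4⟩ := hdense n p.1.1 p.1.2 p.2.1 p.2.2.1 p.2.2.2
    exact ⟨⟨(A', z'), h1, p.2.2.1.trans h2, Box.sub p.2.2.1 p.2.2.2 h3⟩, h2, h3, h4⟩
  choose step hs1 hs2 hs3 using hstep
  let seq : ℕ → S := fun n => Nat.rec ⟨(A0, z0), hA0, Subset.rfl, Box.self _ _⟩
    (fun n p => step n p) n
  have hseq : ∀ n, seq (n + 1) = step n (seq n) := fun n => rfl
  have hmono : ∀ m n, m ≤ n → (seq m).1.1 ⊆ (seq n).1.1 ∧
      (seq n).1.2 ∈ Box (seq m).1.1 (seq m).1.2 := by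
    intro m n hmn
    induction n, hmn using Nat.le_induction with
    | base => exact ⟨Subset.rfl, Box.self _ _⟩
    | succ n hmn ih =>
      rw [hseq]
      exact ⟨ih.1.trans (hs1 _ _), fun i hi => (hs2 n (seq n) i (ih.1 hi)).trans (ih.2 i hi)⟩
  let A : Set κ := ⋃ n, (seq n).1.1
  let z : κ → I := fun i => if h : ∃ n, i ∈ (seq n).1.1 then (seq (Nat.find h)).1.2 i else z0 i
  have hz : ∀ n, z ∈ Box (seq n).1.1 (seq n).1.2 := by
    intro n i hi
    have h : ∃ n, i ∈ (seq n).1.1 := ⟨n, hi⟩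
    have h1 : z i = (seq (Nat.find h)).1.2 i := by simp only [z, dif_pos h]
    rw [h1]
    exact ((hmono _ _ (Nat.find_min' h hi)).2 i (Nat.find_spec h)).symm
  refine ⟨A, z, countable_iUnion fun n => (seq n).2.1, subset_iUnion_of_subset 0 Subset.rfl,
    hz 0, fun n => ?_⟩
  refine hopen n _ _ A z (step n (seq n)).2.2.1 (step n (seq n)).2.2.2 (hs3 n (seq n)) ?_ ?_
  · rw [← hseq]
    exact subset_iUnion (fun n => (seq n).1.1) (n + 1)
  · rw [← hseq]
    exact hz (n + 1)

/-- the straight path between two points of the cube -/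
def wpath (y0 y1 : κ → I) (t : I) (i : κ) : I :=
  ⟨(1 - (t : ℝ)) * y0 i + t * y1 i, by
    have h0 := (y0 i).2.1
    have h1 := (y0 i).2.2
    have h2 := (y1 i).2.1
    have h3 := (y1 i).2.2
    have h4 := t.2.1
    have h5 := t.2.2
    constructor
    · have : 0 ≤ 1 - (t : ℝ) := by linarith
      positivity
    · nlinarith [mul_nonneg (sub_nonneg.2 h5) (sub_nonneg.2 h1), mul_nonneg h4 (sub_nonneg.2 h3)]⟩

lemma wpath_cont (y0 y1 : κ → I) (i : κ) : Continuous fun t => wpath y0 y1 t i := by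
  unfold wpath
  fun_prop

lemma wpath_zero (y0 y1 : κ → I) (i : κ) : wpath y0 y1 0 i = y0 i := by
  apply Subtype.ext
  simp [wpath]

lemma wpath_one (y0 y1 : κ → I) (i : κ) : wpath y0 y1 1 i = y1 i := by
  apply Subtype.ext
  simp [wpath]

lemma wpath_eq (y0 y1 : κ → I) (t : I) (i : κ) (h : y0 i = y1 i) : wpath y0 y1 t i = y0 i := by
  apply Subtype.ext
  simp only [wpath, ← h]
  ring

/-- change the coordinates of `y` in `F` according to the path -/
noncomputable def upd (F : Finset κ) (y0 y1 : κ → I) (t : I) (y : κ → I) : κ → I :=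
  open Classical in fun i => if i ∈ F then wpath y0 y1 t i else y i

lemma upd_cont (F : Finset κ) (y0 y1 : κ → I) (y : κ → I) :
    Continuous fun t => upd F y0 y1 t y := by
  classical
  refine continuous_pi fun i => ?_
  unfold upd
  by_cases h : i ∈ F
  · simp only [h, if_true]
    exact wpath_cont y0 y1 i
  · simp only [h, if_false]
    exact continuous_const

lemma upd_mem {F : Finset κ} {y0 y1 : κ → I} {t : I} {y : κ → I} {i : κ} (h : i ∈ F) :
    upd F y0 y1 t y i = wpath y0 y1 t i := by simp [upd, h]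

lemma upd_not {F : Finset κ} {y0 y1 : κ → I} {t : I} {y : κ → I} {i : κ} (h : i ∉ F) :
    upd F y0 y1 t y i = y i := by simp [upd, h]

lemma upd_box {F : Finset κ} {y0 y1 : κ → I} {A : Set κ} {z : κ → I} (h0 : y0 ∈ Box A z)
    (h1 : y1 ∈ Box A z) (t : I) {y : κ → I} (hy : y ∈ Box A z) : upd F y0 y1 t y ∈ Box A z := by
  intro i hi
  by_cases h : i ∈ F
  · rw [upd_mem h, wpath_eq _ _ _ _ ((h0 i hi).trans (h1 i hi).symm)]
    exact h0 i hi
  · rw [upd_not h]
    exact hy i hi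

lemma open_sub {τ : Type v} [Finite τ] {Y : Type w} [TopologicalSpace Y] {M : Y → Set τ}
    (hM : ∀ a, IsClosed {y | a ∈ M y}) (S : Set τ) : IsOpen {y | M y ⊆ S} := by
  have : {y | M y ⊆ S} = ⋂ a : {a // a ∉ S}, {y | a.1 ∈ M y}ᶜ := by
    ext y
    simp only [mem_ofPred_eq, mem_iInter, mem_compl_iff, Subtype.forall]
    constructor
    · intro h a ha ha'
      exact ha (h ha')
    · intro h a ha
      by_contra hn
      exact h a hn ha
  rw [this]
  exact isOpen_iInter_of_finite fun a => (hM a.1).isOpen_compl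

/-- The path argument: two points where the upper semicontinuous map has the generic size have
the same value. -/
theorem path_lemma {τ : Type v} [Finite τ] (M : (κ → I) → Set τ)
    (hM : ∀ a, IsClosed {y | a ∈ M y}) (A0 : Set κ) (hA0 : A0.Countable) (z0 : κ → I) (N : ℕ)
    (hlow : ∀ y ∈ Box A0 z0, N ≤ (M y).ncard)
    (hup : ∀ (A : Set κ) z, A.Countable → A0 ⊆ A → z ∈ Box A0 z0 →
      ∃ y ∈ Box A z, (M y).ncard ≤ N)
    (y0 y1 : κ → I) (hy0 : y0 ∈ Box A0 z0) (hy1 : y1 ∈ Box A0 z0) (h0 : (M y0).ncard ≤ N)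
    (h1 : (M y1).ncard ≤ N) : M y0 = M y1 := by
  classical
  obtain ⟨F0, hF0⟩ := basic_nhd (open_sub hM (M y0)) (y := y0) Subset.rfl
  obtain ⟨F1, hF1⟩ := basic_nhd (open_sub hM (M y1)) (y := y1) Subset.rfl
  let F := F0 ∪ F1
  -- the dense sequence of parameters
  let q : ℕ → I := fun n => match n with
    | 0 => 0
    | 1 => 1
    | n + 2 => TopologicalSpace.denseSeq I n
  have hq : DenseRange q := by
    refine (TopologicalSpace.denseRange_denseSeq I).mono ?_
    rintro _ ⟨n, rfl⟩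
    exact ⟨n + 2, rfl⟩
  let U : I → (κ → I) → (κ → I) := fun t y => upd F y0 y1 t y
  have hUbox : ∀ t y, y ∈ Box A0 z0 → U t y ∈ Box A0 z0 := fun t y hy =>
    upd_box hy0 hy1 t hy
  -- the pushed condition
  have hpush : ∀ (A : Set κ) z, A.Countable → A0 ⊆ A → z ∈ Box A0 z0 → ∀ t,
      ∃ y' ∈ Box (A ∪ F) (U t z), (M y').ncard ≤ N := by
    intro A z hA hAA hz t
    refine hup _ _ (hA.union F.countable_toSet) (hAA.trans subset_union_left) (hUbox t z hz)
  obtain ⟨A, z, hA, hAA, hz, hD⟩ := generic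
    (D := fun n A z => ∃ S : Set τ, ∀ y ∈ Box A z, M (U (q n) y) = S)
    A0 hA0 z0 (by
      rintro n A z A' z' - - ⟨S, hS⟩ hAA' hz'
      exact ⟨S, fun y hy => hS y (Box.sub hAA' hz' hy)⟩) (by
      intro n A z hA hAA hz
      obtain ⟨y', hy', hcard⟩ := hpush A z hA hAA hz (q n)
      obtain ⟨F', hF'⟩ := basic_nhd (open_sub hM (M y')) (y := y') Subset.rfl
      refine ⟨A ∪ F', fun i => if i ∈ A then z i else y' i, hA.union F'.countable_toSet,
        subset_union_left, fun i hi => by simp [hi], M y', fun y hy => ?_⟩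
      have hyA : y ∈ Box A z := fun i hi => by
        have := hy i (Or.inl hi)
        simpa [hi] using this
      have hyA0 : y ∈ Box A0 z0 := Box.sub hAA hz hyA
      have hsub : M (U (q n) y) ⊆ M y' := by
        apply hF'
        intro i hi
        by_cases hiF : i ∈ F
        · have e1 : U (q n) y i = wpath y0 y1 (q n) i := upd_mem hiF
          have e2 : y' i = U (q n) z i := hy' i (Or.inr (by exact_mod_cast hiF))
          have e3 : U (q n) z i = wpath y0 y1 (q n) i := upd_mem hiF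
          rw [e1, e2, e3]
        · have e1 : U (q n) y i = y i := upd_not hiF
          rw [e1]
          by_cases hiA : i ∈ A
          · have e2 : y' i = U (q n) z i := hy' i (Or.inl hiA)
            have e3 : U (q n) z i = z i := upd_not hiF
            rw [e2, e3]
            exact hyA i hiA
          · have := hy i (Or.inr (by exact_mod_cast hi))
            simpa [hiA] using this
      exact Set.eq_of_subset_of_ncard_le hsub
        (hcard.trans (hlow _ (hUbox _ _ hyA0))))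
  choose S hS using hD
  have hzbox : z ∈ Box A z := Box.self _ _
  have hScard : ∀ n, N ≤ (S n).ncard := by
    intro n
    rw [← hS n z hzbox]
    exact hlow _ (hUbox _ _ hz)
  let C : Set τ → Set I := fun s => closure {t | ∃ n, t = q n ∧ S n = s}
  have hCM : ∀ s t, t ∈ C s → ∀ y ∈ Box A z, s ⊆ M (U t y) := by
    intro s t ht y hy a ha
    have hcl : IsClosed {t | a ∈ M (U t y)} := (hM a).preimage (upd_cont F y0 y1 y)
    have hsub : {t | ∃ n, t = q n ∧ S n = s} ⊆ {t | a ∈ M (U t y)} := by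
      rintro t ⟨n, rfl, hn⟩
      show a ∈ M (U (q n) y)
      rw [hS n y hy, hn]
      exact ha
    exact closure_minimal hsub hcl ht
  have hCdisj : ∀ n m t, t ∈ C (S n) → t ∈ C (S m) → S n = S m := by
    intro n m t hn hm
    obtain ⟨y', hy', hcard⟩ := hpush A z hA hAA hz t
    -- write `y'` as a pushed point
    let y'' : κ → I := fun i => if i ∈ F then z i else y' i
    have hy''z : y'' ∈ Box A z := by
      intro i hi
      by_cases hiF : i ∈ F
      · simp [y'', hiF]
      · have e2 : y' i = U t z i := hy' i (Or.inl hi)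
        have e3 : U t z i = z i := upd_not hiF
        simp only [y'', hiF, if_false]
        rw [e2, e3]
    have hy''U : U t y'' = y' := by
      ext1 i
      by_cases hiF : i ∈ F
      · have e1 : U t y'' i = wpath y0 y1 t i := upd_mem hiF
        have e2 : y' i = U t z i := hy' i (Or.inr (by exact_mod_cast hiF))
        have e3 : U t z i = wpath y0 y1 t i := upd_mem hiF
        rw [e1, e2, e3]
      · have e1 : U t y'' i = y'' i := upd_not hiF
        rw [e1]
        simp [y'', hiF]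
    have hsn : S n ⊆ M y' := by rw [← hy''U]; exact hCM _ t hn _ hy''z
    have hsm : S m ⊆ M y' := by rw [← hy''U]; exact hCM _ t hm _ hy''z
    have e1 : S n = M y' := Set.eq_of_subset_of_ncard_le hsn (hcard.trans (hScard n))
    have e2 : S m = M y' := Set.eq_of_subset_of_ncard_le hsm (hcard.trans (hScard m))
    rw [e1, e2]
  have hcover : ∀ t, ∃ n, t ∈ C (S n) := by
    intro t
    have h1 : t ∈ closure (range q) := hq t
    have h2 : range q ⊆ ⋃ s : Set τ, {t | ∃ n, t = q n ∧ S n = s} := by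
      rintro _ ⟨n, rfl⟩
      exact mem_iUnion.2 ⟨S n, n, rfl, rfl⟩
    have h3 := closure_mono h2 h1
    rw [closure_iUnion_of_finite] at h3
    obtain ⟨s, hs⟩ := mem_iUnion.1 h3
    have : {t | ∃ n, t = q n ∧ S n = s}.Nonempty := by
      rw [← closure_nonempty_iff]
      exact ⟨t, hs⟩
    obtain ⟨_, n, _, rfl⟩ := this
    exact ⟨n, hs⟩
  have hclopen : IsClopen (C (S 0)) := by
    refine ⟨isClosed_closure, ?_⟩
    have : C (S 0) = (⋃ s : {s : Set τ // s ≠ S 0 ∧ ∃ n, S n = s}, C s.1)ᶜ := by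
      ext t
      simp only [mem_compl_iff, mem_iUnion, not_exists, Subtype.forall]
      constructor
      · rintro h s ⟨hs, n, rfl⟩ ht
        exact hs (hCdisj _ _ t ht h)
      · intro h
        obtain ⟨n, hn⟩ := hcover t
        by_cases hn0 : S n = S 0
        · rw [← hn0]
          exact hn
        · exact absurd hn (h (S n) ⟨hn0, n, rfl⟩)
    rw [this, isOpen_compl_iff]
    exact isClosed_iUnion_of_finite fun s => isClosed_closure
  have huniv : C (S 0) = univ := hclopen.eq_univ ⟨q 0, subset_closure ⟨0, rfl, rfl⟩⟩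
  have h01 : S 0 = S 1 := by
    refine hCdisj 0 1 (q 1) ?_ (subset_closure ⟨1, rfl, rfl⟩)
    rw [huniv]
    exact mem_univ _
  have hs0 : S 0 = M y0 := by
    have hsub : S 0 ⊆ M y0 := by
      rw [← hS 0 z hzbox]
      apply hF0
      intro i hi
      have hiF : i ∈ F := Finset.mem_union_left _ hi
      have e1 : U (q 0) z i = wpath y0 y1 (q 0) i := upd_mem hiF
      rw [e1]
      exact wpath_zero y0 y1 i
    exact Set.eq_of_subset_of_ncard_le hsub (h0.trans (hScard 0))
  have hs1 : S 1 = M y1 := by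
    have hsub : S 1 ⊆ M y1 := by
      rw [← hS 1 z hzbox]
      apply hF1
      intro i hi
      have hiF : i ∈ F := Finset.mem_union_right _ hi
      have e1 : U (q 1) z i = wpath y0 y1 (q 1) i := upd_mem hiF
      rw [e1]
      exact wpath_one y0 y1 i
    exact Set.eq_of_subset_of_ncard_le hsub (h1.trans (hScard 1))
  rw [← hs0, ← hs1, h01]

section select

variable {W : Type v} {Λ : Type w} [TopologicalSpace W]

/-- the set of types of the points of the fibre -/
def MM (q : Λ → W → Bool) (T : Set ((κ → I) × W)) (H : Finset Λ) (y : κ → I) : Set (H → Bool) :=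
  {τ | ∃ w, (y, w) ∈ T ∧ ∀ l : H, q l w = τ l}

lemma MM_eq (q : Λ → W → Bool) (T : Set ((κ → I) × W)) (H : Finset Λ) (y : κ → I) :
    MM q T H y = (fun w => fun l : H => q l w) '' {w | (y, w) ∈ T} := by
  ext τ
  constructor
  · rintro ⟨w, hw, h⟩
    exact ⟨w, hw, funext h⟩
  · rintro ⟨w, hw, rfl⟩
    exact ⟨w, hw, fun _ => rfl⟩

lemma MM_closed [CompactSpace W] (q : Λ → W → Bool) (hq : ∀ l, Continuous (q l))
    (T : Set ((κ → I) × W)) (hT : IsClosed T) (H : Finset Λ) (τ : H → Bool) :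
    IsClosed {y | τ ∈ MM q T H y} := by
  have h1 : {y | τ ∈ MM q T H y} =
      Prod.fst '' (T ∩ ⋂ l : H, {p : (κ → I) × W | q l p.2 = τ l}) := by
    ext y
    constructor
    · rintro ⟨w, hw, h⟩
      exact ⟨(y, w), ⟨hw, mem_iInter.2 h⟩, rfl⟩
    · rintro ⟨⟨y', w⟩, ⟨hw, h⟩, rfl⟩
      exact ⟨w, hw, mem_iInter.1 h⟩
  rw [h1]
  refine isClosedMap_fst_of_compactSpace _ (hT.inter (isClosed_iInter fun l => ?_))
  exact isClosed_eq ((hq l).comp continuous_snd) continuous_const

lemma MM_mono (q : Λ → W → Bool) (T : Set ((κ → I) × W)) {H H' : Finset Λ} (hH : H ⊆ H')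
    (y : κ → I) : (MM q T H y).ncard ≤ (MM q T H' y).ncard := by
  have h : MM q T H y = (fun (τ : H' → Bool) (l : H) => τ ⟨l, hH l.2⟩) '' MM q T H' y := by
    rw [MM_eq, MM_eq, image_image]
  rw [h]
  exact ncard_image_le (toFinite _)

/-- Selection: an upper semicontinuous relation from a cube to a zero-dimensional compact space
with finite nonempty values has a constant selection on a closed face of countable
codimension. -/
theorem select [CompactSpace W] [T1Space W] (q : Λ → W → Bool) (hq : ∀ l, Continuous (q l))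
    (hsep : ∀ w w', (∀ l, q l w = q l w') → w = w')
    (T : Set ((κ → I) × W)) (hT : IsClosed T) (A0 : Set κ) (hA0 : A0.Countable) (z0 : κ → I)
    (hne : ∀ y ∈ Box A0 z0, ∃ w, (y, w) ∈ T)
    (hfin : ∀ y ∈ Box A0 z0, {w | (y, w) ∈ T}.Finite) :
    ∃ (A : Set κ) (z : κ → I) (w : W), A.Countable ∧ A0 ⊆ A ∧ z ∈ Box A0 z0 ∧
      ∀ y ∈ Box A z, (y, w) ∈ T := by
  classical
  let D : ℕ → Set κ → (κ → I) → Prop := fun n A z =>
    ∃ H : Finset Λ, ∀ y ∈ Box A z, n ≤ (MM q T H y).ncard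
  -- some `D n` is not dense
  have hex : ∃ n, ∃ (A : Set κ) (z : κ → I), A.Countable ∧ A0 ⊆ A ∧ z ∈ Box A0 z0 ∧
      ∀ (A' : Set κ) (z' : κ → I), A'.Countable → A ⊆ A' → z' ∈ Box A z → ¬ D n A' z' := by
    by_contra hcon
    push Not at hcon
    obtain ⟨A, z, hA, hAA, hz, hD⟩ := generic D A0 hA0 z0 (by
        rintro n A z A' z' - - ⟨H, hH⟩ hAA' hz'
        exact ⟨H, fun y hy => hH y (Box.sub hAA' hz' hy)⟩) (by
        intro n A z hA hAA hz
        obtain ⟨A', z', h1, h2, h3, h4⟩ := hcon n A z hA hAA hz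
        exact ⟨A', z', h1, h2, h3, h4⟩)
    obtain ⟨H, hH⟩ := hD ({w | (z, w) ∈ T}.ncard + 1)
    have h1 := hH z (Box.self _ _)
    have h2 : (MM q T H z).ncard ≤ {w | (z, w) ∈ T}.ncard := by
      rw [MM_eq]
      exact ncard_image_le (hfin z hz)
    omega
  -- take the least one
  have hleast := Nat.find_spec hex
  have hmin : ∀ m, m < Nat.find hex → _ := fun m hm => Nat.find_min hex hm
  set n := Nat.find hex with hn
  obtain ⟨A1, z1, hA1, hAA1, hz1, hmax⟩ := hleast
  have hn0 : n ≠ 0 := by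
    intro h0
    refine hmax A1 z1 hA1 Subset.rfl (Box.self _ _) ⟨∅, fun y _ => ?_⟩
    rw [h0]
    exact Nat.zero_le _
  obtain ⟨N, hN⟩ := Nat.exists_eq_succ_of_ne_zero hn0
  have hdense := hmin N (by omega)
  push Not at hdense
  obtain ⟨A2, z2, hA2, hAA2, hz2, H2, hH2⟩ := hdense A1 z1 hA1 hAA1 hz1
  have hAA2' : A0 ⊆ A2 := hAA1.trans hAA2
  have hz2' : z2 ∈ Box A0 z0 := Box.sub hAA1 hz1 hz2
  have hbox2 : Box A2 z2 ⊆ Box A0 z0 := Box.sub hAA2' hz2'
  have hlow : ∀ H, H2 ⊆ H → ∀ y ∈ Box A2 z2, N ≤ (MM q T H y).ncard := fun H hH y hy =>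
    (hH2 y hy).trans (MM_mono q T hH y)
  have hup : ∀ (H : Finset Λ) (A : Set κ) z, A.Countable → A2 ⊆ A → z ∈ Box A2 z2 →
      ∃ y ∈ Box A z, (MM q T H y).ncard ≤ N := by
    intro H A z hA hAA hz
    have := hmax A z hA (hAA2.trans hAA) (Box.sub hAA2 hz2 hz)
    simp only [D, not_exists, not_forall] at this
    obtain ⟨y, hy, h⟩ := this H
    exact ⟨y, hy, by omega⟩
  have huniq : ∀ H, H2 ⊆ H → ∀ y0 ∈ Box A2 z2, ∀ y1 ∈ Box A2 z2, (MM q T H y0).ncard ≤ N →
      (MM q T H y1).ncard ≤ N → MM q T H y0 = MM q T H y1 := fun H hH y0 hy0 y1 hy1 h0 h1 =>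
    path_lemma (MM q T H) (MM_closed q hq T hT H) A2 hA2 z2 N (hlow H hH) (hup H) y0 y1 hy0 hy1
      h0 h1
  -- the generic value is contained in all values
  have hgen : ∀ H, H2 ⊆ H → ∃ S : Set (H → Bool), S.Nonempty ∧ ∀ y ∈ Box A2 z2, S ⊆ MM q T H y := by
    intro H hH
    obtain ⟨y0, hy0, h0⟩ := hup H A2 z2 hA2 Subset.rfl (Box.self _ _)
    refine ⟨MM q T H y0, ?_, ?_⟩
    · obtain ⟨w, hw⟩ := hne y0 (hbox2 hy0)
      exact ⟨fun l => q l w, w, hw, fun _ => rfl⟩
    · intro y hy τ hτ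
      by_contra hneg
      obtain ⟨F, hF⟩ := basic_nhd ((MM_closed q hq T hT H τ).isOpen_compl) (y := y) hneg
      obtain ⟨y1, hy1, h1⟩ := hup H (A2 ∪ F) y (hA2.union F.countable_toSet) subset_union_left
        (fun i hi => hy i hi)
      have hy1' : y1 ∈ Box A2 z2 := fun i hi => (hy1 i (Or.inl hi)).trans (hy i hi)
      have := huniq H hH y0 hy0 y1 hy1' h0 h1
      refine hF y1 (fun i hi => hy1 i (Or.inr (by exact_mod_cast hi))) ?_
      show τ ∈ MM q T H y1
      rw [← this]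
      exact hτ
  -- compactness
  by_contra hcon
  push Not at hcon
  have hcon' : ∀ w, ∃ y ∈ Box A2 z2, (y, w) ∉ T := fun w =>
    hcon A2 z2 w hA2 hAA2' hz2'
  have hTy : ∀ y : Box A2 z2, IsClosed {w | ((y : κ → I), w) ∈ T} := fun y =>
    hT.preimage (Continuous.prodMk_right (y : κ → I))
  obtain ⟨Y0, hY0⟩ := isCompact_univ.elim_finite_subfamily_closed
    (fun y : Box A2 z2 => {w : W | ((y : κ → I), w) ∈ T}) hTy (by
      rw [eq_empty_iff_forall_notMem]
      rintro w ⟨-, hw⟩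
      obtain ⟨y, hy, h⟩ := hcon' w
      exact h (mem_iInter.1 hw ⟨y, hy⟩))
  let Y1 : Finset (Box A2 z2) := insert ⟨z2, Box.self _ _⟩ Y0
  have hfinU : (⋃ y ∈ Y1, {w : W | ((y : κ → I), w) ∈ T}).Finite :=
    Y1.finite_toSet.biUnion fun y _ => hfin y (hbox2 y.2)
  obtain ⟨H1, hH1⟩ : ∃ H1 : Finset Λ, ∀ w ∈ (⋃ y ∈ Y1, {w : W | ((y : κ → I), w) ∈ T}),
      ∀ w' ∈ (⋃ y ∈ Y1, {w : W | ((y : κ → I), w) ∈ T}), (∀ l ∈ H1, q l w = q l w') → w = w' := by
    have h1 : ∀ w w', ∃ l : Finset Λ, (∀ l' ∈ l, q l' w = q l' w') → w = w' := by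
      intro w w'
      by_cases h : w = w'
      · exact ⟨∅, fun _ => h⟩
      · have : ∃ l, q l w ≠ q l w' := by
          by_contra hc
          push Not at hc
          exact h (hsep w w' hc)
        obtain ⟨l, hl⟩ := this
        exact ⟨{l}, fun h' => absurd (h' l (Finset.mem_singleton_self l)) hl⟩
    choose L hL using h1
    refine ⟨hfinU.toFinset.biUnion fun w => hfinU.toFinset.biUnion fun w' => L w w', ?_⟩
    intro w hw w' hw' h
    apply hL
    intro l hl
    apply h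
    simp only [Finset.mem_biUnion, Set.Finite.mem_toFinset]
    exact ⟨w, hw, w', hw', hl⟩
  obtain ⟨S, ⟨τ, hτ⟩, hS⟩ := hgen (H2 ∪ H1) Finset.subset_union_left
  have hw : ∀ y : Box A2 z2, ∃ w, ((y : κ → I), w) ∈ T ∧ ∀ l : (H2 ∪ H1 : Finset Λ), q l w = τ l :=
    fun y => hS y y.2 hτ
  choose ww hww1 hww2 using hw
  have hconst : ∀ y ∈ Y1, ww y = ww ⟨z2, Box.self _ _⟩ := by
    intro y hy
    refine hH1 _ ?_ _ ?_ ?_
    · simp only [mem_iUnion]
      exact ⟨y, hy, hww1 y⟩
    · simp only [mem_iUnion]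
      exact ⟨⟨z2, Box.self _ _⟩, Finset.mem_insert_self _ _, hww1 _⟩
    · intro l hl
      rw [hww2 y ⟨l, Finset.mem_union_right _ hl⟩, hww2 _ ⟨l, Finset.mem_union_right _ hl⟩]
  have : ww ⟨z2, Box.self _ _⟩ ∈ (univ ∩ ⋂ i ∈ Y0, {w : W | ((i : κ → I), w) ∈ T}) := by
    refine ⟨mem_univ _, ?_⟩
    simp only [mem_iInter]
    intro y hy
    rw [← hconst y (Finset.mem_insert_of_mem hy)]
    exact hww1 y
  rw [hY0] at this
  exact this

end select

end Pool.Agent.H151
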