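import Mathlib
import Pool.Agent.H151.Combi
import Pool.Agent.H151.Cube

set_option autoImplicit false

open Set Topology Filter unitInterval

namespace Pool.Agent.H151

universe u v w

variable {κ : Type u} {X : Type v} [TopologicalSpace X]

lemma unif (f : (κ → I) → ℝ) (hf : Continuous f) (δ : ℝ) (hδ : 0 < δ) :
    ∃ (F : Finset κ) (n : ℕ), ∀ y y' : κ → I, (∀ i ∈ F, dist (y i) (y' i) < 1 / ((n : ℝ) + 1)) →
      |f y - f y'| < δ := by
  classical
  have huc : UniformContinuous f := CompactSpace.uniformContinuous_of_continuous hf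
  have h1 : {p : (κ → I) × (κ → I) | dist (f p.1) (f p.2) < δ} ∈ uniformity (κ → I) :=
    huc (Metric.dist_mem_uniformity hδ)
  rw [Pi.uniformity, Filter.mem_iInf'] at h1
  obtain ⟨s, hs, V, hV, -, hV', -⟩ := h1
  have h2 : ∀ i, ∃ n : ℕ, ∀ y y' : κ → I, dist (y i) (y' i) < 1 / ((n : ℝ) + 1) →
      (y, y') ∈ V i := by
    intro i
    obtain ⟨t, ht, hsub⟩ := hV i
    obtain ⟨ε, hε, hεt⟩ := Metric.mem_uniformity_dist.1 ht
    obtain ⟨n, hn⟩ := exists_nat_one_div_lt hε
    exact ⟨n, fun y y' h => hsub (hεt (h.trans hn))⟩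
  choose n hn using h2
  refine ⟨hs.toFinset, hs.toFinset.sup n, fun y y' h => ?_⟩
  have h3 : (y, y') ∈ {p : (κ → I) × (κ → I) | dist (f p.1) (f p.2) < δ} := by
    rw [hV']
    refine mem_iInter₂.2 fun i hi => hn i y y' ?_
    have hi' : i ∈ hs.toFinset := hs.mem_toFinset.2 hi
    refine (h i hi').trans_le ?_
    have h4 : n i ≤ hs.toFinset.sup n := Finset.le_sup hi'
    have h5 : (n i : ℝ) ≤ (hs.toFinset.sup n : ℕ) := by exact_mod_cast h4
    exact one_div_le_one_div_of_le (by positivity) (by linarith)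
  exact h3

section interp

variable [CompactSpace X] [T2Space X] [TotallyDisconnectedSpace X]

/-- two clopen functions which agree on the intersection of two finite sets can be glued -/
lemma interp (K L : Finset X) (g g' : C(X, Bool)) (h : ∀ x ∈ K, x ∈ L → g x = g' x) :
    ∃ g'' : C(X, Bool), (∀ x ∈ K, g'' x = g x) ∧ ∀ x ∈ L, g'' x = g' x := by
  classical
  have h1 : ∀ x : X, ∃ V : Set X, IsClopen V ∧ (x ∉ L → x ∈ V) ∧ Disjoint V (L : Set X) := by
    intro x
    by_cases hx : x ∈ L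
    · exact ⟨∅, isClopen_empty, fun h => absurd hx h, empty_disjoint _⟩
    · obtain ⟨V, hV, hxV, hVL⟩ := compact_exists_isClopen_in_isOpen
        (L.finite_toSet.isClosed.isOpen_compl) (x := x) (by simpa using hx)
      exact ⟨V, hV, fun _ => hxV, disjoint_left.2 fun a ha haL => hVL ha haL⟩
  choose V hV hxV hVL using h1
  let C : Set X := ⋃ x ∈ K, V x
  have hC : IsClopen C := isClopen_biUnion_finset fun x _ => hV x
  refine ⟨⟨C.piecewise g g', ?_⟩, ?_, ?_⟩
  · refine Continuous.piecewise ?_ g.continuous g'.continuous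
    intro a ha
    rw [hC.frontier_eq] at ha
    exact absurd ha (notMem_empty a)
  · intro x hx
    show C.piecewise g g' x = g x
    by_cases hxC : x ∈ C
    · exact piecewise_eq_of_mem _ _ _ hxC
    · rw [piecewise_eq_of_notMem _ _ _ hxC]
      have : x ∈ L := by
        by_contra hxL
        exact hxC (mem_biUnion hx (hxV x hxL))
      exact (h x hx this).symm
  · intro x hx
    show C.piecewise g g' x = g' x
    refine piecewise_eq_of_notMem _ _ _ ?_
    intro hxC
    obtain ⟨k, hk, hxk⟩ := mem_iUnion₂.1 hxC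
    exact disjoint_left.1 (hVL k) hxk hx

lemma sep (x x' : X) (h : ∀ g : C(X, Bool), g x = g x') : x = x' := by
  classical
  by_contra hne
  obtain ⟨V, hV, hxV, hVL⟩ := compact_exists_isClopen_in_isOpen
        (isClosed_singleton (x := x')).isOpen_compl (x := x) (by simpa using hne)
  let g : C(X, Bool) := ⟨V.piecewise (fun _ => true) (fun _ => false), by
    refine Continuous.piecewise ?_ continuous_const continuous_const
    intro a ha
    rw [hV.frontier_eq] at ha
    exact absurd ha (notMem_empty a)⟩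
  have h1 : g x = true := by
    show V.piecewise (fun _ => true) (fun _ => false) x = true
    exact piecewise_eq_of_mem _ _ _ hxV
  have h2 : g x' = false := by
    show V.piecewise (fun _ => true) (fun _ => false) x' = false
    exact piecewise_eq_of_notMem _ _ _ (fun h => hVL h rfl)
  have := h g
  rw [h1, h2] at this
  exact Bool.noConfusion this

end interp

/-- `K` certifies the value of `ψ y` at `g` up to `ε` -/
def Cert (ψ : (κ → I) → C(X, Bool) → ℝ) (ε : ℝ) (g : C(X, Bool)) (y : κ → I)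
    (K : Finset X) : Prop :=
  ∀ g' : C(X, Bool), (∀ x ∈ K, g' x = g x) → |ψ y g' - ψ y g| ≤ ε

/-- the relation of certificates written as tuples -/
def TT (ψ : (κ → I) → C(X, Bool) → ℝ) (ε : ℝ) (g : C(X, Bool)) (m : ℕ) :
    Set ((κ → I) × (Fin m → X)) :=
  {p | ∀ g' : C(X, Bool), (∀ j, g' (p.2 j) = g (p.2 j)) → |ψ p.1 g' - ψ p.1 g| ≤ ε}

lemma TT_closed (ψ : (κ → I) → C(X, Bool) → ℝ) (h1 : ∀ g, Continuous fun y => ψ y g) (ε : ℝ)
    (g : C(X, Bool)) (m : ℕ) : IsClosed (TT ψ ε g m) := by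
  have : TT ψ ε g m = ⋂ g' : C(X, Bool), ((⋃ j, {p : (κ → I) × (Fin m → X) |
      g' (p.2 j) ≠ g (p.2 j)}) ∪ {p | |ψ p.1 g' - ψ p.1 g| ≤ ε}) := by
    ext p
    simp only [TT, mem_ofPred_eq, mem_iInter, mem_union, mem_iUnion]
    constructor
    · intro h g'
      by_cases h' : ∀ j, g' (p.2 j) = g (p.2 j)
      · exact Or.inr (h g' h')
      · push Not at h'
        exact Or.inl h'
    · rintro h g' h'
      rcases h g' with ⟨j, hj⟩ | h''
      · exact absurd (h' j) hj
      · exact h''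
  rw [this]
  refine isClosed_iInter fun g' => IsClosed.union (isClosed_iUnion_of_finite fun j => ?_) ?_
  · have hc : Continuous fun p : (κ → I) × (Fin m → X) => (g' (p.2 j), g (p.2 j)) :=
      ((g'.continuous.comp ((continuous_apply j).comp continuous_snd)).prodMk
        (g.continuous.comp ((continuous_apply j).comp continuous_snd)))
    exact (isClosed_discrete {b : Bool × Bool | b.1 ≠ b.2}).preimage hc
  · have hc : Continuous fun p : (κ → I) × (Fin m → X) => |ψ p.1 g' - ψ p.1 g| :=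
      (((h1 g').comp continuous_fst).sub ((h1 g).comp continuous_fst)).abs
    exact isClosed_le hc continuous_const

lemma cert_iff [Nonempty X] (ψ : (κ → I) → C(X, Bool) → ℝ) (ε : ℝ) (g : C(X, Bool)) (m : ℕ)
    (y : κ → I) : (∃ K : Finset X, K.card ≤ m ∧ Cert ψ ε g y K) ↔
      ∃ k : Fin m → X, (y, k) ∈ TT ψ ε g m := by
  classical
  constructor
  · rintro ⟨K, hK, hc⟩
    let e := K.equivFin
    let k : Fin m → X := fun j => if h : j.1 < K.card then (e.symm ⟨j, h⟩ : X) else
      Classical.arbitrary X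
    refine ⟨k, fun g' hg' => hc g' fun x hx => ?_⟩
    let j : Fin m := ⟨(e ⟨x, hx⟩).1, (e ⟨x, hx⟩).2.trans_le hK⟩
    have hj : k j = x := by
      simp [k, j]
    have := hg' j
    rw [show (y, k).2 j = x from hj] at this
    exact this
  · rintro ⟨k, hk⟩
    refine ⟨Finset.univ.image k, (Finset.card_image_le).trans (by simp), ?_⟩
    intro g' hg'
    refine hk g' fun j => hg' _ (Finset.mem_image_of_mem k (Finset.mem_univ j))

section fin

variable [CompactSpace X] [T2Space X] [TotallyDisconnectedSpace X]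

/-- there are only finitely many certificates of the least size -/
theorem cert_finite (ψ : (κ → I) → C(X, Bool) → ℝ) (h1 : ∀ g, Continuous fun y => ψ y g)
    (h2 : ∀ y g ε, 0 < ε → ∃ K : Finset X, ∀ g' : C(X, Bool), (∀ x ∈ K, g' x = g x) →
      |ψ y g' - ψ y g| < ε)
    (ε : ℝ) (g : C(X, Bool)) (m : ℕ) (y : κ → I)
    (hmin : ∀ K : Finset X, Cert ψ ε g y K → m ≤ K.card) :
    {k : Fin m → X | (y, k) ∈ TT ψ ε g m}.Finite := by
  classical
  by_contra hinf
  have hinf' : {k : Fin m → X | (y, k) ∈ TT ψ ε g m}.Infinite := hinf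
  have hcl : IsClosed {k : Fin m → X | (y, k) ∈ TT ψ ε g m} :=
    (TT_closed ψ h1 ε g m).preimage (Continuous.prodMk_right y)
  obtain ⟨k, hk, hacc⟩ := hinf'.exists_accPt_of_subset_isCompact hcl.isCompact Subset.rfl
  rw [accPt_iff_nhds] at hacc
  -- the functions refuting smaller certificates
  have hJ : ∀ J : {J : Finset (Fin m) // J.Nonempty}, ∃ (gJ : C(X, Bool)) (L : Finset X),
      (∀ j, j ∉ J.1 → gJ (k j) = g (k j)) ∧
      ∀ g'' : C(X, Bool), (∀ x ∈ L, g'' x = gJ x) → ε < |ψ y g'' - ψ y g| := by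
    intro J
    have hcard : (J.1ᶜ.image k).card < m := by
      refine lt_of_le_of_lt Finset.card_image_le ?_
      rw [Finset.card_compl, Fintype.card_fin]
      have := J.2.card_pos
      have h' : J.1.card ≤ m := by simpa using Finset.card_le_univ J.1
      omega
    have hnot : ¬ Cert ψ ε g y (J.1ᶜ.image k) := fun hc => absurd (hmin _ hc) (by omega)
    unfold Cert at hnot
    push Not at hnot
    obtain ⟨gJ, hgJ, hlt⟩ := hnot
    obtain ⟨L, hL⟩ := h2 y gJ (|ψ y gJ - ψ y g| - ε) (by linarith)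
    refine ⟨gJ, L, ?_, ?_⟩
    · intro j hj
      exact hgJ _ (Finset.mem_image_of_mem k (Finset.mem_compl.2 hj))
    · intro g'' hg''
      have := hL g'' hg''
      have h3 : |ψ y gJ - ψ y g| ≤ |ψ y g'' - ψ y gJ| + |ψ y g'' - ψ y g| := by
        have : ψ y gJ - ψ y g = -(ψ y g'' - ψ y gJ) + (ψ y g'' - ψ y g) := by ring
        rw [this]
        refine (abs_add_le _ _).trans ?_
        rw [abs_neg]
      linarith
  choose gJ L hgJ hL using hJ
  let LL : Finset X := Finset.univ.biUnion L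
  let U : Set (Fin m → X) := {k' | ∀ j, k' j ∉ LL.erase (k j)}
  have hU : IsOpen U := by
    have : U = ⋂ j, {k' : Fin m → X | k' j ∈ ((LL.erase (k j) : Finset X) : Set X)ᶜ} := by
      ext k'
      simp only [U, mem_iInter, mem_ofPred_eq, mem_compl_iff, Finset.mem_coe]
    rw [this]
    refine isOpen_iInter_of_finite fun j => ?_
    exact ((LL.erase (k j)).finite_toSet.isClosed.isOpen_compl).preimage (continuous_apply j)
  have hkU : k ∈ U := fun j => Finset.notMem_erase _ _
  obtain ⟨k', ⟨hk'U, hk'S⟩, hne⟩ := hacc U (hU.mem_nhds hkU)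
  let J : Finset (Fin m) := Finset.univ.filter fun j => k' j ≠ k j
  have hJne : J.Nonempty := by
    by_contra h
    rw [Finset.not_nonempty_iff_eq_empty] at h
    apply hne
    ext1 j
    by_contra hj
    have : j ∈ J := Finset.mem_filter.2 ⟨Finset.mem_univ j, hj⟩
    rw [h] at this
    exact absurd this (Finset.notMem_empty j)
  obtain ⟨g'', hg1, hg2⟩ := interp (Finset.univ.image k') (L ⟨J, hJne⟩) g (gJ ⟨J, hJne⟩) (by
    intro x hx hxL
    obtain ⟨j, -, rfl⟩ := Finset.mem_image.1 hx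
    have hjJ : j ∉ J := by
      intro hj
      have hj' : k' j ≠ k j := (Finset.mem_filter.1 hj).2
      exact hk'U j (Finset.mem_erase.2 ⟨hj', Finset.mem_biUnion.2 ⟨_, Finset.mem_univ _, hxL⟩⟩)
    have hj' : k' j = k j := by
      by_contra h
      exact hjJ (Finset.mem_filter.2 ⟨Finset.mem_univ j, h⟩)
    rw [hj']
    exact (hgJ ⟨J, hJne⟩ j hjJ).symm)
  have hle : |ψ y g'' - ψ y g| ≤ ε :=
    hk'S g'' fun j => hg1 _ (Finset.mem_image_of_mem k' (Finset.mem_univ j))
  have hlt := hL ⟨J, hJne⟩ g'' hg2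
  linarith

/-- a common certificate on a closed face of countable codimension -/
theorem certify [Nonempty X] (ψ : (κ → I) → C(X, Bool) → ℝ)
    (h1 : ∀ g, Continuous fun y => ψ y g)
    (h2 : ∀ y g ε, 0 < ε → ∃ K : Finset X, ∀ g' : C(X, Bool), (∀ x ∈ K, g' x = g x) →
      |ψ y g' - ψ y g| < ε)
    (ε : ℝ) (hε : 0 < ε) (g : C(X, Bool)) (A0 : Set κ) (hA0 : A0.Countable) (z0 : κ → I) :
    ∃ (A : Set κ) (z : κ → I) (K : Finset X), A.Countable ∧ A0 ⊆ A ∧ z ∈ Box A0 z0 ∧
      ∀ y ∈ Box A z, Cert ψ ε g y K := by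
  classical
  let D : ℕ → Set κ → (κ → I) → Prop := fun m A z =>
    ∀ y ∈ Box A z, ¬ ∃ K : Finset X, K.card ≤ m ∧ Cert ψ ε g y K
  have hex : ∃ m, ∃ (A : Set κ) (z : κ → I), A.Countable ∧ A0 ⊆ A ∧ z ∈ Box A0 z0 ∧
      ∀ (A' : Set κ) (z' : κ → I), A'.Countable → A ⊆ A' → z' ∈ Box A z → ¬ D m A' z' := by
    by_contra hcon
    push Not at hcon
    obtain ⟨A, z, hA, hAA, hz, hD⟩ := generic D A0 hA0 z0 (by
        rintro m A z A' z' - - hD hAA' hz' y hy
        exact hD y (Box.sub hAA' hz' hy)) (by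
        intro m A z hA hAA hz
        obtain ⟨A', z', h1, h2, h3, h4⟩ := hcon m A z hA hAA hz
        exact ⟨A', z', h1, h2, h3, h4⟩)
    obtain ⟨K, hK⟩ := h2 z g ε hε
    exact hD K.card z (Box.self _ _) ⟨K, le_rfl, fun g' hg' => (hK g' hg').le⟩
  have hleast := Nat.find_spec hex
  have hmin : ∀ m, m < Nat.find hex → _ := fun m hm => Nat.find_min hex hm
  set m := Nat.find hex with hm
  obtain ⟨A1, z1, hA1, hAA1, hz1, hmax⟩ := hleast
  have hall : ∀ y ∈ Box A1 z1, ∃ k : Fin m → X, (y, k) ∈ TT ψ ε g m := by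
    intro y hy
    by_contra hno
    have hcl : IsClosed {y : κ → I | ∃ k : Fin m → X, (y, k) ∈ TT ψ ε g m} := by
      have : {y : κ → I | ∃ k : Fin m → X, (y, k) ∈ TT ψ ε g m} = Prod.fst '' TT ψ ε g m := by
        ext y
        constructor
        · rintro ⟨k, hk⟩
          exact ⟨(y, k), hk, rfl⟩
        · rintro ⟨⟨y', k⟩, hk, rfl⟩
          exact ⟨k, hk⟩
      rw [this]
      exact isClosedMap_fst_of_compactSpace _ (TT_closed ψ h1 ε g m)
    obtain ⟨F, hF⟩ := basic_nhd hcl.isOpen_compl (y := y) hno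
    refine hmax (A1 ∪ F) y (hA1.union F.countable_toSet) subset_union_left hy ?_
    intro y' hy' hK
    exact hF y' (fun i hi => hy' i (Or.inr (by exact_mod_cast hi))) ((cert_iff ψ ε g m y').1 hK)
  rcases Nat.eq_zero_or_pos m with h0 | hpos
  · refine ⟨A1, z1, ∅, hA1, hAA1, hz1, fun y hy g' _ => ?_⟩
    obtain ⟨k, hk⟩ := hall y hy
    refine hk g' fun j => ?_
    exact absurd j.2 (by omega)
  · obtain ⟨m', hm'⟩ := Nat.exists_eq_succ_of_ne_zero hpos.ne'
    have hdense := hmin m' (by omega)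
    push Not at hdense
    obtain ⟨A2, z2, hA2, hAA2, hz2, hD2⟩ := hdense A1 z1 hA1 hAA1 hz1
    have hbox : Box A2 z2 ⊆ Box A1 z1 := Box.sub hAA2 hz2
    have hcard : ∀ y ∈ Box A2 z2, ∀ K : Finset X, Cert ψ ε g y K → m ≤ K.card := by
      intro y hy K hK
      by_contra hlt
      exact hD2 y hy ⟨K, by omega, hK⟩
    obtain ⟨A, z, w, hA, hAA, hz, hw⟩ := select (W := Fin m → X) (Λ := Fin m × C(X, Bool))
      (fun l k => l.2 (k l.1)) (fun l => l.2.continuous.comp (continuous_apply l.1))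
      (fun k k' h => funext fun j => sep _ _ fun g => h (j, g)) (TT ψ ε g m)
      (TT_closed ψ h1 ε g m) A2 hA2 z2 (fun y hy => hall y (hbox hy))
      (fun y hy => cert_finite ψ h1 h2 ε g m y (hcard y hy))
    refine ⟨A, z, Finset.univ.image w, hA, (hAA1.trans hAA2).trans hAA,
      Box.sub hAA1 hz1 (Box.sub hAA2 hz2 hz), fun y hy g' hg' => ?_⟩
    exact hw y hy g' fun j => hg' _ (Finset.mem_image_of_mem w (Finset.mem_univ j))

end fin

end Pool.Agent.H151
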