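import Mathlib

set_option autoImplicit false

open Set Topology Filter

namespace Pool.Agent.H151

/-- The double arrow space, as the space of all cuts (lower sets) of the real line. -/
abbrev DA : Type := {L : ℝ → Bool // Antitone L}

theorem DA.le_total' (L M : DA) : L ≤ M ∨ M ≤ L := by
  by_cases h : L ≤ M
  · exact Or.inl h
  · right
    have h2 : ¬ ∀ x, L.1 x ≤ M.1 x := h
    push Not at h2
    obtain ⟨x, hx⟩ := h2
    have hLx : L.1 x = true := by
      cases hL : L.1 x
      · rw [hL] at hx; exact absurd hx (by simp)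
      · rfl
    have hMx : M.1 x = false := by
      cases hM : M.1 x
      · rfl
      · rw [hM] at hx; exact absurd hx (by simp)
    intro y
    show M.1 y ≤ L.1 y
    rcases le_total x y with hxy | hyx
    · have := M.2 hxy
      rw [hMx] at this
      exact this.trans (Bool.false_le _)
    · have := L.2 hyx
      rw [hLx] at this
      exact (Bool.le_true _).trans this

theorem isClosed_bool_le {Z : Type*} [TopologicalSpace Z] {u v : Z → Bool} (hu : Continuous u)
    (hv : Continuous v) : IsClosed {z | u z ≤ v z} := by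
  have h : Continuous fun z => (u z, v z) := hu.prodMk hv
  exact (isClosed_discrete {p : Bool × Bool | p.1 ≤ p.2}).preimage h

instance : CompactSpace DA := by
  refine isCompact_iff_compactSpace.1 (IsClosed.isCompact ?_)
  have : {L : ℝ → Bool | Antitone L} = ⋂ (x : ℝ) (y : ℝ) (_ : x ≤ y), {L | L y ≤ L x} := by
    ext L
    simp only [mem_ofPred_eq, mem_iInter]
    rfl
  change IsClosed {L : ℝ → Bool | Antitone L}
  rw [this]
  refine isClosed_iInter fun x => isClosed_iInter fun y => isClosed_iInter fun _ => ?_
  exact isClosed_bool_le (continuous_apply y) (continuous_apply x)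

theorem DA.cont_eval (x : ℝ) : Continuous fun L : DA => L.1 x :=
  (continuous_apply x).comp continuous_subtype_val

theorem DA.isClosed_le_left (L : DA) : IsClosed {M : DA | M ≤ L} := by
  have : {M : DA | M ≤ L} = ⋂ x : ℝ, {M : DA | M.1 x ≤ L.1 x} := by
    ext M; simp only [mem_ofPred_eq, mem_iInter]; rfl
  rw [this]
  exact isClosed_iInter fun x => isClosed_bool_le (DA.cont_eval x) continuous_const

theorem DA.isClosed_le_right (L : DA) : IsClosed {M : DA | L ≤ M} := by
  have : {M : DA | L ≤ M} = ⋂ x : ℝ, {M : DA | L.1 x ≤ M.1 x} := by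
    ext M; simp only [mem_ofPred_eq, mem_iInter]; rfl
  rw [this]
  exact isClosed_iInter fun x => isClosed_bool_le continuous_const (DA.cont_eval x)

theorem DA.exists_greatest (S : Set DA) (hS : IsClosed S) (hne : S.Nonempty) :
    ∃ a ∈ S, ∀ M ∈ S, M ≤ a := by
  have hc : IsCompact S := hS.isCompact
  by_contra hcon
  push Not at hcon
  -- the sets `{M ∈ S | M0 ≤ M}` have the finite intersection property
  have : (S ∩ ⋂ M : S, {a : DA | M.1 ≤ a}).Nonempty := by
    refine hc.inter_iInter_nonempty _ (fun M => DA.isClosed_le_right M.1) ?_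
    intro F
    classical
    induction F using Finset.induction_on with
    | empty => simpa using hne
    | insert M F hM ih =>
      obtain ⟨a, haS, ha⟩ := ih
      rcases DA.le_total' M.1 a with h | h
      · refine ⟨a, haS, ?_⟩
        simp only [mem_iInter, Finset.mem_insert, mem_ofPred_eq] at ha ⊢
        rintro i (rfl | hi)
        · exact h
        · exact ha i hi
      · refine ⟨M.1, M.2, ?_⟩
        simp only [mem_iInter, Finset.mem_insert, mem_ofPred_eq] at ha ⊢
        rintro i (rfl | hi)
        · exact le_refl _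
        · exact (ha i hi).trans h
  obtain ⟨a, haS, ha⟩ := this
  obtain ⟨M, hM, hMa⟩ := hcon a haS
  exact hMa (mem_iInter.1 ha ⟨M, hM⟩)

theorem DA.exists_least (S : Set DA) (hS : IsClosed S) (hne : S.Nonempty) :
    ∃ a ∈ S, ∀ M ∈ S, a ≤ M := by
  have hc : IsCompact S := hS.isCompact
  by_contra hcon
  push Not at hcon
  have : (S ∩ ⋂ M : S, {a : DA | a ≤ M.1}).Nonempty := by
    refine hc.inter_iInter_nonempty _ (fun M => DA.isClosed_le_left M.1) ?_
    intro F
    classical
    induction F using Finset.induction_on with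
    | empty => simpa using hne
    | insert M F hM ih =>
      obtain ⟨a, haS, ha⟩ := ih
      rcases DA.le_total' M.1 a with h | h
      · refine ⟨M.1, M.2, ?_⟩
        simp only [mem_iInter, Finset.mem_insert, mem_ofPred_eq] at ha ⊢
        rintro i (rfl | hi)
        · exact le_refl _
        · exact h.trans (ha i hi)
      · refine ⟨a, haS, ?_⟩
        simp only [mem_iInter, Finset.mem_insert, mem_ofPred_eq] at ha ⊢
        rintro i (rfl | hi)
        · exact h
        · exact ha i hi
  obtain ⟨a, haS, ha⟩ := this
  obtain ⟨M, hM, hMa⟩ := hcon a haS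
  exact hMa (mem_iInter.1 ha ⟨M, hM⟩)

section retraction

variable (A : Set DA)

/-- the predicate choosing the cut point -/
def cutPred (x : ℝ) : ℝ → Prop := fun t =>
  (∀ M ∈ A, M.1 x = true → M.1 t = true) ∧ ¬ ∃ M ∈ A, M.1 x = false ∧ M.1 t = true

/-- the cut point -/
noncomputable def cutPt (x : ℝ) : ℝ := Classical.epsilon (cutPred A x)

theorem cutPt_spec (x : ℝ) : cutPred A x (cutPt A x) := by
  refine Classical.epsilon_spec (p := cutPred A x) ⟨x, fun M _ h => h, ?_⟩
  rintro ⟨M, _, h1, h2⟩
  rw [h1] at h2
  exact Bool.false_ne_true h2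

open Classical in
/-- the coordinates of the retraction -/
noncomputable def rfun (L : DA) (x : ℝ) : Bool :=
  if (∃ M ∈ A, M.1 x = true) then
    (if (∃ M ∈ A, M.1 x = false) then L.1 (cutPt A x) else true) else false

theorem rfun_true {L M : DA} (hM : M ∈ A) (h : M ≤ L) {x : ℝ} (hx : M.1 x = true) :
    rfun A L x = true := by
  unfold rfun
  rw [if_pos ⟨M, hM, hx⟩]
  split_ifs with h2
  · have h3 := (cutPt_spec A x).1 M hM hx
    have h4 : M.1 (cutPt A x) ≤ L.1 (cutPt A x) := h _
    rw [h3] at h4
    exact top_le_iff.1 h4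
  · rfl

theorem rfun_false {L M : DA} (hM : M ∈ A) (h : L ≤ M) {x : ℝ} (hx : M.1 x = false) :
    rfun A L x = false := by
  unfold rfun
  split_ifs with h1 h2
  · by_contra h3
    have h3' : L.1 (cutPt A x) = true := by simpa using h3
    have h4 : L.1 (cutPt A x) ≤ M.1 (cutPt A x) := h _
    rw [h3'] at h4
    exact (cutPt_spec A x).2 ⟨M, hM, hx, top_le_iff.1 h4⟩
  · exact absurd ⟨M, hM, hx⟩ h2
  · rfl

theorem rfun_of_mem {L : DA} (hL : L ∈ A) : rfun A L = L.1 := by
  funext x
  cases hx : L.1 x
  · exact rfun_false A hL le_rfl hx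
  · exact rfun_true A hL le_rfl hx

theorem rfun_mem (hA : IsClosed A) (hne : A.Nonempty) (L : DA) :
    ∃ M ∈ A, rfun A L = M.1 := by
  by_cases hlo : (A ∩ {M : DA | M ≤ L}).Nonempty
  · obtain ⟨a, ⟨haA, haL⟩, ha⟩ :=
      DA.exists_greatest _ (hA.inter (DA.isClosed_le_left L)) hlo
    by_cases hhi : (A ∩ {M : DA | L ≤ M}).Nonempty
    · obtain ⟨b, ⟨hbA, hbL⟩, hb⟩ :=
        DA.exists_least _ (hA.inter (DA.isClosed_le_right L)) hhi
      have haL' : a ≤ L := haL
      have hbL' : L ≤ b := hbL
      -- the common cut predicate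
      have key : ∀ x, a.1 x = false → b.1 x = true →
          cutPred A x = fun t => b.1 t = true ∧ ¬ a.1 t = true := by
        intro x hax hbx
        funext t
        apply propext
        constructor
        · rintro ⟨h1, h2⟩
          exact ⟨h1 b hbA hbx, fun h3 => h2 ⟨a, haA, hax, h3⟩⟩
        · rintro ⟨h1, h2⟩
          refine ⟨fun M hM hMx => ?_, ?_⟩
          · rcases DA.le_total' M L with h | h
            · have h3 := ha M ⟨hM, h⟩ x
              have h3' : M.1 x ≤ a.1 x := h3
              rw [hMx, hax] at h3'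
              exact absurd h3' (by simp)
            · have h3' : b.1 t ≤ M.1 t := hb M ⟨hM, h⟩ t
              rw [h1] at h3'
              exact top_le_iff.1 h3'
          · rintro ⟨M, hM, hMx, hMt⟩
            rcases DA.le_total' M L with h | h
            · have h3' : M.1 t ≤ a.1 t := ha M ⟨hM, h⟩ t
              rw [hMt] at h3'
              exact h2 (top_le_iff.1 h3')
            · have h3' : b.1 x ≤ M.1 x := hb M ⟨hM, h⟩ x
              rw [hMx, hbx] at h3'
              exact absurd h3' (by simp)
      set c0 : ℝ := Classical.epsilon (fun t => b.1 t = true ∧ ¬ a.1 t = true) with hc0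
      have hmid : ∀ x, a.1 x = false → b.1 x = true → rfun A L x = L.1 c0 := by
        intro x hax hbx
        unfold rfun
        rw [if_pos ⟨b, hbA, hbx⟩, if_pos ⟨a, haA, hax⟩]
        unfold cutPt
        rw [key x hax hbx]
      cases hLc : L.1 c0
      · refine ⟨a, haA, funext fun x => ?_⟩
        cases hax : a.1 x
        · cases hbx : b.1 x
          · exact rfun_false A hbA hbL' hbx
          · rw [hmid x hax hbx, hLc]
        · exact rfun_true A haA haL' hax
      · refine ⟨b, hbA, funext fun x => ?_⟩
        cases hbx : b.1 x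
        · exact rfun_false A hbA hbL' hbx
        · cases hax : a.1 x
          · rw [hmid x hax hbx, hLc]
          · exact rfun_true A haA haL' hax
    · refine ⟨a, haA, funext fun x => ?_⟩
      cases hax : a.1 x
      · unfold rfun
        rw [if_neg]
        rintro ⟨M, hM, hMx⟩
        rcases DA.le_total' M L with h | h
        · have h3' : M.1 x ≤ a.1 x := ha M ⟨hM, h⟩ x
          rw [hMx, hax] at h3'
          exact absurd h3' (by simp)
        · exact hhi ⟨M, hM, h⟩
      · exact rfun_true A haA haL hax
  · have hhi : (A ∩ {M : DA | L ≤ M}).Nonempty := by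
      obtain ⟨M, hM⟩ := hne
      rcases DA.le_total' M L with h | h
      · exact absurd ⟨M, hM, h⟩ hlo
      · exact ⟨M, hM, h⟩
    obtain ⟨b, ⟨hbA, hbL⟩, hb⟩ :=
      DA.exists_least _ (hA.inter (DA.isClosed_le_right L)) hhi
    refine ⟨b, hbA, funext fun x => ?_⟩
    cases hbx : b.1 x
    · exact rfun_false A hbA hbL hbx
    · unfold rfun
      rw [if_pos ⟨b, hbA, hbx⟩, if_neg]
      rintro ⟨M, hM, hMx⟩
      rcases DA.le_total' M L with h | h
      · exact hlo ⟨M, hM, h⟩
      · have h3' : b.1 x ≤ M.1 x := hb M ⟨hM, h⟩ x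
        rw [hMx, hbx] at h3'
        exact absurd h3' (by simp)

/-- Every nonempty closed subset of the double arrow space is a retract of it. -/
theorem DA.retract (hA : IsClosed A) (hne : A.Nonempty) :
    ∃ r : DA → DA, Continuous r ∧ (∀ L, r L ∈ A) ∧ ∀ L ∈ A, r L = L := by
  choose r hr hrf using rfun_mem A hA hne
  refine ⟨r, ?_, hr, fun L hL => ?_⟩
  · rw [continuous_induced_rng]
    refine continuous_pi fun x => ?_
    have : (fun L : DA => (r L).1 x) = fun L => rfun A L x := by
      funext L; rw [hrf L]
    show Continuous fun L : DA => (r L).1 x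
    rw [this]
    unfold rfun
    by_cases h1 : ∃ M ∈ A, M.1 x = true
    · by_cases h2 : ∃ M ∈ A, M.1 x = false
      · simp only [if_pos h1, if_pos h2]
        exact DA.cont_eval _
      · simp only [if_pos h1, if_neg h2]
        exact continuous_const
    · simp only [if_neg h1]
      exact continuous_const
  · apply Subtype.ext
    rw [← hrf L, rfun_of_mem A hL]

end retraction

end Pool.Agent.H151
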