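import Mathlib

set_option autoImplicit false

open Set Topology Filter

namespace Pool.Agent.H151.Ext

universe u

/-- `C_p(Z)`: the continuous real functions on `Z` with the topology of pointwise convergence
(the subspace topology from the product `Z → ℝ`). -/
abbrev Cp (Z : Type u) [TopologicalSpace Z] : Type u := {f : Z → ℝ // Continuous f}

/-- `S` is t-embedded in `Y`: there is a continuous extender `C_p(S) → C_p(Y)`. -/
def TEmbedded {Y : Type u} [TopologicalSpace Y] (S : Set Y) : Prop :=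
  ∃ φ : Cp S → Cp Y, Continuous φ ∧ ∀ (f : Cp S) (s : S), (φ f).1 s = f.1 s

/-- `S` is l-embedded in `Y`: there is a continuous linear extender `C_p(S) → C_p(Y)`. -/
def LEmbedded {Y : Type u} [TopologicalSpace Y] (S : Set Y) : Prop :=
  ∃ φ : Cp S → Cp Y, Continuous φ ∧
    (∀ (a b : ℝ) (f g h : Cp S), (∀ s, h.1 s = a * f.1 s + b * g.1 s) →
      ∀ y, (φ h).1 y = a * (φ f).1 y + b * (φ g).1 y) ∧
    ∀ (f : Cp S) (s : S), (φ f).1 s = f.1 s

/-- `X` is extendial: each closed subspace of `X` is l-embedded in `X`. -/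
def Extendial (X : Type u) [TopologicalSpace X] : Prop :=
  ∀ S : Set X, IsClosed S → LEmbedded S

/-- `X` is t-extendial: each closed subspace of `X` is t-embedded in `X`. -/
def TExtendial (X : Type u) [TopologicalSpace X] : Prop :=
  ∀ S : Set X, IsClosed S → TEmbedded S

theorem Extendial.tExtendial {X : Type u} [TopologicalSpace X] (h : Extendial X) :
    TExtendial X := by
  intro S hS
  obtain ⟨φ, h1, _, h3⟩ := h S hS
  exact ⟨φ, h1, h3⟩

/-- A closed subset of `(ω+1) × K`, `K` compact, missing the level `ω` is contained in finitely many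
levels. -/
theorem eventually_not_mem {K : Type u} [TopologicalSpace K] [CompactSpace K]
    (C : Set (OnePoint ℕ × K)) (hC : IsClosed C) (hinf : ∀ z, (OnePoint.infty, z) ∉ C) :
    ∃ N : ℕ, ∀ n : ℕ, N ≤ n → ∀ z, ((n : OnePoint ℕ), z) ∉ C := by
  have h1 : IsClosed (Prod.fst '' C) := isClosedMap_fst_of_compactSpace C hC
  have h2 : (OnePoint.infty : OnePoint ℕ) ∈ (Prod.fst '' C)ᶜ := by
    rintro ⟨⟨a, z⟩, hp, ha⟩
    have ha' : a = OnePoint.infty := ha
    subst ha'
    exact hinf z hp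
  have h3 : (Prod.fst '' C)ᶜ ∈ 𝓝 (OnePoint.infty : OnePoint ℕ) := h1.isOpen_compl.mem_nhds h2
  have h4 : ((↑) : ℕ → OnePoint ℕ) ⁻¹' (Prod.fst '' C)ᶜ ∈
      comap ((↑) : ℕ → OnePoint ℕ) (𝓝 (OnePoint.infty : OnePoint ℕ)) := preimage_mem_comap h3
  rw [OnePoint.comap_coe_nhds_infty, coclosedCompact_eq_cocompact, cocompact_eq_cofinite,
    Nat.cofinite_eq_atTop, mem_atTop_sets] at h4
  obtain ⟨N, hN⟩ := h4
  exact ⟨N, fun n hn z hz => hN n hn ⟨_, hz, rfl⟩⟩

/-- Continuity criterion for functions on `(ω+1) × K`. -/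
theorem continuous_of_unif {K : Type u} [TopologicalSpace K] (F : OnePoint ℕ × K → ℝ)
    (h1 : ∀ n, Continuous fun z => F (n, z))
    (h2 : ∀ ε > 0, ∃ N : ℕ, ∀ n : ℕ, N ≤ n → ∀ z, |F (n, z) - F (OnePoint.infty, z)| < ε) :
    Continuous F := by
  rw [continuous_iff_continuousAt]
  rintro ⟨n, z⟩
  induction n using OnePoint.rec with
  | coe n =>
    have h3 : 𝓝 ((n : OnePoint ℕ)) = pure (n : OnePoint ℕ) := by
      rw [OnePoint.nhds_coe_eq, nhds_discrete]
      rfl
    rw [ContinuousAt, nhds_prod_eq, h3, pure_prod, tendsto_map'_iff]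
    exact (h1 n).continuousAt
  | infty =>
    rw [Metric.continuousAt_iff']
    intro ε hε
    obtain ⟨N, hN⟩ := h2 (ε / 2) (half_pos hε)
    have h3 : ∀ᶠ z' in 𝓝 z, dist (F (OnePoint.infty, z')) (F (OnePoint.infty, z)) < ε / 2 :=
      Metric.continuousAt_iff'.1 ((h1 OnePoint.infty).continuousAt) _ (half_pos hε)
    have h4 : ∀ᶠ m : OnePoint ℕ in 𝓝 OnePoint.infty, m = OnePoint.infty ∨ ∃ k : ℕ, N ≤ k ∧ m = k := by
      have h5 : IsOpen ((((↑) : ℕ → OnePoint ℕ) '' {k | k < N})ᶜ) := by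
        rw [isOpen_compl_iff]
        exact ((Set.finite_lt_nat N).image _).isClosed
      have h6 : (OnePoint.infty : OnePoint ℕ) ∈ ((((↑) : ℕ → OnePoint ℕ) '' {k | k < N})ᶜ) := by
        rintro ⟨k, _, hk⟩
        exact OnePoint.coe_ne_infty k hk
      filter_upwards [h5.mem_nhds h6] with m hm
      induction m using OnePoint.rec with
      | infty => exact Or.inl rfl
      | coe k =>
        refine Or.inr ⟨k, ?_, rfl⟩
        by_contra hlt
        exact hm ⟨k, not_le.1 hlt, rfl⟩
    rw [nhds_prod_eq]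
    have h7 := h4.prod_mk h3
    filter_upwards [h7] with p hp
    obtain ⟨hm, hz⟩ := hp
    have h8 : dist (F p) (F (OnePoint.infty, p.2)) < ε / 2 := by
      rcases hm with hm | ⟨k, hk, hm⟩
      · rw [show p = (OnePoint.infty, p.2) from Prod.ext hm rfl]
        simpa using half_pos hε
      · rw [show p = ((k : OnePoint ℕ), p.2) from Prod.ext hm rfl]
        rw [Real.dist_eq]
        exact hN k hk p.2
    calc dist (F p) (F (OnePoint.infty, z)) ≤ dist (F p) (F (OnePoint.infty, p.2)) +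
          dist (F (OnePoint.infty, p.2)) (F (OnePoint.infty, z)) := dist_triangle _ _ _
      _ < ε / 2 + ε / 2 := add_lt_add h8 hz
      _ = ε := by ring

end Pool.Agent.H151.Ext
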