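import Mathlib
import Pool.Agent.H151.ExtDefs
import Pool.Agent.H151.DArrow

set_option autoImplicit false

open Set Topology Filter

namespace Pool.Agent.H151.Ext

/-- the lower cut at `y` -/
noncomputable def Lo (y : ℝ) : DA := ⟨fun t => decide (t < y), by
  intro a b hab
  by_cases h : b < y
  · have : a < y := lt_of_le_of_lt hab h
    simp [h, this]
  · simp [h]⟩

/-- the upper cut at `y` -/
noncomputable def Hi (y : ℝ) : DA := ⟨fun t => decide (t ≤ y), by
  intro a b hab
  by_cases h : b ≤ y
  · have : a ≤ y := hab.trans h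
    simp [h, this]
  · simp [h]⟩

/-- the coordinate functions -/
def sf (x : ℝ) (L : DA) : ℝ := if L.1 x then 1 else 0

theorem continuous_sf (x : ℝ) : Continuous (sf x) := by
  have h : Continuous fun b : Bool => (if b then (1 : ℝ) else 0) := continuous_of_discreteTopology
  exact h.comp (DA.cont_eval x)

theorem sf_eq_iff {x y : ℝ} {L : DA} (h : sf x L ≠ sf y L) (hxy : x < y) :
    L.1 x = true ∧ L.1 y = false := by
  unfold sf at h
  cases hx : L.1 x
  · cases hy : L.1 y
    · rw [hx, hy] at h; exact absurd rfl h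
    · have := L.2 hxy.le
      rw [hx, hy] at this
      exact absurd this (by simp)
  · cases hy : L.1 y
    · exact ⟨rfl, rfl⟩
    · rw [hx, hy] at h; exact absurd rfl h

/-- the test functions -/
def gf (x y z : ℝ) : Cp DA := ⟨fun L => sf x L + (sf y L - sf z L),
  (continuous_sf x).add ((continuous_sf y).sub (continuous_sf z))⟩

/-- the base functions -/
def sb (x : ℝ) : Cp DA := ⟨sf x, continuous_sf x⟩

theorem gf_ne {x y z : ℝ} {L : DA} (h : (gf x y z).1 L ≠ (sb x).1 L) : sf y L ≠ sf z L := by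
  intro h2
  apply h
  show sf x L + (sf y L - sf z L) = sf x L
  rw [h2]; ring

theorem tendsto_Lo_left (y : ℝ) : Tendsto Lo (𝓝[<] y) (𝓝 (Lo y)) := by
  rw [tendsto_subtype_rng, tendsto_pi_nhds]
  intro t
  rw [nhds_discrete, tendsto_pure]
  by_cases h : t < y
  · have h1 : ∀ᶠ u in 𝓝[<] y, t < u := by
      filter_upwards [Ioo_mem_nhdsLT h] with u hu using hu.1
    filter_upwards [h1] with u hu
    simp [Lo, h, hu]
  · filter_upwards [self_mem_nhdsWithin] with u hu
    have hu' : u < y := hu
    have : ¬ t < u := fun h2 => h (h2.trans hu')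
    simp [Lo, h, this]

theorem tendsto_Lo_right (y : ℝ) : Tendsto Lo (𝓝[>] y) (𝓝 (Hi y)) := by
  rw [tendsto_subtype_rng, tendsto_pi_nhds]
  intro t
  rw [nhds_discrete, tendsto_pure]
  by_cases h : t ≤ y
  · filter_upwards [self_mem_nhdsWithin] with u hu
    have hu' : y < u := hu
    have : t < u := lt_of_le_of_lt h hu'
    simp [Lo, Hi, h, this]
  · have h' : y < t := not_le.1 h
    have h1 : ∀ᶠ u in 𝓝[>] y, u < t := by
      filter_upwards [Ioo_mem_nhdsGT h'] with u hu using hu.2
    filter_upwards [h1] with u hu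
    have : ¬ t < u := not_lt.2 hu.le
    simp [Lo, Hi, h, this]

/-- closeness of `g` to `h` near `t` up to `δ` -/
def Close (h g : Cp DA) (δ t : ℝ) : Prop :=
  ∀ L : DA, g.1 L ≠ h.1 L → ∃ c d : ℝ, L.1 c = true ∧ L.1 d = false ∧ |c - t| < δ ∧ |d - t| < δ ∧
    ((t < c ∧ t < d) ∨ (c < t ∧ d < t))

theorem tendsto_of_close (h : Cp DA) (t : ℝ) (g : ℕ → Cp DA)
    (hg : ∀ m : ℕ, Close h (g m) (1 / ((m : ℝ) + 1)) t) : Tendsto g atTop (𝓝 h) := by
  rw [tendsto_subtype_rng, tendsto_pi_nhds]
  intro L
  refine tendsto_const_nhds.congr' ?_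
  -- right side
  have hR : ∀ᶠ m : ℕ in atTop, ∀ c d : ℝ, L.1 c = true → L.1 d = false →
      |c - t| < 1 / ((m : ℝ) + 1) → |d - t| < 1 / ((m : ℝ) + 1) → ¬ (t < c ∧ t < d) := by
    by_cases h0 : ∃ c0, t < c0 ∧ L.1 c0 = true
    · obtain ⟨c0, hc0, hLc0⟩ := h0
      have h1 : ∀ᶠ m : ℕ in atTop, 1 / ((m : ℝ) + 1) < c0 - t :=
        (tendsto_one_div_add_atTop_nhds_zero_nat (𝕜 := ℝ)).eventually (gt_mem_nhds (by linarith))
      filter_upwards [h1] with m hm c d hc hd hct hdt hcd
      have h2 : d < c0 := by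
        have := abs_lt.1 hdt
        linarith [this.2]
      have h3 := L.2 h2.le
      rw [hLc0, hd] at h3
      exact absurd h3 (by simp)
    · refine Eventually.of_forall fun m c d hc hd _ _ hcd => h0 ⟨c, hcd.1, hc⟩
  have hL : ∀ᶠ m : ℕ in atTop, ∀ c d : ℝ, L.1 c = true → L.1 d = false →
      |c - t| < 1 / ((m : ℝ) + 1) → |d - t| < 1 / ((m : ℝ) + 1) → ¬ (c < t ∧ d < t) := by
    by_cases h0 : ∃ d0, d0 < t ∧ L.1 d0 = false
    · obtain ⟨d0, hd0, hLd0⟩ := h0
      have h1 : ∀ᶠ m : ℕ in atTop, 1 / ((m : ℝ) + 1) < t - d0 :=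
        (tendsto_one_div_add_atTop_nhds_zero_nat (𝕜 := ℝ)).eventually (gt_mem_nhds (by linarith))
      filter_upwards [h1] with m hm c d hc hd hct hdt hcd
      have h2 : d0 < c := by
        have := abs_lt.1 hct
        linarith [this.1]
      have h3 := L.2 h2.le
      rw [hLd0, hc] at h3
      exact absurd h3 (by simp)
    · refine Eventually.of_forall fun m c d hc hd _ _ hcd => h0 ⟨d, hcd.2, hd⟩
  filter_upwards [hR, hL] with m h1 h2
  by_contra hne
  obtain ⟨c, d, hc, hd, hct, hdt, hside⟩ := hg m L (fun h => hne h.symm)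
  rcases hside with h | h
  · exact h1 c d hc hd hct hdt h
  · exact h2 c d hc hd hct hdt h

/-- The Baire category step. -/
theorem baire_step (N : ℕ) (ψ : Cp DA → OnePoint ℕ × DA → ℝ)
    (P3 : ∀ p, Continuous fun f => ψ f p) (h : Cp DA) (Z : Set ℝ) (hZ : IsClosed Z)
    (T : Set ℝ) (α β : ℝ) (hαβ : α < β) (hT : Ioo α β ⊆ closure T)
    (hW : ∀ y ∈ T, ∀ m : ℕ, ∃ (g : Cp DA) (W : Set ℝ), IsOpen W ∧ y ∈ closure W ∧
      ∀ t ∈ W, Close h g (1 / ((m : ℝ) + 1)) t ∧ ψ g ((N : OnePoint ℕ), Lo t) ∈ Z) :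
    ∃ t ∈ Ioo α β, ψ h ((N : OnePoint ℕ), Lo t) ∈ Z := by
  let O : ℕ → Set ℝ := fun m => ⋃ (W : Set ℝ) (_ : IsOpen W) (_ : ∃ g : Cp DA,
    ∀ t ∈ W, Close h g (1 / ((m : ℝ) + 1)) t ∧ ψ g ((N : OnePoint ℕ), Lo t) ∈ Z), W
  have hO : ∀ m, IsOpen (O m) := fun m =>
    isOpen_iUnion fun W => isOpen_iUnion fun hWo => isOpen_iUnion fun _ => hWo
  have hOc : ∀ m, T ⊆ closure (O m) := by
    intro m y hy
    obtain ⟨g, W, hWo, hyW, hWt⟩ := hW y hy m
    refine closure_mono ?_ hyW
    intro t ht
    exact mem_iUnion.2 ⟨W, mem_iUnion.2 ⟨hWo, mem_iUnion.2 ⟨⟨g, hWt⟩, ht⟩⟩⟩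
  have hdense : ∀ m, Dense (O m ∪ (Icc α β)ᶜ) := by
    intro m t
    by_cases ht : t ∈ Icc α β
    · rw [← closure_Ioo hαβ.ne] at ht
      have h1 : closure (Ioo α β) ⊆ closure (O m) :=
        closure_minimal (hT.trans (closure_minimal (hOc m) isClosed_closure)) isClosed_closure
      exact closure_mono subset_union_left (h1 ht)
    · exact subset_closure (Or.inr ht)
  have hD : Dense (⋂ m, (O m ∪ (Icc α β)ᶜ)) :=
    dense_iInter_of_isOpen_nat (fun m => (hO m).union isClosed_Icc.isOpen_compl) hdense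
  obtain ⟨t, htI, ht⟩ := hD.inter_open_nonempty (Ioo α β) isOpen_Ioo (nonempty_Ioo.2 hαβ)
  refine ⟨t, htI, ?_⟩
  have htO : ∀ m, t ∈ O m := by
    intro m
    rcases mem_iInter.1 ht m with h1 | h1
    · exact h1
    · exact absurd (Ioo_subset_Icc_self htI) h1
  have : ∀ m : ℕ, ∃ g : Cp DA, Close h g (1 / ((m : ℝ) + 1)) t ∧ ψ g ((N : OnePoint ℕ), Lo t) ∈ Z := by
    intro m
    have h1 := htO m
    simp only [O, mem_iUnion] at h1
    obtain ⟨W, _, ⟨g, hg⟩, htW⟩ := h1
    exact ⟨g, hg t htW⟩
  choose g hg1 hg2 using this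
  have h3 : Tendsto (fun m => ψ (g m) ((N : OnePoint ℕ), Lo t)) atTop
      (𝓝 (ψ h ((N : OnePoint ℕ), Lo t))) :=
    ((P3 _).tendsto h).comp (tendsto_of_close h t g hg1)
  exact hZ.mem_of_tendsto h3 (Eventually.of_forall hg2)

theorem basic_nhd' {Z : Type*} {V : Set (Z → ℝ)} (hV : IsOpen V) {f : Z → ℝ} (hf : f ∈ V) :
    ∃ K : Finset Z, ∀ g : Z → ℝ, (∀ x ∈ K, g x = f x) → g ∈ V := by
  rw [isOpen_pi_iff] at hV
  obtain ⟨K, u, hu, hsub⟩ := hV f hf
  refine ⟨K, fun g hg => hsub fun x hx => ?_⟩
  rw [hg x hx]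
  exact (hu x hx).2

theorem no_psi (ν : ℝ → ℕ) (hν : ∀ (n : ℕ) (a b : ℝ), a < b → ¬ IsMeagre (ν ⁻¹' {n} ∩ Ioo a b))
    (ψ : Cp DA → OnePoint ℕ × DA → ℝ)
    (P1 : ∀ f, Continuous (ψ f)) (P2 : ∀ f L, ψ f (OnePoint.infty, L) = f.1 L)
    (P3 : ∀ p, Continuous fun f => ψ f p)
    (P4 : ∀ f y, ψ f ((ν y : OnePoint ℕ), Lo y) = ψ f ((ν y : OnePoint ℕ), Hi y)) : False := by
  -- Step 1
  have S1 : ∀ x : ℝ, ∃ N : ℕ, ∀ n : ℕ, N ≤ n → ∀ L : DA, |ψ (sb x) ((n : OnePoint ℕ), L) - sf x L| < 1 / 8 := by
    intro x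
    have hc : Continuous fun p : OnePoint ℕ × DA => |ψ (sb x) p - sf x p.2| :=
      ((P1 _).sub ((continuous_sf x).comp continuous_snd)).abs
    obtain ⟨N, hN⟩ := eventually_not_mem {p : OnePoint ℕ × DA | 1 / 8 ≤ |ψ (sb x) p - sf x p.2|}
      (isClosed_le continuous_const hc) (by
        intro L hL
        have h1 : 1 / 8 ≤ |ψ (sb x) (OnePoint.infty, L) - sf x L| := hL
        rw [P2] at h1
        have h2 : (sb x).1 L - sf x L = 0 := sub_self _
        rw [h2, abs_zero] at h1
        linarith)
    exact ⟨N, fun n hn L => not_le.1 (hN n hn L)⟩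
  -- Step 2
  let P : ℕ → Set ℝ := fun N => {x | ∀ L : DA, |ψ (sb x) ((N : OnePoint ℕ), L) - sf x L| < 1 / 8}
  obtain ⟨N, hN⟩ : ∃ N, ¬ IsNowhereDense (P N) := by
    by_contra hcon
    push Not at hcon
    have h1 : IsMeagre (⋃ N, P N) := isMeagre_iUnion fun N => (hcon N).isMeagre
    have h2 : (⋃ N, P N) = univ := by
      rw [eq_univ_iff_forall]
      intro x
      obtain ⟨N, hN⟩ := S1 x
      exact mem_iUnion.2 ⟨N, hN N le_rfl⟩
    rw [h2] at h1
    exact not_isMeagre_of_isOpen isOpen_univ univ_nonempty h1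
  have hint : (interior (closure (P N))).Nonempty := nonempty_iff_ne_empty.2 hN
  obtain ⟨x0, hx0⟩ := hint
  obtain ⟨ε, hε, hball⟩ := Metric.isOpen_iff.1 isOpen_interior x0 hx0
  rw [Real.ball_eq_Ioo] at hball
  set u := x0 - ε with hu
  set v := x0 + ε with hv
  have huv : u < v := by linarith
  have hI : Ioo u v ⊆ closure (P N) := hball.trans interior_subset
  -- Step 3
  obtain ⟨P', hP'P, hP'c, hPP'⟩ :=
    (TopologicalSpace.IsSeparable.of_separableSpace (P N)).exists_countable_dense_subset
  have hI' : Ioo u v ⊆ closure P' := hI.trans (closure_minimal hPP' isClosed_closure)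
  -- the exceptional sets
  let T : ℝ → Set ℝ := fun x => {y | ν y = N ∧ y < x ∧ ∀ b, y < b → b < x →
    3 / 8 ≤ ψ (gf x y b) ((N : OnePoint ℕ), Lo y)}
  let T' : ℝ → Set ℝ := fun x => {y | ν y = N ∧ x < y ∧ ∀ a, x < a → a < y →
    ψ (gf x y a) ((N : OnePoint ℕ), Hi y) ≤ 5 / 8}
  have hTn : ∀ x ∈ P N, IsNowhereDense (T x) := by
    intro x hx
    by_contra hcon
    obtain ⟨z, hz⟩ : (interior (closure (T x))).Nonempty := nonempty_iff_ne_empty.2 hcon
    obtain ⟨δ, hδ, hb⟩ := Metric.isOpen_iff.1 isOpen_interior z hz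
    rw [Real.ball_eq_Ioo] at hb
    have hT : Ioo (z - δ) (z + δ) ⊆ closure (T x) := hb.trans interior_subset
    obtain ⟨t, htI, ht⟩ := baire_step N ψ P3 (sb x) (Ici (1 / 4)) isClosed_Ici (T x) (z - δ) (z + δ)
      (by linarith) hT (by
        intro y hy m
        obtain ⟨_, hyx, hyb⟩ := hy
        have hm : (0 : ℝ) < 1 / ((m : ℝ) + 1) := by positivity
        set η := 1 / ((m : ℝ) + 1) with hη
        have hlt : y < min x (y + η / 2) := lt_min hyx (by linarith)
        obtain ⟨b, hb1, hb2⟩ := exists_between hlt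
        have hbx : b < x := hb2.trans_le (min_le_left _ _)
        have hbη : b < y + η / 2 := hb2.trans_le (min_le_right _ _)
        have hval := hyb b hb1 hbx
        have hcont : Tendsto (fun t => ψ (gf x y b) ((N : OnePoint ℕ), Lo t)) (𝓝[<] y)
            (𝓝 (ψ (gf x y b) ((N : OnePoint ℕ), Lo y))) := by
          have h1 : Continuous fun L : DA => ψ (gf x y b) ((N : OnePoint ℕ), L) :=
            (P1 _).comp (by fun_prop)
          exact (h1.tendsto (Lo y)).comp (tendsto_Lo_left y)
        have hev : ∀ᶠ t in 𝓝[<] y, 1 / 4 < ψ (gf x y b) ((N : OnePoint ℕ), Lo t) :=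
          hcont.eventually (lt_mem_nhds (by linarith))
        obtain ⟨l, hl, hlsub⟩ := mem_nhdsLT_iff_exists_Ioo_subset.1 hev
        have hl' : l < y := hl
        have hmax : max l (y - η / 2) < y := max_lt hl' (by linarith)
        refine ⟨gf x y b, Ioo (max l (y - η / 2)) y, isOpen_Ioo, ?_, ?_⟩
        · rw [closure_Ioo hmax.ne]
          exact ⟨hmax.le, le_rfl⟩
        · intro t ht
          have ht1 : l < t := (le_max_left _ _).trans_lt ht.1
          have ht2 : y - η / 2 < t := (le_max_right _ _).trans_lt ht.1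
          have h9 : 1 / 4 < ψ (gf x y b) ((N : OnePoint ℕ), Lo t) := hlsub ⟨ht1, ht.2⟩
          refine ⟨?_, mem_Ici.2 h9.le⟩
          intro L hL
          obtain ⟨h1, h2⟩ := sf_eq_iff (gf_ne hL) hb1
          refine ⟨y, b, h1, h2, ?_, ?_, Or.inl ⟨ht.2, ht.2.trans hb1⟩⟩
          · rw [abs_lt]; constructor <;> linarith [ht.2]
          · rw [abs_lt]; constructor <;> linarith [ht.2])
    have htx : t < x := by
      obtain ⟨t', ht1, ht2⟩ := exists_between htI.2
      have h1 : t' ∈ closure (T x) := hT ⟨htI.1.trans ht1, ht2⟩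
      have h2 : closure (T x) ⊆ Iic x := closure_minimal (fun y hy => hy.2.1.le) isClosed_Iic
      exact ht1.trans_le (h2 h1)
    have h1 := hx (Lo t)
    have h2 : sf x (Lo t) = 0 := by
      simp [sf, Lo, not_lt.2 htx.le]
    rw [h2, sub_zero] at h1
    have h3 : (1 : ℝ) / 4 ≤ ψ (sb x) ((N : OnePoint ℕ), Lo t) := ht
    have := (abs_lt.1 h1).2
    linarith
  have hTn' : ∀ x ∈ P N, IsNowhereDense (T' x) := by
    intro x hx
    by_contra hcon
    obtain ⟨z, hz⟩ : (interior (closure (T' x))).Nonempty := nonempty_iff_ne_empty.2 hcon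
    obtain ⟨δ, hδ, hb⟩ := Metric.isOpen_iff.1 isOpen_interior z hz
    rw [Real.ball_eq_Ioo] at hb
    have hT : Ioo (z - δ) (z + δ) ⊆ closure (T' x) := hb.trans interior_subset
    obtain ⟨t, htI, ht⟩ := baire_step N ψ P3 (sb x) (Iic (3 / 4)) isClosed_Iic (T' x) (z - δ) (z + δ)
      (by linarith) hT (by
        intro y hy m
        obtain ⟨_, hyx, hya⟩ := hy
        have hm : (0 : ℝ) < 1 / ((m : ℝ) + 1) := by positivity
        set η := 1 / ((m : ℝ) + 1) with hη
        have hlt : max x (y - η / 2) < y := max_lt hyx (by linarith)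
        obtain ⟨a, ha1, ha2⟩ := exists_between hlt
        have hxa : x < a := (le_max_left _ _).trans_lt ha1
        have haη : y - η / 2 < a := (le_max_right _ _).trans_lt ha1
        have hval := hya a hxa ha2
        have hcont : Tendsto (fun t => ψ (gf x y a) ((N : OnePoint ℕ), Lo t)) (𝓝[>] y)
            (𝓝 (ψ (gf x y a) ((N : OnePoint ℕ), Hi y))) := by
          have h1 : Continuous fun L : DA => ψ (gf x y a) ((N : OnePoint ℕ), L) :=
            (P1 _).comp (by fun_prop)
          exact (h1.tendsto (Hi y)).comp (tendsto_Lo_right y)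
        have hev : ∀ᶠ t in 𝓝[>] y, ψ (gf x y a) ((N : OnePoint ℕ), Lo t) < 3 / 4 :=
          hcont.eventually (gt_mem_nhds (by linarith))
        obtain ⟨l, hl, hlsub⟩ := mem_nhdsGT_iff_exists_Ioo_subset.1 hev
        have hl' : y < l := hl
        have hmin : y < min l (y + η / 2) := lt_min hl' (by linarith)
        refine ⟨gf x y a, Ioo y (min l (y + η / 2)), isOpen_Ioo, ?_, ?_⟩
        · rw [closure_Ioo hmin.ne]
          exact ⟨le_rfl, hmin.le⟩
        · intro t ht
          have ht1 : t < l := ht.2.trans_le (min_le_left _ _)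
          have ht2 : t < y + η / 2 := ht.2.trans_le (min_le_right _ _)
          have h9 : ψ (gf x y a) ((N : OnePoint ℕ), Lo t) < 3 / 4 := hlsub ⟨ht.1, ht1⟩
          refine ⟨?_, mem_Iic.2 h9.le⟩
          intro L hL
          obtain ⟨h1, h2⟩ := sf_eq_iff (gf_ne hL).symm ha2
          refine ⟨a, y, h1, h2, ?_, ?_, Or.inr ⟨ha2.trans ht.1, ht.1⟩⟩
          · rw [abs_lt]; constructor <;> linarith [ht.1]
          · rw [abs_lt]; constructor <;> linarith [ht.1])
    have htx : x < t := by
      obtain ⟨t', ht1, ht2⟩ := exists_between htI.1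
      have h1 : t' ∈ closure (T' x) := hT ⟨ht1, ht2.trans htI.2⟩
      have h2 : closure (T' x) ⊆ Ici x := closure_minimal (fun y hy => hy.2.1.le) isClosed_Ici
      exact lt_of_le_of_lt (h2 h1) ht2
    have h1 := hx (Lo t)
    have h2 : sf x (Lo t) = 1 := by
      simp [sf, Lo, htx]
    rw [h2] at h1
    have h3 : ψ (sb x) ((N : OnePoint ℕ), Lo t) ≤ 3 / 4 := ht
    have := (abs_lt.1 h1).1
    linarith
  -- Step 4
  have hcover : ν ⁻¹' {N} ∩ Ioo u v ⊆ ⋃ x ∈ P', (T x ∪ T' x) := by
    rintro y ⟨hyN, hyu, hyv⟩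
    have hyN' : ν y = N := hyN
    have h4 := P4 (sb y) y
    rw [hyN'] at h4
    -- finite support at `sb y`
    obtain ⟨K, hK⟩ : ∃ K : Finset DA, ∀ g : Cp DA, (∀ k ∈ K, g.1 k = (sb y).1 k) →
        |ψ g ((N : OnePoint ℕ), Lo y) - ψ (sb y) ((N : OnePoint ℕ), Lo y)| < 1 / 8 := by
      have hopen : IsOpen {f : Cp DA | |ψ f ((N : OnePoint ℕ), Lo y) -
          ψ (sb y) ((N : OnePoint ℕ), Lo y)| < 1 / 8} :=
        isOpen_lt ((P3 _).sub continuous_const).abs continuous_const
      rw [isOpen_induced_iff] at hopen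
      obtain ⟨V, hV, hVU⟩ := hopen
      have hmem : (sb y).1 ∈ V := by
        have : sb y ∈ (Subtype.val ⁻¹' V : Set (Cp DA)) := by
          rw [hVU, mem_ofPred_eq]
          simp
        exact this
      obtain ⟨K, hK⟩ := basic_nhd' hV hmem
      refine ⟨K, fun g hg => ?_⟩
      have h2 : g ∈ (Subtype.val ⁻¹' V : Set (Cp DA)) := hK _ hg
      rw [hVU] at h2
      exact h2
    rcases le_total (1 / 2) (ψ (sb y) ((N : OnePoint ℕ), Lo y)) with hc | hc
    · -- type 1
      have hev : ∀ᶠ x in 𝓝[>] y, ∀ k ∈ K, k.1 y = true → k ≠ Hi y → k.1 x = true := by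
        rw [Finset.eventually_all]
        intro k _
        by_cases h1 : k.1 y = true
        · by_cases h2 : k = Hi y
          · exact Eventually.of_forall fun x _ h3 => absurd h2 h3
          · obtain ⟨t, hyt, hkt⟩ : ∃ t, y < t ∧ k.1 t = true := by
              by_contra hcon
              push Not at hcon
              apply h2
              apply Subtype.ext
              funext t
              show k.1 t = decide (t ≤ y)
              by_cases hty : t ≤ y
              · have := k.2 hty
                rw [h1] at this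
                simp [hty, top_le_iff.1 this]
              · have := hcon t (not_le.1 hty)
                simpa [hty] using this
            filter_upwards [Ioo_mem_nhdsGT hyt] with x hx _ _
            have := k.2 hx.2.le
            rw [hkt] at this
            exact top_le_iff.1 this
        · exact Eventually.of_forall fun x h3 => absurd h3 h1
      obtain ⟨l, hl, hlsub⟩ := mem_nhdsGT_iff_exists_Ioo_subset.1 hev
      have hl' : y < l := hl
      have hmin : y < min l v := lt_min hl' hyv
      obtain ⟨w, hw1, hw2⟩ := exists_between hmin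
      have hwcl : w ∈ closure P' := hI' ⟨hyu.trans hw1, hw2.trans_le (min_le_right _ _)⟩
      obtain ⟨x, hxI, hxP'⟩ := mem_closure_iff.1 hwcl (Ioo y (min l v)) isOpen_Ioo ⟨hw1, hw2⟩
      have hxl : x ∈ Ioo y l := ⟨hxI.1, hxI.2.trans_le (min_le_left _ _)⟩
      have hxK := hlsub hxl
      refine mem_iUnion₂.2 ⟨x, hxP', Or.inl ⟨hyN', hxI.1, fun b hyb hbx => ?_⟩⟩
      have hag : ∀ k ∈ K, (gf x y b).1 k = (sb y).1 k := by
        intro k hk
        show sf x k + (sf y k - sf b k) = sf y k
        have hxb : sf x k = sf b k := by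
          cases hky : k.1 y
          · have hb : k.1 b = false := by
              have := k.2 hyb.le
              rw [hky] at this
              exact Bool.eq_false_of_le_false this
            have hx : k.1 x = false := by
              have := k.2 hxI.1.le
              rw [hky] at this
              exact Bool.eq_false_of_le_false this
            simp [sf, hb, hx]
          · by_cases hkH : k = Hi y
            · subst hkH
              simp [sf, Hi, not_le.2 hyb, not_le.2 hxI.1]
            · have hx : k.1 x = true := hxK k hk hky hkH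
              have hb : k.1 b = true := by
                have := k.2 hbx.le
                rw [hx] at this
                exact top_le_iff.1 this
              simp [sf, hb, hx]
        rw [hxb]; ring
      have := (abs_lt.1 (hK _ hag)).1
      linarith
    · -- type 2
      have hev : ∀ᶠ x in 𝓝[<] y, ∀ k ∈ K, k.1 y = false → k ≠ Lo y → k.1 x = false := by
        rw [Finset.eventually_all]
        intro k _
        by_cases h1 : k.1 y = false
        · by_cases h2 : k = Lo y
          · exact Eventually.of_forall fun x _ h3 => absurd h2 h3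
          · obtain ⟨t, hyt, hkt⟩ : ∃ t, t < y ∧ k.1 t = false := by
              by_contra hcon
              push Not at hcon
              apply h2
              apply Subtype.ext
              funext t
              show k.1 t = decide (t < y)
              by_cases hty : t < y
              · have := hcon t hty
                simpa [hty] using this
              · have := k.2 (not_lt.1 hty)
                rw [h1] at this
                simp [hty, Bool.eq_false_of_le_false this]
            filter_upwards [Ioo_mem_nhdsLT hyt] with x hx _ _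
            have := k.2 hx.1.le
            rw [hkt] at this
            exact Bool.eq_false_of_le_false this
        · exact Eventually.of_forall fun x h3 => absurd h3 h1
      obtain ⟨l, hl, hlsub⟩ := mem_nhdsLT_iff_exists_Ioo_subset.1 hev
      have hl' : l < y := hl
      have hmax : max l u < y := max_lt hl' hyu
      obtain ⟨w, hw1, hw2⟩ := exists_between hmax
      have hwcl : w ∈ closure P' := hI' ⟨(le_max_right _ _).trans_lt hw1, hw2.trans hyv⟩
      obtain ⟨x, hxI, hxP'⟩ := mem_closure_iff.1 hwcl (Ioo (max l u) y) isOpen_Ioo ⟨hw1, hw2⟩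
      have hxl : x ∈ Ioo l y := ⟨(le_max_left _ _).trans_lt hxI.1, hxI.2⟩
      have hxK := hlsub hxl
      refine mem_iUnion₂.2 ⟨x, hxP', Or.inr ⟨hyN', hxI.2, fun a hxa hay => ?_⟩⟩
      have hag : ∀ k ∈ K, (gf x y a).1 k = (sb y).1 k := by
        intro k hk
        show sf x k + (sf y k - sf a k) = sf y k
        have hxb : sf x k = sf a k := by
          cases hky : k.1 y
          · by_cases hkH : k = Lo y
            · subst hkH
              simp [sf, Lo, hay, hxI.2]
            · have hx : k.1 x = false := hxK k hk hky hkH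
              have ha : k.1 a = false := by
                have := k.2 hxa.le
                rw [hx] at this
                exact Bool.eq_false_of_le_false this
              simp [sf, ha, hx]
          · have ha : k.1 a = true := by
              have := k.2 hay.le
              rw [hky] at this
              exact top_le_iff.1 this
            have hx : k.1 x = true := by
              have := k.2 hxI.2.le
              rw [hky] at this
              exact top_le_iff.1 this
            simp [sf, ha, hx]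
        rw [hxb]; ring
      have h5 := (abs_lt.1 (hK _ hag)).2
      have h6 := P4 (gf x y a) y
      rw [hyN'] at h6
      rw [← h6]
      linarith
  refine hν N u v huv (IsMeagre.mono hcover ?_)
  exact isMeagre_biUnion hP'c fun x hx =>
    ((hTn x (hP'P hx)).isMeagre).union ((hTn' x (hP'P hx)).isMeagre)

end Pool.Agent.H151.Ext
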