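import Mathlib
import Pool.Agent.H151.ExtDefs

set_option autoImplicit false

open Set Topology Filter

namespace Pool.Agent.H151.Ext

universe u

open Classical in
/-- extension by zero of a function on `A` -/
noncomputable def ez {Z : Type u} (A : Set Z) (f : A → ℝ) (z : Z) : ℝ :=
  if h : z ∈ A then f ⟨z, h⟩ else 0

theorem ez_of_mem {Z : Type u} {A : Set Z} (f : A → ℝ) {z : Z} (h : z ∈ A) :
    ez A f z = f ⟨z, h⟩ := by
  unfold ez; rw [dif_pos h]

theorem continuous_ez_comp {Z W : Type u} [TopologicalSpace Z] [TopologicalSpace W] {A : Set Z}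
    (f : Cp A) (g : W → Z) (hg : Continuous g) (hgA : ∀ w, g w ∈ A) :
    Continuous fun w => ez A f.1 (g w) := by
  have h : (fun w => ez A f.1 (g w)) = f.1 ∘ fun w => (⟨g w, hgA w⟩ : A) := by
    funext w
    exact ez_of_mem _ _
  rw [h]
  exact f.2.comp (hg.subtype_mk hgA)

theorem continuous_ez_left {Z : Type u} [TopologicalSpace Z] {A : Set Z} (z : Z) :
    Continuous fun f : Cp A => ez A f.1 z := by
  by_cases h : z ∈ A
  · have : (fun f : Cp A => ez A f.1 z) = fun f => f.1 ⟨z, h⟩ := by
      funext f; exact ez_of_mem _ _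
    rw [this]
    exact (continuous_apply _).comp continuous_subtype_val
  · have : (fun f : Cp A => ez A f.1 z) = fun _ => 0 := by
      funext f; unfold ez; rw [dif_neg h]
    rw [this]
    exact continuous_const

theorem ez_linear {Z : Type u} {A : Set Z} (a b : ℝ) (f g h : A → ℝ)
    (hh : ∀ s, h s = a * f s + b * g s) (z : Z) :
    ez A h z = a * ez A f z + b * ez A g z := by
  unfold ez
  split_ifs
  · exact hh _
  · ring

/-- If every nonempty closed subset of a compact space `K` is a retract of `K`, then
`(ω+1) × K` is extendial. -/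
theorem extendial_prod {K : Type} [TopologicalSpace K] [CompactSpace K]
    (hK : ∀ A : Set K, IsClosed A → A.Nonempty →
      ∃ r : K → K, Continuous r ∧ (∀ z, r z ∈ A) ∧ ∀ z ∈ A, r z = z) :
    Extendial (OnePoint ℕ × K) := by
  classical
  intro A hA
  -- the levels
  let P : OnePoint ℕ → Prop := fun n => ∃ z, (n, z) ∈ A
  have hlev : ∀ n, ∃ r : K → K, Continuous r ∧ (P n → ∀ z, (n, r z) ∈ A) ∧
      ∀ z, (n, z) ∈ A → r z = z := by
    intro n
    by_cases hn : P n
    · have hcl : IsClosed {z | (n, z) ∈ A} := hA.preimage (by fun_prop : Continuous fun z : K => (n, z))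
      obtain ⟨r, hr, h1, h2⟩ := hK {z | (n, z) ∈ A} hcl hn
      exact ⟨r, hr, fun _ z => h1 z, fun z hz => h2 z hz⟩
    · exact ⟨id, continuous_id, fun h => absurd h hn, fun z hz => rfl⟩
  choose r hr hrA hrid using hlev
  -- the base extension
  let e : (A → ℝ) → K → ℝ := fun f z =>
    if P OnePoint.infty then ez A f (OnePoint.infty, r OnePoint.infty z) else 0
  let F : (A → ℝ) → OnePoint ℕ × K → ℝ := fun f p =>
    e f p.2 + (if P p.1 then ez A f (p.1, r p.1 p.2) - e f (r p.1 p.2) else 0)
  have he : ∀ f : Cp A, Continuous (e f.1) := by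
    intro f
    by_cases h : P OnePoint.infty
    · simp only [e, if_pos h]
      exact continuous_ez_comp f (fun z => (OnePoint.infty, r OnePoint.infty z))
        (by have := hr OnePoint.infty; fun_prop) (hrA _ h)
    · simp only [e, if_neg h]
      exact continuous_const
  have hF1 : ∀ (f : Cp A) (n : OnePoint ℕ), Continuous fun z => F f.1 (n, z) := by
    intro f n
    by_cases h : P n
    · simp only [F, if_pos h]
      exact (he f).add ((continuous_ez_comp f (fun z => (n, r n z))
        (by have := hr n; fun_prop) (hrA _ h)).sub ((he f).comp (hr n)))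
    · simp only [F, if_neg h, add_zero]
      exact he f
  have hinf : ∀ (f : Cp A) (z : K), F f.1 (OnePoint.infty, z) = e f.1 z := by
    intro f z
    by_cases h : P OnePoint.infty
    · have h2 : e f.1 (r OnePoint.infty z) = ez A f.1 (OnePoint.infty, r OnePoint.infty z) := by
        simp only [e, if_pos h]
        rw [hrid _ _ (hrA _ h z)]
      simp only [F, if_pos h]
      rw [h2]; ring
    · simp only [F, if_neg h, add_zero]
  have hF2 : ∀ (f : Cp A), ∀ ε > 0, ∃ N : ℕ, ∀ n : ℕ, N ≤ n → ∀ z,
      |F f.1 (n, z) - F f.1 (OnePoint.infty, z)| < ε := by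
    intro f ε hε
    have hucont : Continuous fun a : A => f.1 a - e f.1 a.1.2 :=
      f.2.sub ((he f).comp (continuous_snd.comp continuous_subtype_val))
    have hcl : IsClosed {a : A | ε ≤ |f.1 a - e f.1 a.1.2|} :=
      isClosed_le continuous_const hucont.abs
    have hC : IsClosed ((↑) '' {a : A | ε ≤ |f.1 a - e f.1 a.1.2|} : Set (OnePoint ℕ × K)) :=
      hA.isClosedEmbedding_subtypeVal.isClosedMap _ hcl
    obtain ⟨N, hN⟩ := eventually_not_mem _ hC (by
      rintro z ⟨a, ha, haz⟩
      have haA : (OnePoint.infty, z) ∈ A := haz ▸ a.2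
      have hP : P OnePoint.infty := ⟨z, haA⟩
      have h1 : e f.1 a.1.2 = f.1 a := by
        simp only [e, if_pos hP]
        have h2 : r OnePoint.infty a.1.2 = a.1.2 := hrid _ _ (by rw [haz]; exact haA)
        rw [h2]
        have h3 : (OnePoint.infty, a.1.2) = a.1 := by rw [haz]
        rw [ez_of_mem f.1 (show (OnePoint.infty, a.1.2) ∈ A by rw [h3]; exact a.2)]
        exact congrArg f.1 (Subtype.ext h3)
      have h4 : ε ≤ |f.1 a - e f.1 a.1.2| := ha
      rw [h1, sub_self, abs_zero] at h4
      linarith)
    refine ⟨N, fun n hn z => ?_⟩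
    rw [hinf]
    by_cases h : P n
    · have h1 : F f.1 (n, z) - e f.1 z = ez A f.1 (n, r n z) - e f.1 (r n z) := by
        simp only [F, if_pos h]; ring
      rw [h1, ez_of_mem f.1 (hrA _ h z)]
      by_contra hcon
      exact hN n hn (r n z) ⟨⟨_, hrA _ h z⟩, not_lt.1 hcon, rfl⟩
    · have h1 : F f.1 (n, z) - e f.1 z = 0 := by
        simp only [F, if_neg h]; ring
      rw [h1, abs_zero]
      exact hε
  refine ⟨fun f => ⟨F f.1, continuous_of_unif _ (hF1 f) (hF2 f)⟩, ?_, ?_, ?_⟩
  · rw [continuous_induced_rng]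
    refine continuous_pi fun p => ?_
    show Continuous fun f : Cp A => F f.1 p
    have hec : ∀ z, Continuous fun f : Cp A => e f.1 z := by
      intro z
      by_cases h : P OnePoint.infty
      · simp only [e, if_pos h]
        exact continuous_ez_left _
      · simp only [e, if_neg h]
        exact continuous_const
    by_cases h : P p.1
    · simp only [F, if_pos h]
      exact (hec _).add ((continuous_ez_left _).sub (hec _))
    · simp only [F, if_neg h, add_zero]
      exact hec _
  · intro a b f g h hh p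
    have hel : ∀ z, e h.1 z = a * e f.1 z + b * e g.1 z := by
      intro z
      simp only [e]
      split_ifs
      · exact ez_linear a b f.1 g.1 h.1 hh _
      · ring
    show F h.1 p = a * F f.1 p + b * F g.1 p
    simp only [F]
    rw [hel, hel, ez_linear a b f.1 g.1 h.1 hh]
    split_ifs <;> ring
  · rintro f ⟨⟨n, z⟩, hs⟩
    show F f.1 (n, z) = f.1 ⟨(n, z), hs⟩
    have hP : P n := ⟨z, hs⟩
    simp only [F, if_pos hP]
    rw [hrid n z hs, ez_of_mem f.1 hs]
    ring

end Pool.Agent.H151.Ext
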