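import Mathlib

set_option autoImplicit false

open Set Topology Filter

namespace Pool.Agent.H151

/-- There is a partition of `ℝ` into countably many sets each of which is non-meagre in every
interval. -/
theorem exists_nu : ∃ ν : ℝ → ℕ, ∀ (n : ℕ) (a b : ℝ), a < b → ¬ IsMeagre (ν ⁻¹' {n} ∩ Ioo a b) := by
  classical
  have hinj : LinearMap.ker (Algebra.linearMap ℚ ℝ) = ⊥ := by
    rw [LinearMap.ker_eq_bot]
    exact (algebraMap ℚ ℝ).injective
  obtain ⟨h, hh⟩ := LinearMap.exists_leftInverse_of_injective (Algebra.linearMap ℚ ℝ) hinj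
  have hq : ∀ r : ℚ, h (r : ℝ) = r := by
    intro r
    have := LinearMap.congr_fun hh r
    simpa using this
  -- a nonzero (positive) element of the kernel
  obtain ⟨e, he0, hepos⟩ : ∃ e : ℝ, h e = 0 ∧ 0 < e := by
    set e0 : ℝ := √2 - (h (√2) : ℝ) with he0
    have h0 : h e0 = 0 := by
      rw [he0, map_sub, hq, sub_self]
    have hne : e0 ≠ 0 := by
      intro hz
      have : √2 = ((h (√2) : ℚ) : ℝ) := by
        rw [he0] at hz; linarith
      exact irrational_sqrt_two ⟨h (√2), this.symm⟩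
    rcases lt_or_gt_of_ne hne with hlt | hgt
    · exact ⟨-e0, by rw [map_neg, h0, neg_zero], by linarith⟩
    · exact ⟨e0, h0, hgt⟩
  let E : ℚ ≃ ℕ := Denumerable.eqv ℚ
  refine ⟨fun x => E (h x), fun n a b hab hM => ?_⟩
  set M : Set ℝ := (fun x => E (h x)) ⁻¹' {n} ∩ Ioo a b with hMdef
  have hT : ∀ s : ℝ, IsMeagre ((fun x : ℝ => x - s) ⁻¹' M) := by
    intro s
    refine IsMeagre.preimage_of_isOpenMap (by fun_prop) ?_ hM
    exact (Homeomorph.subRight s).isOpenMap
  have hU : IsMeagre (⋃ p : ℚ × ℚ, (fun x : ℝ => x - ((p.1 : ℝ) + (p.2 : ℝ) * e)) ⁻¹' M) :=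
    isMeagre_iUnion fun p => hT _
  have hcover : (univ : Set ℝ) ⊆ ⋃ p : ℚ × ℚ, (fun x : ℝ => x - ((p.1 : ℝ) + (p.2 : ℝ) * e)) ⁻¹' M := by
    intro x _
    set r : ℚ := h x - E.symm n with hr
    have hlt : (x - r - b) / e < (x - r - a) / e := by
      apply div_lt_div_of_pos_right _ hepos
      linarith
    obtain ⟨t, ht1, ht2⟩ := exists_rat_btwn hlt
    rw [div_lt_iff₀ hepos] at ht1
    rw [lt_div_iff₀ hepos] at ht2
    refine mem_iUnion.2 ⟨(r, t), ?_⟩
    refine ⟨?_, ?_, ?_⟩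
    · show E (h (x - ((r : ℝ) + (t : ℝ) * e))) = n
      have h1 : h ((t : ℝ) * e) = 0 := by
        have : (t : ℝ) * e = t • e := by rw [Rat.smul_def]
        rw [this, map_smul, he0, smul_zero]
      rw [map_sub, map_add, hq, h1, hr]
      simp
    · show a < x - ((r : ℝ) + (t : ℝ) * e)
      linarith
    · show x - ((r : ℝ) + (t : ℝ) * e) < b
      linarith
  exact not_isMeagre_of_isOpen isOpen_univ univ_nonempty (hU.mono hcover)

end Pool.Agent.H151
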