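import Mathlib
import Pool.Agent.H151.Nu
import Pool.Agent.H151.ExtProd
import Pool.Agent.H151.ExtNeg

set_option autoImplicit false

open Set Topology Filter

namespace Pool.Agent.H151.Ext

theorem isOpen_coe_singleton (k : ℕ) : IsOpen ({(k : OnePoint ℕ)} : Set (OnePoint ℕ)) := by
  have h := OnePoint.isOpenEmbedding_coe.isOpenMap ({k} : Set ℕ) (isOpen_discrete _)
  rwa [image_singleton] at h

open Classical in
/-- boolean equality with a finite level -/
noncomputable def eqb (m : OnePoint ℕ) (k : ℕ) : Bool := decide (m = (k : OnePoint ℕ))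

theorem eqb_infty (k : ℕ) : eqb OnePoint.infty k = false := by
  unfold eqb; simp

theorem eqb_self (k : ℕ) : eqb (k : OnePoint ℕ) k = true := by
  unfold eqb; simp

theorem continuous_eqb (k : ℕ) : Continuous fun m : OnePoint ℕ => eqb m k := by
  rw [continuous_discrete_rng]
  intro b
  cases b
  · have : (fun m : OnePoint ℕ => eqb m k) ⁻¹' {false} =
        ({(k : OnePoint ℕ)} : Set (OnePoint ℕ))ᶜ := by
      ext m; simp [eqb]
    rw [this]
    exact isClosed_singleton.isOpen_compl
  · have : (fun m : OnePoint ℕ => eqb m k) ⁻¹' {true} =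
        ({(k : OnePoint ℕ)} : Set (OnePoint ℕ)) := by
      ext m; simp [eqb]
    rw [this]
    exact isOpen_coe_singleton k

/-- the quotient map: on level `n` the points `x` of `ν ⁻¹' {n}` are unsplit -/
noncomputable def qm (ν : ℝ → ℕ) (p : OnePoint ℕ × DA) : OnePoint ℕ × (ℝ → Bool) :=
  (p.1, fun x => p.2.1 x && !(eqb p.1 (ν x)))

theorem continuous_qm (ν : ℝ → ℕ) : Continuous (qm ν) := by
  refine continuous_fst.prodMk (continuous_pi fun x => ?_)
  have h : Continuous fun p : OnePoint ℕ × DA => (p.2.1 x, eqb p.1 (ν x)) :=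
    ((DA.cont_eval x).comp continuous_snd).prodMk ((continuous_eqb _).comp continuous_fst)
  have h2 : Continuous fun b : Bool × Bool => b.1 && !b.2 := continuous_of_discreteTopology
  exact h2.comp h

theorem not_tExtendial (ν : ℝ → ℕ)
    (hν : ∀ (n : ℕ) (a b : ℝ), a < b → ¬ IsMeagre (ν ⁻¹' {n} ∩ Ioo a b)) :
    ¬ TExtendial (range (qm ν)) := by
  intro hY
  let B : Set (range (qm ν)) := {y | y.1.1 = OnePoint.infty}
  have hB : IsClosed B :=
    isClosed_singleton.preimage (continuous_fst.comp continuous_subtype_val)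
  obtain ⟨φ, hφ, hext⟩ := hY B hB
  have hanti : ∀ b : B, Antitone b.1.1.2 := by
    rintro ⟨⟨_, ⟨p, rfl⟩⟩, hp⟩
    have hp' : p.1 = OnePoint.infty := hp
    intro x y hxy
    show (p.2.1 y && !(eqb p.1 (ν y))) ≤ (p.2.1 x && !(eqb p.1 (ν x)))
    rw [hp', eqb_infty, eqb_infty]
    simpa using p.2.2 hxy
  let F : Cp DA → Cp B := fun f => ⟨fun b => f.1 ⟨b.1.1.2, hanti b⟩, by
    refine f.2.comp (Continuous.subtype_mk ?_ _)
    exact continuous_snd.comp (continuous_subtype_val.comp continuous_subtype_val)⟩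
  have hF : Continuous F := by
    rw [continuous_induced_rng]
    refine continuous_pi fun b => ?_
    show Continuous fun f : Cp DA => f.1 ⟨b.1.1.2, hanti b⟩
    exact (continuous_apply _).comp continuous_subtype_val
  let ψ : Cp DA → OnePoint ℕ × DA → ℝ := fun f p => (φ (F f)).1 ⟨qm ν p, mem_range_self p⟩
  refine no_psi ν hν ψ ?_ ?_ ?_ ?_
  · intro f
    exact (φ (F f)).2.comp (Continuous.subtype_mk (continuous_qm ν) _)
  · intro f L
    have hmem : (⟨qm ν (OnePoint.infty, L), mem_range_self _⟩ : range (qm ν)) ∈ B := rfl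
    have h1 := hext (F f) ⟨_, hmem⟩
    show (φ (F f)).1 ⟨qm ν (OnePoint.infty, L), mem_range_self _⟩ = f.1 L
    rw [h1]
    have h2 : (qm ν (OnePoint.infty, L)).2 = L.1 := by
      funext x
      show (L.1 x && !(eqb OnePoint.infty (ν x))) = L.1 x
      rw [eqb_infty]
      simp
    show f.1 ⟨(qm ν (OnePoint.infty, L)).2, _⟩ = f.1 L
    exact congrArg f.1 (Subtype.ext h2)
  · intro p
    exact (continuous_apply _).comp (continuous_subtype_val.comp (hφ.comp hF))
  · intro f y
    have h1 : qm ν ((ν y : OnePoint ℕ), Lo y) = qm ν ((ν y : OnePoint ℕ), Hi y) := by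
      refine Prod.ext rfl (funext fun x => ?_)
      show (decide (x < y) && !(eqb (ν y : OnePoint ℕ) (ν x))) =
        (decide (x ≤ y) && !(eqb (ν y : OnePoint ℕ) (ν x)))
      by_cases hxy : x = y
      · subst hxy; simp [eqb_self]
      · have : (x < y) ↔ (x ≤ y) := ⟨le_of_lt, fun h => lt_of_le_of_ne h hxy⟩
        simp only [this]
    show (φ (F f)).1 ⟨qm ν _, _⟩ = (φ (F f)).1 ⟨qm ν _, _⟩
    exact congrArg (φ (F f)).1 (Subtype.ext h1)

/-- The main theorem. -/
theorem main_ext : ∃ (X Y : Type) (_ : TopologicalSpace X) (_ : TopologicalSpace Y) (f : X → Y),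
    CompactSpace X ∧ T2Space X ∧ T2Space Y ∧ Continuous f ∧ Function.Surjective f ∧
    Extendial X ∧ ¬ TExtendial Y := by
  obtain ⟨ν, hν⟩ := exists_nu
  refine ⟨OnePoint ℕ × DA, range (qm ν), inferInstance, inferInstance, rangeFactorization (qm ν),
    inferInstance, inferInstance, inferInstance, (continuous_qm ν).subtype_mk _,
    rangeFactorization_surjective, ?_, not_tExtendial ν hν⟩
  exact extendial_prod fun A hA hne => DA.retract A hA hne

end Pool.Agent.H151.Ext
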