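import Mathlib
import Pool.Agent.Helper937.Szd2
import Pool.Agent.Helper47.LP.Dep

/-!
Perfect normality of function spaces and separability of closed subspaces of finite powers.
-/

set_option autoImplicit false

open Set Topology Filter

namespace Pool.Agent.H151.PN

open Pool.Agent.Helper937.Szd (CS Cp perfect_of_zero)

theorem zero_set {Z : Type} [TopologicalSpace Z] {E : Type*} [TopologicalSpace E]
    (e : E → Z → ℝ) (he : IsInducing e) (hec : ∀ φ, Continuous (e φ))
    (hCS : ∀ n, CS (Fin n → Z)) (P : Set E) (hP : IsClosed P) :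
    ∃ u : E → ℝ, Continuous u ∧ P = u ⁻¹' {0} := by
  classical
  let J := Σ n : ℕ, (Fin n → ℚ) × ℕ
  let S : ∀ j : J, Set (Fin j.1 → Z) := fun j =>
    {v | ∀ ψ ∈ P, ∃ i, 1 / (j.2.2 + 1 : ℝ) ≤ |e ψ (v i) - j.2.1 i|}
  have hS : ∀ j, IsClosed (S j) := by
    intro j
    have : S j = ⋂ ψ ∈ P, ⋃ i, {v : Fin j.1 → Z | 1 / (j.2.2 + 1 : ℝ) ≤ |e ψ (v i) - j.2.1 i|} := by
      ext v; simp [S]
    rw [this]
    refine isClosed_biInter fun ψ _ => isClosed_iUnion_of_finite fun i => ?_
    exact isClosed_le continuous_const (((hec ψ).comp (continuous_apply i)).sub continuous_const).abs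
  have hD : ∀ j, ∃ D : Set (S j), D.Countable ∧ Dense D := by
    intro j
    have := hCS j.1 (S j) (hS j)
    exact TopologicalSpace.exists_countable_dense (S j)
  choose D hD1 hD2 using hD
  let T := Σ j : J, D j
  have hDc : ∀ j, Countable (D j) := fun j => (hD1 j).to_subtype
  have hTc : Countable T := inferInstance
  let _ : Encodable T := Encodable.ofCountable T
  let w : T → E → ℝ := fun t φ =>
    ∏ i, max 0 (1 / (t.1.2.2 + 1 : ℝ) - |e φ (t.2.1.1 i) - t.1.2.1 i|)
  have hec2 : ∀ f : Z, Continuous (fun φ => e φ f) := fun f =>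
    (continuous_apply f).comp he.continuous
  have hw : ∀ t, Continuous (w t) := fun t =>
    continuous_finsetProd _ fun i _ => continuous_const.max
      (continuous_const.sub ((hec2 _).sub continuous_const).abs)
  have hw0 : ∀ t φ, 0 ≤ w t φ := fun t φ => Finset.prod_nonneg fun i _ => le_max_left _ _
  have hw1 : ∀ t φ, w t φ ≤ 1 := by
    intro t φ
    refine Finset.prod_le_one (fun i _ => le_max_left _ _) fun i _ => ?_
    refine max_le zero_le_one ?_
    have h1 : 1 / (t.1.2.2 + 1 : ℝ) ≤ 1 := by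
      rw [div_le_one (by positivity)]
      have : (0:ℝ) ≤ t.1.2.2 := Nat.cast_nonneg _
      linarith
    have h2 := abs_nonneg (e φ (t.2.1.1 i) - t.1.2.1 i)
    linarith
  have hwP : ∀ t, ∀ φ ∈ P, w t φ = 0 := by
    intro t φ hφ
    obtain ⟨i, hi⟩ := t.2.1.2 φ hφ
    refine Finset.prod_eq_zero (Finset.mem_univ i) ?_
    exact max_eq_left (by linarith)
  have hpos : ∀ φ, φ ∉ P → ∃ t, 0 < w t φ := by
    intro φ hφ
    have h1 : Pᶜ ∈ 𝓝 φ := hP.isOpen_compl.mem_nhds hφ
    rw [he.nhds_eq_comap, mem_comap] at h1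
    obtain ⟨V, hV, hVP⟩ := h1
    rw [nhds_pi, Filter.mem_pi] at hV
    obtain ⟨I, hI, vv, hvv, hvV⟩ := hV
    -- a common radius
    obtain ⟨δ, hδ, hδI⟩ : ∃ δ > 0, ∀ f ∈ I, Metric.ball (e φ f) δ ⊆ vv f := by
      have h2 : ∀ f ∈ I, ∃ δ > 0, Metric.ball (e φ f) δ ⊆ vv f := fun f _ =>
        Metric.mem_nhds_iff.mp (hvv f)
      choose! r hr1 hr2 using h2
      rcases I.eq_empty_or_nonempty with rfl | hne
      · exact ⟨1, one_pos, fun f hf => absurd hf (notMem_empty f)⟩
      · obtain ⟨f0, hf0, hmin⟩ := hI.exists_minimalFor r I hne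
        refine ⟨r f0, hr1 f0 hf0, fun f hf => ?_⟩
        have : r f0 ≤ r f := by
          rcases le_total (r f0) (r f) with h | h
          · exact h
          · exact hmin hf h
        exact (Metric.ball_subset_ball this).trans (hr2 f hf)
    let F := hI.toFinset
    let v : Fin F.card → Z := fun i => (F.equivFin.symm i).1
    obtain ⟨m, hm⟩ := exists_nat_one_div_lt (half_pos hδ)
    have hm0 : (0:ℝ) < 1 / (m + 1 : ℝ) := by positivity
    have ha : ∀ i, ∃ a : ℚ, |e φ (v i) - a| < 1 / (m + 1 : ℝ) / 2 := by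
      intro i
      obtain ⟨a, ha1, ha2⟩ := exists_rat_btwn (show e φ (v i) - 1 / (m + 1 : ℝ) / 2 < e φ (v i) by linarith)
      exact ⟨a, by rw [abs_lt]; constructor <;> linarith⟩
    choose a ha using ha
    let j : J := ⟨F.card, a, m⟩
    have hvS : v ∈ S j := by
      intro ψ hψ
      by_contra hcon
      push Not at hcon
      refine hVP ?_ hψ
      show e ψ ∈ V
      refine hvV fun f hf => hδI f hf ?_
      have hfF : f ∈ F := hI.mem_toFinset.mpr hf
      have h3 := hcon (F.equivFin ⟨f, hfF⟩)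
      have h4 := ha (F.equivFin ⟨f, hfF⟩)
      have h5 : v (F.equivFin ⟨f, hfF⟩) = f := by simp [v]
      rw [h5] at h3 h4
      rw [Metric.mem_ball, Real.dist_eq]
      have h6 : |e ψ f - e φ f| ≤ |e ψ f - a (F.equivFin ⟨f, hfF⟩)| + |e φ f - a (F.equivFin ⟨f, hfF⟩)| := by
        have : e ψ f - e φ f = (e ψ f - a (F.equivFin ⟨f, hfF⟩)) - (e φ f - a (F.equivFin ⟨f, hfF⟩)) := by ring
        rw [this]; exact abs_sub _ _
      have h7 : |e ψ f - a (F.equivFin ⟨f, hfF⟩)| < 1 / (m + 1 : ℝ) := h3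
      linarith
    have hWo : IsOpen {x : S j | ∀ i, |e φ (x.1 i) - e φ (v i)| < 1 / (m + 1 : ℝ) / 2} := by
      have : {x : S j | ∀ i, |e φ (x.1 i) - e φ (v i)| < 1 / (m + 1 : ℝ) / 2} =
          ⋂ i, {x : S j | |e φ (x.1 i) - e φ (v i)| < 1 / (m + 1 : ℝ) / 2} := by
        ext x; simp
      rw [this]
      refine isOpen_iInter_of_finite fun i => ?_
      exact isOpen_lt ((((hec φ).comp ((continuous_apply i).comp continuous_subtype_val)).sub
        continuous_const).abs) continuous_const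
    obtain ⟨x, hxW, hxD⟩ := (hD2 j).exists_mem_open hWo ⟨⟨v, hvS⟩, fun i => by
      show |e φ (v i) - e φ (v i)| < _
      rw [sub_self, abs_zero]; linarith⟩
    refine ⟨⟨j, ⟨x, hxW⟩⟩, ?_⟩
    refine Finset.prod_pos fun i _ => ?_
    refine lt_max_of_lt_right ?_
    have h8 := hxD i
    have h9 := ha i
    have h10 : |e φ (x.1 i) - a i| ≤ |e φ (x.1 i) - e φ (v i)| + |e φ (v i) - a i| := by
      have : e φ (x.1 i) - a i = (e φ (x.1 i) - e φ (v i)) + (e φ (v i) - a i) := by ring
      rw [this]; exact abs_add_le _ _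
    show 0 < 1 / (m + 1 : ℝ) - |e φ (x.1 i) - a i|
    linarith
  have hsum : Summable (fun t : T => (1 / 2 : ℝ) ^ Encodable.encode t) := summable_geometric_two_encode
  have hbd : ∀ (t : T) (φ : E), ‖(1 / 2 : ℝ) ^ Encodable.encode t * w t φ‖ ≤ (1 / 2 : ℝ) ^ Encodable.encode t := by
    intro t φ
    rw [Real.norm_eq_abs, abs_of_nonneg (mul_nonneg (by positivity) (hw0 t φ))]
    exact mul_le_of_le_one_right (by positivity) (hw1 t φ)
  refine ⟨fun φ => ∑' t, (1 / 2 : ℝ) ^ Encodable.encode t * w t φ,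
    continuous_tsum (fun t => continuous_const.mul (hw t)) hsum hbd, ?_⟩
  ext φ
  constructor
  · intro hφ
    show ∑' t, (1 / 2 : ℝ) ^ Encodable.encode t * w t φ = 0
    simp [hwP _ φ hφ]
  · intro hφ
    by_contra hcon
    obtain ⟨t, ht⟩ := hpos φ hcon
    have hsφ : Summable (fun t : T => (1 / 2 : ℝ) ^ Encodable.encode t * w t φ) :=
      hsum.of_norm_bounded (fun t => hbd t φ)
    have h1 : 0 < ∑' t, (1 / 2 : ℝ) ^ Encodable.encode t * w t φ :=
      hsφ.tsum_pos (fun t => mul_nonneg (by positivity) (hw0 t φ)) t (mul_pos (by positivity) ht)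
    exact h1.ne' hφ


end Pool.Agent.H151.PN
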