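import Mathlib
import Pool.Agent.H151.PN0

set_option autoImplicit false

open Set Topology Filter

namespace Pool.Agent.H151.PN

open Pool.Agent.Helper937.Szd (CS Cp perfect_of_zero)

variable {X : Type} [TopologicalSpace X]

/-- bump functions -/
theorem bump [T35Space X] (p : X) (O : Set X) (hO : IsOpen O) (hp : p ∈ O) :
    ∃ θ : X → ℝ, Continuous θ ∧ θ p = 1 ∧ (∀ x, 0 ≤ θ x ∧ θ x ≤ 1) ∧ ∀ x ∉ O, θ x = 0 := by
  obtain ⟨f, hf, hf0, hf1⟩ := CompletelyRegularSpace.completely_regular p Oᶜ hO.isClosed_compl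
    (by simpa using hp)
  refine ⟨fun x => 1 - (f x : ℝ), continuous_const.sub (continuous_subtype_val.comp hf), ?_, ?_, ?_⟩
  · simp [hf0]
  · intro x
    have h1 := (f x).2.1
    have h2 := (f x).2.2
    constructor <;> linarith
  · intro x hx
    have : f x = 1 := hf1 hx
    simp [this]

/-- finitely many points have disjoint neighbourhoods inside prescribed neighbourhoods -/
theorem disj_nbhd [T2Space X] (F : Finset X) (W : X → Set X) (hW : ∀ p ∈ F, IsOpen (W p) ∧ p ∈ W p) :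
    ∃ O : X → Set X, (∀ p ∈ F, IsOpen (O p) ∧ p ∈ O p ∧ O p ⊆ W p) ∧
      ∀ p ∈ F, ∀ q ∈ F, p ≠ q → Disjoint (O p) (O q) := by
  classical
  obtain ⟨U, hU, hd⟩ := F.finite_toSet.t2_separation
  refine ⟨fun p => U p ∩ W p, fun p hp => ⟨(hU p).2.inter (hW p hp).1, ⟨(hU p).1, (hW p hp).2⟩,
    inter_subset_right⟩, fun p hp q hq hpq => ?_⟩
  exact (hd hp hq hpq).mono inter_subset_left inter_subset_left

/-- a continuous function with given values on a finite set, vanishing off small sets -/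
theorem interp [T35Space X] (F : Finset X) (W : X → Set X) (hW : ∀ p ∈ F, IsOpen (W p) ∧ p ∈ W p)
    (v : X → ℝ) : ∃ ψ : X → ℝ, Continuous ψ ∧ (∀ p ∈ F, ψ p = v p) ∧
      ∀ x, ψ x ≠ 0 → ∃ p ∈ F, x ∈ W p ∧ |ψ x| ≤ |v p| ∧ 0 < ψ x * v p := by
  classical
  obtain ⟨O, hO, hd⟩ := disj_nbhd F W hW
  have h1 : ∀ p : X, ∃ θ : X → ℝ, Continuous θ ∧ (p ∈ F → θ p = 1) ∧ (∀ x, 0 ≤ θ x ∧ θ x ≤ 1) ∧
      (p ∈ F → ∀ x ∉ O p, θ x = 0) := by
    intro p
    by_cases hp : p ∈ F
    · obtain ⟨θ, h1, h2, h3, h4⟩ := bump p (O p) (hO p hp).1 (hO p hp).2.1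
      exact ⟨θ, h1, fun _ => h2, h3, fun _ => h4⟩
    · exact ⟨fun _ => 0, continuous_const, fun h => absurd h hp, fun x => ⟨le_refl _, zero_le_one⟩,
        fun h => absurd h hp⟩
  choose θ hθ1 hθ2 hθ3 hθ4 using h1
  have hval : ∀ p ∈ F, ∀ x ∈ O p, ∑ q ∈ F, v q * θ q x = v p * θ p x := by
    intro p hp x hx
    refine Finset.sum_eq_single p (fun q hq hqp => ?_) (fun h => absurd hp h)
    rw [hθ4 q hq x (fun hx' => (Set.disjoint_left.1 (hd q hq p hp hqp)) hx' hx), mul_zero]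
  refine ⟨fun x => ∑ q ∈ F, v q * θ q x, ?_, ?_, ?_⟩
  · exact continuous_finsetSum _ fun q _ => continuous_const.mul (hθ1 q)
  · intro p hp
    show ∑ q ∈ F, v q * θ q p = v p
    rw [hval p hp p (hO p hp).2.1, hθ2 p hp, mul_one]
  · intro x hx
    have hx' : ∑ q ∈ F, v q * θ q x ≠ 0 := hx
    obtain ⟨p, hp, hpx⟩ := Finset.exists_ne_zero_of_sum_ne_zero hx'
    have hxO : x ∈ O p := by
      by_contra h
      exact hpx (by rw [hθ4 p hp x h, mul_zero])
    refine ⟨p, hp, (hO p hp).2.2 hxO, ?_, ?_⟩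
    · show |∑ q ∈ F, v q * θ q x| ≤ |v p|
      rw [hval p hp x hxO, abs_mul, abs_of_nonneg (hθ3 p x).1]
      exact mul_le_of_le_one_right (abs_nonneg _) (hθ3 p x).2
    · show 0 < (∑ q ∈ F, v q * θ q x) * v p
      rw [hval p hp x hxO]
      have h5 : v p ≠ 0 := fun h => hpx (by rw [h, zero_mul])
      have h6 : θ p x ≠ 0 := fun h => hpx (by rw [h, mul_zero])
      have h7 : 0 < θ p x := lt_of_le_of_ne (hθ3 p x).1 (Ne.symm h6)
      have h8 : 0 < v p * v p := mul_self_pos.2 h5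
      nlinarith

theorem cp_inducing : IsInducing (fun φ : Cp X => (φ.1 : X → ℝ)) := IsInducing.subtypeVal

theorem cp_dense [T35Space X] : DenseRange (fun φ : Cp X => (φ.1 : X → ℝ)) := by
  classical
  intro y
  rw [mem_closure_iff]
  intro U hU hyU
  rw [isOpen_pi_iff] at hU
  obtain ⟨F, u, hu, huU⟩ := hU y hyU
  obtain ⟨ψ, h1, h2, -⟩ := interp F (fun _ => univ) (fun p _ => ⟨isOpen_univ, mem_univ p⟩) y
  refine ⟨ψ, huU ?_, ⟨⟨ψ, h1⟩, rfl⟩⟩
  intro b hb
  show ψ b ∈ u b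
  rw [h2 b hb]
  exact (hu b hb).2

/-- perfectly normal function space: normal and all closed sets are `G_δ` -/
def PN (E : Type) [TopologicalSpace E] : Prop :=
  NormalSpace E ∧ ∀ s : Set E, IsClosed s → IsGδ s

/-- neighbourhoods of the points of a finite set such that boxes over tuples outside the closed set
`G` miss `G` -/
theorem box_nbhd {n : ℕ} (G : Set (Fin n → X)) (hG : IsClosed G) (F : Finset X) :
    ∃ W : X → Set X, (∀ p ∈ F, IsOpen (W p) ∧ p ∈ W p) ∧
      ∀ c : Fin n → X, (∀ i, c i ∈ F) → c ∉ G → ∀ g ∈ G, ∃ i, g i ∉ W (c i) := by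
  classical
  have h1 : ∀ c : Fin n → X, ∃ u : Fin n → Set X, (∀ i, IsOpen (u i) ∧ c i ∈ u i) ∧
      (c ∉ G → ∀ g ∈ G, ∃ i, g i ∉ u i) := by
    intro c
    by_cases hc : c ∈ G
    · exact ⟨fun _ => univ, fun i => ⟨isOpen_univ, mem_univ _⟩, fun h => absurd hc h⟩
    · obtain ⟨u, hu, hsub⟩ := isOpen_pi_iff'.1 hG.isOpen_compl c hc
      refine ⟨u, hu, fun _ g hg => ?_⟩
      by_contra hcon
      push Not at hcon
      exact hsub (fun i _ => hcon i) hg
  choose u hu hu2 using h1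
  -- all tuples from `F`
  let T : Finset (Fin n → X) := Fintype.piFinset fun _ => F
  refine ⟨fun p => ⋂ c ∈ T, ⋂ i, {x | c i = p → x ∈ u c i}, fun p _ => ⟨?_, ?_⟩, ?_⟩
  · refine isOpen_biInter_finset fun c _ => isOpen_iInter_of_finite fun i => ?_
    by_cases h : c i = p
    · have : {x | c i = p → x ∈ u c i} = u c i := by ext x; simp [h]
      rw [this]; exact (hu c i).1
    · have : {x : X | c i = p → x ∈ u c i} = univ := by ext x; simp [h]
      rw [this]; exact isOpen_univ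
  · simp only [mem_iInter, mem_setOf_eq]
    intro c _ i hi
    rw [← hi]; exact (hu c i).2
  · intro c hc hcG g hg
    obtain ⟨i, hi⟩ := hu2 c hcG g hg
    refine ⟨i, fun h => hi ?_⟩
    simp only [mem_iInter, mem_setOf_eq] at h
    exact h c (Fintype.mem_piFinset.2 hc) i rfl

/-- closed subset of `C_p(X)` attached to a set of tuples -/
def PP {n : ℕ} (G : Set (Fin n → X)) (a : Fin n → ℝ) : Set (Cp X) :=
  {ψ | ∀ g ∈ G, ∃ i, 1 / 2 ≤ |ψ.1 (g i) - a i|}

theorem PP_closed {n : ℕ} (G : Set (Fin n → X)) (a : Fin n → ℝ) : IsClosed (PP G a) := by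
  have : PP G a = ⋂ g ∈ G, ⋃ i, {ψ : Cp X | 1 / 2 ≤ |ψ.1 (g i) - a i|} := by
    ext ψ; simp [PP]
  rw [this]
  refine isClosed_biInter fun g _ => isClosed_iUnion_of_finite fun i => ?_
  refine isClosed_le continuous_const (Continuous.abs ?_)
  exact ((continuous_apply (g i)).comp continuous_subtype_val).sub continuous_const

/-- **Main lemma.** Let `C_p(X)` be perfectly normal, `K i` pairwise disjoint closed sets and `G` a
closed set of tuples with `g i ∈ K i`. Then some countable `N` has `G ⊆ cl (G ∩ N ^ n)`. -/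
theorem main_lemma [T35Space X] (hX : PN (Cp X)) {n : ℕ} (K : Fin n → Set X)
    (hK : ∀ i, IsClosed (K i)) (hKd : ∀ i j, i ≠ j → Disjoint (K i) (K j))
    (G : Set (Fin n → X)) (hG : IsClosed G) (hGK : ∀ g ∈ G, ∀ i, g i ∈ K i) :
    ∃ N : Set X, N.Countable ∧ G ⊆ closure (G ∩ {c | ∀ i, c i ∈ N}) := by
  classical
  obtain ⟨N, hN, hdep⟩ := Helper47.LP.closed_dep hX.1 hX.2 _ (cp_inducing (X := X)) cp_dense
    (PP G fun _ => 1) (PP_closed G _)
  refine ⟨N, hN, fun w hw => ?_⟩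
  by_contra hcon
  rw [mem_closure_iff] at hcon
  push Not at hcon
  obtain ⟨O, hO, hwO, hOe⟩ := hcon
  obtain ⟨V0, hV0, hV0s⟩ := isOpen_pi_iff'.1 hO w hwO
  -- shrink to avoid the other `K j`
  let V : Fin n → Set X := fun i => V0 i ∩ ⋂ j, {x | j ≠ i → x ∉ K j}
  have hVo : ∀ i, IsOpen (V i) := by
    intro i
    refine (hV0 i).1.inter (isOpen_iInter_of_finite fun j => ?_)
    by_cases h : j = i
    · have : {x : X | j ≠ i → x ∉ K j} = univ := by ext x; simp [h]
      rw [this]; exact isOpen_univ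
    · have : {x : X | j ≠ i → x ∉ K j} = (K j)ᶜ := by ext x; simp [h]
      rw [this]; exact (hK j).isOpen_compl
  have hVw : ∀ i, w i ∈ V i := by
    intro i
    refine ⟨(hV0 i).2, mem_iInter.2 fun j hj hw' => ?_⟩
    exact (Set.disjoint_left.1 (hKd j i hj)) hw' (hGK w hw i)
  have hVK : ∀ i j, j ≠ i → ∀ x ∈ V i, x ∉ K j := fun i j hj x hx => (mem_iInter.1 hx.2 j) hj
  choose φ hφ1 hφ2 hφ3 hφ4 using fun i => bump (w i) (V i) (hVo i) (hVw i)
  let ψ : Cp X := ⟨fun x => ∑ i, φ i x, continuous_finsetSum _ fun i _ => hφ1 i⟩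
  have hψw : ∀ i, ψ.1 (w i) = 1 := by
    intro i
    show ∑ j, φ j (w i) = 1
    rw [Finset.sum_eq_single i, hφ2 i]
    · intro j _ hj
      exact hφ4 j _ fun h => hVK j i (Ne.symm hj) _ h (hGK w hw i)
    · intro h; exact absurd (Finset.mem_univ i) h
  have hψP : ψ ∉ PP G fun _ => 1 := by
    intro h
    obtain ⟨i, hi⟩ := h w hw
    rw [hψw i] at hi
    norm_num at hi
  obtain ⟨F, ε, hFN, hε, hF⟩ := hdep ψ hψP
  -- neighbourhoods of the points of `F`
  obtain ⟨W, hW1, hW2⟩ := box_nbhd G hG F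
  let W' : X → Set X := fun p => W p ∩ ⋂ i, {x | p ∉ K i → x ∉ K i}
  have hW'1 : ∀ p ∈ F, IsOpen (W' p) ∧ p ∈ W' p := by
    intro p hp
    refine ⟨(hW1 p hp).1.inter (isOpen_iInter_of_finite fun i => ?_), (hW1 p hp).2,
      mem_iInter.2 fun i h => h⟩
    by_cases h : p ∈ K i
    · have : {x : X | p ∉ K i → x ∉ K i} = univ := by ext x; simp [h]
      rw [this]; exact isOpen_univ
    · have : {x : X | p ∉ K i → x ∉ K i} = (K i)ᶜ := by ext x; simp [h]
      rw [this]; exact (hK i).isOpen_compl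
  obtain ⟨ψ', h1, h2, h3⟩ := interp F W' hW'1 ψ.1
  refine hF ⟨ψ', h1⟩ (fun p hp => ?_) ?_
  · show |ψ' p - ψ.1 p| < ε
    rw [h2 p hp, sub_self, abs_zero]; exact hε
  · intro g hg
    by_contra hcon
    push Not at hcon
    have h4 : ∀ i, 1 / 2 < ψ' (g i) := by
      intro i
      have := hcon i
      rw [abs_lt] at this
      linarith [this.1]
    have h5 : ∀ i, ∃ p ∈ F, g i ∈ W' p ∧ 0 < ψ.1 p := by
      intro i
      obtain ⟨p, hp, hpW, -, hps⟩ := h3 (g i) (by linarith [h4 i])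
      refine ⟨p, hp, hpW, ?_⟩
      have h6 : 0 < ψ' (g i) := by linarith [h4 i]
      exact (pos_iff_pos_of_mul_pos hps).1 h6
    choose c hcF hcW hcpos using h5
    have hcK : ∀ i, c i ∈ K i := by
      intro i
      by_contra h
      exact (mem_iInter.1 (hcW i).2 i) h (hGK g hg i)
    have hcV : ∀ i, c i ∈ V i := by
      intro i
      have h7 : 0 < ∑ j, φ j (c i) := hcpos i
      obtain ⟨j, -, hj⟩ := Finset.exists_ne_zero_of_sum_ne_zero h7.ne'
      have h8 : c i ∈ V j := by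
        by_contra h
        exact hj (hφ4 j _ h)
      by_cases hij : i = j
      · rw [hij]; rw [hij] at h8; exact h8
      · exact absurd (hcK i) (hVK j i hij _ h8)
    by_cases hcG : c ∈ G
    · have : c ∈ O ∩ (G ∩ {c | ∀ i, c i ∈ N}) :=
        ⟨hV0s fun i _ => (hcV i).1, hcG, fun i => hFN (hcF i)⟩
      rw [hOe] at this
      exact this
    · obtain ⟨i, hi⟩ := hW2 c hcF hcG g hg
      exact hi (hcW i).1

end Pool.Agent.H151.PN
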