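import Mathlib
import Pool.Agent.H151.PN1

set_option autoImplicit false

open Set Topology Filter

namespace Pool.Agent.H151.PN

open Pool.Agent.Helper937.Szd (CS Cp perfect_of_zero)

variable {X : Type} [TopologicalSpace X]

/-- disjoint closed copies of `Y` in `X` -/
theorem cs_of_copies [T35Space X] (hX : PN (Cp X)) {Y : Type} [TopologicalSpace Y] {n : ℕ}
    (s : Fin n → Y → X) (hs : ∀ i, IsClosedEmbedding (s i))
    (hd : ∀ i j, i ≠ j → Disjoint (range (s i)) (range (s j))) : CS (Fin n → Y) := by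
  classical
  intro H hH
  let S : (Fin n → Y) → (Fin n → X) := fun h i => s i (h i)
  have hSind : IsInducing S := IsInducing.piMap fun i => (hs i).isInducing
  have hSinj : Function.Injective S := by
    intro h h' hh
    funext i
    exact (hs i).injective (congrFun hh i)
  have hSclosed : IsClosedEmbedding S := by
    refine ⟨⟨hSind, hSinj⟩, ?_⟩
    have : range S = {g | ∀ i, g i ∈ range (s i)} := by
      ext g
      constructor
      · rintro ⟨h, rfl⟩ i; exact ⟨h i, rfl⟩
      · intro hg
        choose h hh using hg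
        exact ⟨h, funext hh⟩
    rw [this]
    have : {g : Fin n → X | ∀ i, g i ∈ range (s i)} = ⋂ i, {g | g i ∈ range (s i)} := by
      ext g; simp
    rw [this]
    exact isClosed_iInter fun i => (hs i).isClosed_range.preimage (continuous_apply i)
  have hG : IsClosed (S '' H) := hSclosed.isClosedMap _ hH
  obtain ⟨N, hN, hNc⟩ := main_lemma hX (fun i => range (s i)) (fun i => (hs i).isClosed_range) hd
    (S '' H) hG (by rintro _ ⟨h, _, rfl⟩ i; exact ⟨h i, rfl⟩)
  let D : Set (Fin n → Y) := H ∩ {h | ∀ i, s i (h i) ∈ N}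
  have hD : D.Countable := by
    have h1 : (Set.pi univ fun i : Fin n => s i ⁻¹' N).Countable := by
      refine Set.countable_univ_pi fun i => ?_
      exact hN.preimage_of_injOn ((hs i).injective.injOn)
    refine h1.mono fun h hh => ?_
    rw [Set.mem_univ_pi]
    exact fun i => hh.2 i
  have hDd : H ⊆ closure D := by
    intro w hw
    rw [hSind.closure_eq_preimage_closure_image]
    have h2 := hNc (mem_image_of_mem S hw)
    refine closure_mono ?_ h2
    rintro _ ⟨⟨h, hh, rfl⟩, hN'⟩
    exact ⟨h, ⟨hh, hN'⟩, rfl⟩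
  refine ⟨⟨(↑) ⁻¹' D, hD.preimage Subtype.val_injective, ?_⟩⟩
  intro w
  rw [IsInducing.subtypeVal.closure_eq_preimage_closure_image]
  have : ((↑) : H → Fin n → Y) '' ((↑) ⁻¹' D) = D := by
    rw [Subtype.image_preimage_coe]
    exact inter_eq_right.2 inter_subset_left
  rw [mem_preimage, this]
  exact hDd w.2

/-- the property that tuples of distinct points are approximated -/
def Inj (X : Type) [TopologicalSpace X] : Prop :=
  ∀ (m : ℕ) (G : Set (Fin m → X)), IsClosed G → ∃ N : Set X, N.Countable ∧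
    ∀ w ∈ G, Function.Injective w → w ∈ closure (G ∩ {c | ∀ i, c i ∈ N})

theorem cs_of_inj (h : Inj X) (n : ℕ) : CS (Fin n → X) := by
  classical
  intro S hS
  -- collapsed tuples
  let G : (Σ m : ℕ, (Fin n → Fin m)) → Set ((i : ℕ) × (Fin i → X)) := fun _ => ∅
  have hcl : ∀ t : (Σ m : ℕ, (Fin n → Fin m)), IsClosed {w : Fin t.1 → X | (fun i => w (t.2 i)) ∈ S} := by
    intro t
    exact hS.preimage (continuous_pi fun i => continuous_apply (t.2 i))
  choose N hN hNc using fun t : (Σ m : ℕ, (Fin n → Fin m)) => h t.1 _ (hcl t)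
  let D : Set (Fin n → X) := ⋃ t : (Σ m : ℕ, (Fin n → Fin m)),
    (fun w : Fin t.1 → X => fun i => w (t.2 i)) ''
      ({w : Fin t.1 → X | (fun i => w (t.2 i)) ∈ S} ∩ {c | ∀ i, c i ∈ N t})
  have hDc : D.Countable := by
    refine countable_iUnion fun t => ?_
    have h1 : (Set.pi univ fun _ : Fin t.1 => N t).Countable := Set.countable_univ_pi fun _ => hN t
    refine (h1.mono ?_).image _
    intro c hc
    rw [Set.mem_univ_pi]
    exact hc.2
  have hDS : D ⊆ S := by
    intro d hd
    obtain ⟨t, w, hw, rfl⟩ := mem_iUnion.1 hd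
    exact hw.1
  have hSD : S ⊆ closure D := by
    intro v hv
    let F : Finset X := Finset.univ.image v
    let w : Fin F.card → X := fun j => (F.equivFin.symm j).1
    let τ : Fin n → Fin F.card := fun i => F.equivFin ⟨v i, Finset.mem_image_of_mem v (Finset.mem_univ i)⟩
    have hwτ : (fun i => w (τ i)) = v := by
      funext i
      simp [w, τ]
    have hwinj : Function.Injective w := by
      intro a b hab
      exact F.equivFin.symm.injective (Subtype.ext hab)
    have h2 := hNc ⟨F.card, τ⟩ w (by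
      show (fun i => w (τ i)) ∈ S
      rw [hwτ]; exact hv) hwinj
    have hc : Continuous (fun w : Fin F.card → X => fun i => w (τ i)) :=
      continuous_pi fun i => continuous_apply (τ i)
    have h3 := image_closure_subset_closure_image hc (mem_image_of_mem _ h2)
    rw [← hwτ]
    refine closure_mono ?_ h3
    exact subset_iUnion (fun t : (Σ m : ℕ, (Fin n → Fin m)) =>
      (fun w : Fin t.1 → X => fun i => w (t.2 i)) ''
      ({w : Fin t.1 → X | (fun i => w (t.2 i)) ∈ S} ∩ {c | ∀ i, c i ∈ N t})) ⟨F.card, τ⟩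
  refine ⟨⟨(↑) ⁻¹' D, hDc.preimage Subtype.val_injective, ?_⟩⟩
  intro w
  rw [IsInducing.subtypeVal.closure_eq_preimage_closure_image]
  have : ((↑) : S → Fin n → X) '' ((↑) ⁻¹' D) = D := by
    rw [Subtype.image_preimage_coe]
    exact inter_eq_right.2 hDS
  rw [mem_preimage, this]
  exact hSD w.2

/-- spaces with a coarser separable metrizable topology -/
theorem inj_of_condensation [T35Space X] (hX : PN (Cp X)) (j : X → ℕ → ℝ) (hj : Continuous j)
    (hji : Function.Injective j) : Inj X := by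
  classical
  intro m G hG
  -- a countable family of closed sets
  let B : Set (Set (ℕ → ℝ)) := TopologicalSpace.countableBasis (ℕ → ℝ)
  have hB : B.Countable := TopologicalSpace.countable_countableBasis _
  let I := {b : Fin m → B // ∀ i i', i ≠ i' → Disjoint (closure (b i : Set (ℕ → ℝ))) (closure (b i'))}
  have : Countable B := hB.to_subtype
  have hI : Countable I := inferInstance
  have h1 : ∀ b : I, ∃ N : Set X, N.Countable ∧
      G ∩ {g | ∀ i, g i ∈ j ⁻¹' (closure (b.1 i : Set (ℕ → ℝ)))} ⊆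
        closure ((G ∩ {g | ∀ i, g i ∈ j ⁻¹' (closure (b.1 i : Set (ℕ → ℝ)))}) ∩ {c | ∀ i, c i ∈ N}) := by
    intro b
    refine main_lemma hX (fun i => j ⁻¹' (closure (b.1 i : Set (ℕ → ℝ))))
      (fun i => isClosed_closure.preimage hj) (fun i i' hii => (b.2 i i' hii).preimage j) _ ?_ ?_
    · refine hG.inter ?_
      have : {g : Fin m → X | ∀ i, g i ∈ j ⁻¹' (closure (b.1 i : Set (ℕ → ℝ)))} =
          ⋂ i, {g | g i ∈ j ⁻¹' (closure (b.1 i : Set (ℕ → ℝ)))} := by ext g; simp
      rw [this]
      exact isClosed_iInter fun i => (isClosed_closure.preimage hj).preimage (continuous_apply i)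
    · intro g hg i; exact hg.2 i
  choose N hN hNc using h1
  refine ⟨⋃ b, N b, countable_iUnion hN, fun w hw hwi => ?_⟩
  -- separate the points `j (w i)`
  have h2 : ∃ b : Fin m → B, (∀ i, j (w i) ∈ (b i : Set (ℕ → ℝ))) ∧
      ∀ i i', i ≠ i' → Disjoint (closure (b i : Set (ℕ → ℝ))) (closure (b i')) := by
    have hinj : Function.Injective fun i => j (w i) := fun a b hab => hwi (hji hab)
    let F : Finset (ℕ → ℝ) := Finset.univ.image fun i => j (w i)
    obtain ⟨U, hU, hUd⟩ := F.finite_toSet.t2_separation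
    have h3 : ∀ i, ∃ b : B, j (w i) ∈ (b : Set (ℕ → ℝ)) ∧ closure (b : Set (ℕ → ℝ)) ⊆ U (j (w i)) := by
      intro i
      obtain ⟨V, hV, hVc, hVU⟩ := exists_mem_nhds_isClosed_subset ((hU (j (w i))).2.mem_nhds (hU _).1)
      obtain ⟨b, hb, hb1, hb2⟩ := (TopologicalSpace.isBasis_countableBasis (ℕ → ℝ)).mem_nhds_iff.1 hV
      exact ⟨⟨b, hb⟩, hb1, (closure_minimal hb2 hVc).trans hVU⟩
    choose b hb1 hb2 using h3
    refine ⟨b, hb1, fun i i' hii => ?_⟩
    refine (hUd ?_ ?_ (fun h => hii (hinj h))).mono (hb2 i) (hb2 i')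
    · exact Finset.mem_coe.2 (Finset.mem_image_of_mem _ (Finset.mem_univ i))
    · exact Finset.mem_coe.2 (Finset.mem_image_of_mem _ (Finset.mem_univ i'))
  obtain ⟨b, hb1, hb2⟩ := h2
  have h4 := hNc ⟨b, hb2⟩ ⟨hw, fun i => subset_closure (hb1 i)⟩
  refine closure_mono ?_ h4
  rintro c ⟨⟨hc1, -⟩, hc2⟩
  exact ⟨hc1, fun i => mem_iUnion.2 ⟨_, hc2 i⟩⟩

end Pool.Agent.H151.PN
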