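import Mathlib
import Pool.Agent.H151.PN2

set_option autoImplicit false

open Set Topology Filter

namespace Pool.Agent.H151.PN

open Pool.Agent.Helper937.Szd (CS Cp perfect_of_zero)

variable {X : Type} [TopologicalSpace X]

/-- finitely many points have disjoint clopen neighbourhoods inside prescribed neighbourhoods -/
theorem disj_clopen [T2Space X] (hz : TopologicalSpace.IsTopologicalBasis {s : Set X | IsClopen s})
    (F : Finset X) (W : X → Set X) (hW : ∀ p ∈ F, IsOpen (W p) ∧ p ∈ W p) :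
    ∃ O : X → Set X, (∀ p ∈ F, IsClopen (O p) ∧ p ∈ O p ∧ O p ⊆ W p) ∧
      ∀ p ∈ F, ∀ q ∈ F, p ≠ q → Disjoint (O p) (O q) := by
  classical
  obtain ⟨U, hU, hd⟩ := disj_nbhd F W hW
  have h1 : ∀ p, ∃ O : Set X, p ∈ F → (IsClopen O ∧ p ∈ O ∧ O ⊆ U p) := by
    intro p
    by_cases hp : p ∈ F
    · obtain ⟨O, hO, hpO, hOU⟩ := hz.mem_nhds_iff.1 ((hU p hp).1.mem_nhds (hU p hp).2.1)
      exact ⟨O, fun _ => ⟨hO, hpO, hOU⟩⟩
    · exact ⟨∅, fun h => absurd h hp⟩
  choose O hO using h1
  refine ⟨O, fun p hp => ⟨(hO p hp).1, (hO p hp).2.1, (hO p hp).2.2.trans (hU p hp).2.2⟩,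
    fun p hp q hq hpq => (hd p hp q hq hpq).mono (hO p hp).2.2 (hO q hq).2.2⟩

/-- interpolation by locally constant functions -/
theorem interp_clopen [T2Space X] (hz : TopologicalSpace.IsTopologicalBasis {s : Set X | IsClopen s})
    (F : Finset X) (W : X → Set X) (hW : ∀ p ∈ F, IsOpen (W p) ∧ p ∈ W p)
    (v : X → ℝ) : ∃ ψ : X → ℝ, Continuous ψ ∧ (∀ p ∈ F, ψ p = v p) ∧
      ∀ x, ψ x ≠ 0 → ∃ p ∈ F, x ∈ W p ∧ ψ x = v p := by
  classical
  obtain ⟨O, hO, hd⟩ := disj_clopen hz F W hW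
  have hval : ∀ p ∈ F, ∀ x ∈ O p, ∑ q ∈ F, v q * (O q).indicator (fun _ => (1 : ℝ)) x = v p := by
    intro p hp x hx
    rw [Finset.sum_eq_single p, indicator_of_mem hx, mul_one]
    · intro q hq hqp
      rw [indicator_of_notMem (fun hx' => (Set.disjoint_left.1 (hd q hq p hp hqp)) hx' hx), mul_zero]
    · exact fun h => absurd hp h
  refine ⟨fun x => ∑ q ∈ F, v q * (O q).indicator (fun _ => (1 : ℝ)) x, ?_, ?_, ?_⟩
  · refine continuous_finsetSum _ fun q hq => continuous_const.mul ?_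
    exact (hO q hq).1.continuous_indicator continuous_const
  · intro p hp
    exact hval p hp p (hO p hp).2.1
  · intro x hx
    have hx' : ∑ q ∈ F, v q * (O q).indicator (fun _ => (1 : ℝ)) x ≠ 0 := hx
    obtain ⟨p, hp, hpx⟩ := Finset.exists_ne_zero_of_sum_ne_zero hx'
    have hxO : x ∈ O p := by
      by_contra h
      exact hpx (by rw [indicator_of_notMem h, mul_zero])
    exact ⟨p, hp, (hO p hp).2.2 hxO, hval p hp x hxO⟩

/-- zero-dimensional spaces -/
theorem inj_of_zerodim [T35Space X] (hX : PN (Cp X))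
    (hz : TopologicalSpace.IsTopologicalBasis {s : Set X | IsClopen s}) : Inj X := by
  classical
  intro n G hG
  obtain ⟨N, hN, hdep⟩ := Helper47.LP.closed_dep hX.1 hX.2 _ (cp_inducing (X := X)) cp_dense
    (PP G fun i => (i : ℝ) + 1) (PP_closed G _)
  refine ⟨N, hN, fun w hw hwi => ?_⟩
  by_contra hcon
  rw [mem_closure_iff] at hcon
  push Not at hcon
  obtain ⟨O, hO, hwO, hOe⟩ := hcon
  obtain ⟨V0, hV0, hV0s⟩ := isOpen_pi_iff'.1 hO w hwO
  let E : Finset X := Finset.univ.image w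
  -- a neighbourhood for each point `w i`
  let V1 : X → Set X := fun x => ⋂ i, {y | w i = x → y ∈ V0 i}
  have hV1 : ∀ p ∈ E, IsOpen (V1 p) ∧ p ∈ V1 p := by
    intro p _
    refine ⟨isOpen_iInter_of_finite fun i => ?_, mem_iInter.2 fun i hi => ?_⟩
    · by_cases h : w i = p
      · have : {y : X | w i = p → y ∈ V0 i} = V0 i := by ext y; simp [h]
        rw [this]; exact (hV0 i).1
      · have : {y : X | w i = p → y ∈ V0 i} = univ := by ext y; simp [h]
        rw [this]; exact isOpen_univ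
    · rw [← hi]; exact (hV0 i).2
  -- value `i + 1` at `w i`
  let v : X → ℝ := fun x => if h : ∃ i, w i = x then ((h.choose : Fin n) : ℝ) + 1 else 0
  have hvw : ∀ i, v (w i) = (i : ℝ) + 1 := by
    intro i
    have h : ∃ j, w j = w i := ⟨i, rfl⟩
    have h2 : h.choose = i := hwi h.choose_spec
    simp only [v, dif_pos h]
    rw [h2]
  obtain ⟨ψ, hψ1, hψ2, hψ3⟩ := interp_clopen hz E V1 hV1 v
  have hwE : ∀ i, w i ∈ E := fun i => Finset.mem_image_of_mem w (Finset.mem_univ i)
  have hψP : (⟨ψ, hψ1⟩ : Cp X) ∉ PP G fun i => (i : ℝ) + 1 := by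
    intro h
    obtain ⟨i, hi⟩ := h w hw
    have h2 : ψ (w i) = (i : ℝ) + 1 := by rw [hψ2 _ (hwE i), hvw]
    have h3 : (1 : ℝ) / 2 ≤ |ψ (w i) - ((i : ℝ) + 1)| := hi
    rw [h2] at h3
    norm_num at h3
  obtain ⟨F, ε, hFN, hε, hF⟩ := hdep _ hψP
  obtain ⟨W, hW1, hW2⟩ := box_nbhd G hG F
  obtain ⟨ψ', h1, h2, h3⟩ := interp_clopen hz F W hW1 ψ
  refine hF ⟨ψ', h1⟩ (fun p hp => ?_) ?_
  · show |ψ' p - ψ p| < ε
    rw [h2 p hp, sub_self, abs_zero]; exact hε
  · intro g hg
    by_contra hcon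
    push Not at hcon
    have h4 : ∀ i, |ψ' (g i) - ((i : ℝ) + 1)| < 1 / 2 := fun i => hcon i
    have h5 : ∀ i, ∃ p ∈ F, g i ∈ W p ∧ p ∈ V1 (w i) := by
      intro i
      have h6 := abs_lt.1 (h4 i)
      have hi0 : (0 : ℝ) ≤ (i : ℝ) := Nat.cast_nonneg _
      obtain ⟨p, hp, hpW, hps⟩ := h3 (g i) (by linarith [h6.1])
      refine ⟨p, hp, hpW, ?_⟩
      obtain ⟨q, hq, hqV, hqv⟩ := hψ3 p (by rw [← hps]; linarith [h6.1])
      obtain ⟨j, -, rfl⟩ := Finset.mem_image.1 hq
      rw [hps, hqv, hvw j] at h6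
      have h7 : (j : ℕ) = (i : ℕ) := by
        have h8 : ((j : ℕ) : ℝ) < ((i : ℕ) : ℝ) + 1 := by linarith [h6.2]
        have h9 : ((i : ℕ) : ℝ) < ((j : ℕ) : ℝ) + 1 := by linarith [h6.1]
        have h10 : (j : ℕ) < (i : ℕ) + 1 := by exact_mod_cast h8
        have h11 : (i : ℕ) < (j : ℕ) + 1 := by exact_mod_cast h9
        omega
      rw [← Fin.ext h7]
      exact hqV
    choose c hcF hcW hcV using h5
    by_cases hcG : c ∈ G
    · have : c ∈ O ∩ (G ∩ {c | ∀ i, c i ∈ N}) :=
        ⟨hV0s fun i _ => (mem_iInter.1 (hcV i) i) rfl, hcG, fun i => hFN (hcF i)⟩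
      rw [hOe] at this
      exact this
    · obtain ⟨i, hi⟩ := hW2 c hcF hcG g hg
      exact hi (hcW i)

/-- closed subspaces of finite powers of a countable sum of copies -/
theorem cs_sum (J : Type) [Countable J] [TopologicalSpace J] [DiscreteTopology J]
    (h : ∀ n, CS (Fin n → X)) (n : ℕ) : CS (Fin n → J × X) := by
  classical
  intro S hS
  let T : (Fin n → J) → Set (Fin n → X) := fun σ => {v | (fun i => (σ i, v i)) ∈ S}
  have hT : ∀ σ, IsClosed (T σ) := fun σ =>
    hS.preimage (continuous_pi fun i => continuous_const.prodMk (continuous_apply i))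
  have hsep : ∀ σ, TopologicalSpace.SeparableSpace (T σ) := fun σ => h n _ (hT σ)
  let q : (Σ σ, T σ) → S := fun z => ⟨fun i => (z.1 i, z.2.1 i), z.2.2⟩
  have hq : Continuous q := by
    refine Continuous.subtype_mk ?_ _
    refine continuous_sigma fun σ => ?_
    exact continuous_pi fun i => continuous_const.prodMk ((continuous_apply i).comp continuous_subtype_val)
  have hqs : Function.Surjective q := by
    rintro ⟨s, hs⟩
    exact ⟨⟨fun i => (s i).1, ⟨fun i => (s i).2, hs⟩⟩, rfl⟩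
  have : Countable (Fin n → J) := inferInstance
  choose D hD1 hD2 using fun σ => TopologicalSpace.exists_countable_dense (T σ)
  refine ⟨⟨⋃ σ, (fun t => q ⟨σ, t⟩) '' (D σ), countable_iUnion fun σ => (hD1 σ).image _, fun s => ?_⟩⟩
  obtain ⟨⟨σ, t⟩, rfl⟩ := hqs s
  have hc : Continuous fun t => q ⟨σ, t⟩ := hq.comp continuous_sigmaMk
  have h2 := image_closure_subset_closure_image hc (mem_image_of_mem _ (hD2 σ t))
  exact closure_mono (subset_iUnion (fun σ => (fun t => q ⟨σ, t⟩) '' (D σ)) σ) h2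

/-- if all closed subspaces of the finite powers of `X` are separable, then countable powers of
`C_p(X)` are perfectly normal -/
theorem pn_of_cs (J : Type) [Countable J] [TopologicalSpace J] [DiscreteTopology J]
    (h : ∀ n, CS (Fin n → X)) {E : Type} [TopologicalSpace E] (e : E → J → Cp X)
    (he : IsInducing e) : PN E := by
  refine perfect_of_zero fun P hP => ?_
  let e' : E → J × X → ℝ := fun φ z => (e φ z.1).1 z.2
  have he' : IsInducing e' := by
    have h1 : IsInducing (fun (u : J → Cp X) (j : J) (x : X) => (u j).1 x) :=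
      IsInducing.piMap fun _ => IsInducing.subtypeVal
    have h2 : IsInducing (fun (u : J → X → ℝ) (z : J × X) => u z.1 z.2) := by
      have hc1 : Continuous (fun (u : J → X → ℝ) (z : J × X) => u z.1 z.2) :=
        continuous_pi fun z => (continuous_apply z.2).comp (continuous_apply z.1)
      have hc2 : Continuous (fun (u : J × X → ℝ) (j : J) (x : X) => u (j, x)) :=
        continuous_pi fun j => continuous_pi fun x => continuous_apply (j, x)
      exact IsInducing.of_comp hc1 hc2 IsInducing.id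
    exact h2.comp (h1.comp he)
  refine zero_set e' he' (fun φ => ?_) (cs_sum J h) P hP
  have : Continuous fun z : J × X => (e φ z.1).1 z.2 :=
    continuous_prod_of_discrete_left.2 fun j => (e φ j).2
  exact this

end Pool.Agent.H151.PN
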