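import Mathlib
import Pool.Agent.H151.PN3

set_option autoImplicit false

open Set Topology Filter

namespace Pool.Agent.H151.PN

open Pool.Agent.Helper937.Szd (CS Cp perfect_of_zero)

variable {X : Type} [TopologicalSpace X]

theorem PN.of_embedding {E E' : Type} [TopologicalSpace E] [TopologicalSpace E'] (h : PN E')
    (f : E → E') (hf : IsInducing f) : PN E := by
  -- closed sets are zero sets
  refine perfect_of_zero fun P hP => ?_
  have := h.1
  obtain ⟨Q, hQ, rfl⟩ := hf.isClosed_iff.1 hP
  obtain ⟨U, hU, hQU⟩ := isGδ_iff_eq_iInter_nat.mp (h.2 Q hQ)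
  have h1 : ∀ n, ∃ φ : C(E', ℝ), EqOn φ 0 Q ∧ EqOn φ 1 (U n)ᶜ ∧ ∀ x, φ x ∈ Icc (0 : ℝ) 1 := by
    intro n
    refine exists_continuous_zero_one_of_isClosed hQ (hU n).isClosed_compl ?_
    rw [Set.disjoint_left]
    intro x hx hx'
    rw [hQU] at hx
    exact hx' (mem_iInter.mp hx n)
  choose φ h2 h3 h4 using h1
  have hs : Summable fun n : ℕ => (1 / 2 : ℝ) ^ n := summable_geometric_two
  have hb : ∀ (n : ℕ) (x : E'), ‖(1 / 2 : ℝ) ^ n * φ n x‖ ≤ (1 / 2 : ℝ) ^ n := by
    intro n x
    rw [Real.norm_eq_abs, abs_of_nonneg (mul_nonneg (by positivity) (h4 n x).1)]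
    exact mul_le_of_le_one_right (by positivity) (h4 n x).2
  refine ⟨fun x => ∑' n, (1 / 2 : ℝ) ^ n * φ n (f x), ?_, ?_⟩
  · exact (continuous_tsum (fun n => continuous_const.mul (φ n).continuous) hs hb).comp hf.continuous
  · ext x
    constructor
    · intro hx
      show ∑' n, (1 / 2 : ℝ) ^ n * φ n (f x) = 0
      have : ∀ n, φ n (f x) = 0 := fun n => h2 n hx
      simp [this]
    · intro hx
      by_contra hcon
      have h5 : ∃ n, f x ∉ U n := by
        by_contra h6
        push Not at h6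
        exact hcon (by
          show f x ∈ Q
          rw [hQU]; exact mem_iInter.2 h6)
      obtain ⟨n, hn⟩ := h5
      have h7 : Summable fun n : ℕ => (1 / 2 : ℝ) ^ n * φ n (f x) :=
        hs.of_norm_bounded fun n => hb n (f x)
      have h8 : 0 < ∑' n, (1 / 2 : ℝ) ^ n * φ n (f x) :=
        h7.tsum_pos (fun m => mul_nonneg (by positivity) (h4 m _).1) n (by
          have : φ n (f x) = 1 := h3 n hn
          rw [this]; positivity)
      exact h8.ne' hx

/-- `C_p(J × X)` and `C_p(X) ^ J` -/
theorem cp_prod_inducing (J : Type) [TopologicalSpace J] [DiscreteTopology J] :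
    IsInducing (fun (φ : Cp (J × X)) (j : J) => (⟨fun x => φ.1 (j, x),
      φ.2.comp (continuous_const.prodMk continuous_id)⟩ : Cp X)) := by
  have h1 : IsInducing (fun (u : J → Cp X) (j : J) (x : X) => (u j).1 x) :=
    IsInducing.piMap fun _ => IsInducing.subtypeVal
  refine IsInducing.of_comp ?_ h1.continuous ?_
  · refine continuous_pi fun j => Continuous.subtype_mk (continuous_pi fun x => ?_) _
    exact (continuous_apply (j, x)).comp continuous_subtype_val
  · have h2 : IsInducing (fun (u : J × X → ℝ) (j : J) (x : X) => u (j, x)) := by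
      have hc1 : Continuous (fun (u : J → X → ℝ) (z : J × X) => u z.1 z.2) :=
        continuous_pi fun z => (continuous_apply z.2).comp (continuous_apply z.1)
      have hc2 : Continuous (fun (u : J × X → ℝ) (j : J) (x : X) => u (j, x)) :=
        continuous_pi fun j => continuous_pi fun x => continuous_apply (j, x)
      exact IsInducing.of_comp hc2 hc1 IsInducing.id
    exact h2.comp IsInducing.subtypeVal

theorem cs_of_power [T35Space X] {k : ℕ} (h : PN (Fin k → Cp X)) : CS (Fin k → X) := by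
  have h1 : PN (Cp (Fin k × X)) := PN.of_embedding h _ (cp_prod_inducing (Fin k))
  refine cs_of_copies h1 (fun i x => (i, x)) (fun i => ?_) fun i j hij => ?_
  · refine IsClosedEmbedding.of_continuous_injective_isClosedMap
      (continuous_const.prodMk continuous_id) (fun x y hxy => (Prod.ext_iff.1 hxy).2) ?_
    intro C hC
    have : (fun x : X => (i, x)) '' C = {i} ×ˢ C := by
      ext ⟨j, x⟩
      constructor
      · rintro ⟨y, hy, h⟩
        obtain ⟨rfl, rfl⟩ := Prod.ext_iff.1 h
        exact ⟨rfl, hy⟩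
      · rintro ⟨rfl, hx⟩
        exact ⟨x, hx, rfl⟩
    rw [this]
    exact (isClosed_discrete _).prod hC
  · rw [Set.disjoint_left]
    rintro _ ⟨x, rfl⟩ ⟨y, hy⟩
    exact hij (Prod.ext_iff.1 hy).1.symm

/-- product with a `σ`-compact metric factor -/
theorem cs_prod {M W : Type} [TopologicalSpace M] [TopologicalSpace W]
    (𝓑 : Set (Set M)) (h𝓑 : 𝓑.Countable) (hc : ∀ B ∈ 𝓑, IsCompact B)
    (hb : ∀ m : M, ∀ O ∈ 𝓝 m, ∃ B ∈ 𝓑, m ∈ B ∧ B ⊆ O) (hW : CS W) : CS (M × W) := by
  classical
  intro S hS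
  let T : Set M → Set W := fun B => {w | ∃ m ∈ B, (m, w) ∈ S}
  have hT : ∀ B ∈ 𝓑, IsClosed (T B) := by
    intro B hB
    have hcomp := hc B hB
    have h1 : T B = Prod.snd '' (S ∩ B ×ˢ univ) := by
      ext w
      constructor
      · rintro ⟨m, hm, hmw⟩
        exact ⟨(m, w), ⟨hmw, hm, mem_univ _⟩, rfl⟩
      · rintro ⟨⟨m, w'⟩, ⟨h1, h2, -⟩, rfl⟩
        exact ⟨m, h2, h1⟩
    -- tube lemma
    rw [← isOpen_compl_iff, isOpen_iff_mem_nhds]
    intro w hw
    have hsub : B ×ˢ ({w} : Set W) ⊆ Sᶜ := by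
      rintro ⟨m, w'⟩ ⟨hm, rfl⟩ h
      exact hw ⟨m, hm, h⟩
    obtain ⟨U, V, hU, hV, hBU, hwV, hUV⟩ :=
      generalized_tube_lemma hcomp (isCompact_singleton (x := w)) hS.isOpen_compl hsub
    refine mem_of_superset (hV.mem_nhds (hwV rfl)) ?_
    rintro w' hw' ⟨m, hm, h⟩
    exact hUV ⟨hBU hm, hw'⟩ h
  have hsep : ∀ B : 𝓑, ∃ D : Set (T B.1), D.Countable ∧ Dense D := by
    intro B
    have := hW (T B.1) (hT B.1 B.2)
    exact TopologicalSpace.exists_countable_dense _
  choose D hD1 hD2 using hsep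
  choose μ hμ1 hμ2 using fun (B : 𝓑) (w : T B.1) => w.2
  have := h𝓑.to_subtype
  refine ⟨⟨⋃ B : 𝓑, (fun w : T B.1 => (⟨(μ B w, w.1), hμ2 B w⟩ : S)) '' (D B),
    countable_iUnion fun B => (hD1 B).image _, ?_⟩⟩
  rintro ⟨⟨m, w⟩, hmw⟩
  rw [mem_closure_iff]
  intro O hO hmwO
  obtain ⟨O', hO', rfl⟩ := isOpen_induced_iff.1 hO
  obtain ⟨U, V, hU, hV, hmU, hwV, hUV⟩ := isOpen_prod_iff.1 hO' m w hmwO
  obtain ⟨B, hB, hmB, hBU⟩ := hb m U (hU.mem_nhds hmU)
  obtain ⟨d, hdD, hdV⟩ := (hD2 ⟨B, hB⟩).exists_mem_open (hV.preimage continuous_subtype_val)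
    ⟨⟨w, m, hmB, hmw⟩, hwV⟩
  refine ⟨⟨(μ ⟨B, hB⟩ d, d.1), hμ2 ⟨B, hB⟩ d⟩, ?_, mem_iUnion.2 ⟨⟨B, hB⟩, d, hdD, rfl⟩⟩
  exact hUV ⟨hBU (hμ1 ⟨B, hB⟩ d), hdV⟩

/-- countably many compact sets forming a neighbourhood-like family in `Fin n → ℝ` -/
theorem compact_family (n : ℕ) : ∃ 𝓑 : Set (Set (Fin n → ℝ)), 𝓑.Countable ∧
    (∀ B ∈ 𝓑, IsCompact B) ∧ ∀ m : Fin n → ℝ, ∀ O ∈ 𝓝 m, ∃ B ∈ 𝓑, m ∈ B ∧ B ⊆ O := by
  let cb := TopologicalSpace.countableBasis (Fin n → ℝ)
  refine ⟨{B | ∃ b ∈ cb, B = closure b ∧ IsCompact B}, ?_, ?_, ?_⟩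
  · refine ((TopologicalSpace.countable_countableBasis (Fin n → ℝ)).image closure).mono ?_
    rintro B ⟨b, hb, rfl, -⟩
    exact ⟨b, hb, rfl⟩
  · rintro B ⟨b, -, -, h⟩; exact h
  · intro m O hO
    obtain ⟨K, hK, hKO, hKc⟩ := LocallyCompactSpace.local_compact_nhds m O hO
    obtain ⟨b, hb, hmb, hbK⟩ := (TopologicalSpace.isBasis_countableBasis (Fin n → ℝ)).mem_nhds_iff.1 hK
    have h1 : closure b ⊆ K := closure_minimal hbK hKc.isClosed
    exact ⟨closure b, ⟨b, hb, rfl, hKc.of_isClosed_subset isClosed_closure h1⟩, subset_closure hmb,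
      h1.trans hKO⟩

instance cp_t35 : T35Space (Cp X) := inferInstanceAs (T35Space {f : X → ℝ // Continuous f})

/-- perfect normality of `C_p(C_p(X))` -/
theorem cs_cp_of_pn (h : PN (Cp (Cp X))) (n : ℕ) : CS (Fin n → Cp X) := by
  classical
  rcases isEmpty_or_nonempty X with hX | ⟨⟨x0⟩⟩
  · intro S _
    have : Subsingleton (Cp X) := ⟨fun f g => Subtype.ext (funext fun x => (hX.false x).elim)⟩
    have : Finite S := inferInstance
    exact inferInstance
  · let Y : Type := {f : Cp X // f.1 x0 = 0}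
    let s : ℝ → Y → Cp X := fun t f => ⟨fun x => f.1.1 x + t, f.1.2.add continuous_const⟩
    have hs : ∀ t, IsClosedEmbedding (s t) := by
      intro t
      have hcont : Continuous (s t) := by
        refine Continuous.subtype_mk (continuous_pi fun x => ?_) _
        exact ((continuous_apply x).comp (continuous_subtype_val.comp continuous_subtype_val)).add
          continuous_const
      have hinj : Function.Injective (s t) := by
        intro f g hfg
        apply Subtype.ext; apply Subtype.ext; funext x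
        have := congrFun (congrArg Subtype.val hfg) x
        exact add_right_cancel this
      have hind : IsInducing (s t) := by
        let r : Cp X → Cp X := fun f => ⟨fun x => f.1 x - t, f.2.sub continuous_const⟩
        have hr : Continuous r := by
          refine Continuous.subtype_mk (continuous_pi fun x => ?_) _
          exact ((continuous_apply x).comp continuous_subtype_val).sub continuous_const
        refine IsInducing.of_comp hcont hr ?_
        have : r ∘ s t = Subtype.val := by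
          funext f
          apply Subtype.ext; funext x
          show f.1.1 x + t - t = f.1.1 x
          ring
        rw [this]; exact IsInducing.subtypeVal
      refine ⟨⟨hind, hinj⟩, ?_⟩
      have : range (s t) = {f : Cp X | f.1 x0 = t} := by
        ext f
        constructor
        · rintro ⟨g, rfl⟩
          show g.1.1 x0 + t = t
          rw [g.2, zero_add]
        · intro hf
          refine ⟨⟨⟨fun x => f.1 x - t, f.2.sub continuous_const⟩, ?_⟩, ?_⟩
          · show f.1 x0 - t = 0
            rw [show f.1 x0 = t from hf, sub_self]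
          · apply Subtype.ext; funext x
            show f.1 x - t + t = f.1 x
            ring
      rw [this]
      exact isClosed_eq ((continuous_apply x0).comp continuous_subtype_val) continuous_const
    have hY : CS (Fin n → Y) := by
      refine cs_of_copies h (fun i => s (i : ℝ)) (fun i => hs _) fun i j hij => ?_
      rw [Set.disjoint_left]
      rintro _ ⟨f, rfl⟩ ⟨g, hg⟩
      have := congrFun (congrArg Subtype.val hg) x0
      have h2 : g.1.1 x0 + (j : ℝ) = f.1.1 x0 + (i : ℝ) := this
      rw [f.2, g.2, zero_add, zero_add] at h2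
      exact hij (Fin.ext (by exact_mod_cast h2.symm))
    obtain ⟨𝓑, h1, h2, h3⟩ := compact_family n
    have hprod : CS ((Fin n → ℝ) × (Fin n → Y)) := cs_prod 𝓑 h1 h2 h3 hY
    refine hprod.image (fun z i => s (z.1 i) (z.2 i)) ?_ ?_
    · refine continuous_pi fun i => Continuous.subtype_mk (continuous_pi fun x => ?_) _
      refine Continuous.add ?_ ((continuous_apply i).comp continuous_fst)
      exact (continuous_apply x).comp (continuous_subtype_val.comp (continuous_subtype_val.comp
        ((continuous_apply i).comp continuous_snd)))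
    · intro v
      refine ⟨(fun i => (v i).1 x0, fun i => ⟨⟨fun x => (v i).1 x - (v i).1 x0,
        (v i).2.sub continuous_const⟩, by simp⟩), ?_⟩
      funext i
      apply Subtype.ext; funext x
      show (v i).1 x - (v i).1 x0 + (v i).1 x0 = (v i).1 x
      ring

end Pool.Agent.H151.PN
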