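import Mathlib
import Pool.Agent.H862R3.Prim.Stmts2

set_option autoImplicit false

/-! Project PRIMVAR, task I: the monolith `M / L` is not abelian. -/

namespace Pool.Agent.H151PV

open Pool.Agent.H862R3.Prim

theorem laws_sub {W : Set (FreeGroup ℕ)} {G : Type} [Group G] (h : Laws W G) (H : Subgroup G) :
    Laws W H := by
  intro w hw f
  have h1 := h w hw (fun i => (f i : G))
  apply Subtype.ext
  have h2 : H.subtype.comp (FreeGroup.lift f) = FreeGroup.lift (fun i => (f i : G)) := by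
    ext i
    simp
  have h3 := DFunLike.congr_fun h2 w
  rw [MonoidHom.comp_apply] at h3
  rw [Subgroup.coe_one, ← h1, ← h3]
  rfl

/-- the `p`-primary part of an abelian subgroup -/
def pr {G : Type} [Group G] (L : Subgroup G) (hL : Comm L) (p : ℕ) : Subgroup G where
  carrier := {x | x ∈ L ∧ ∃ k : ℕ, x ^ p ^ k = 1}
  mul_mem' := by
    rintro x y ⟨hx, k, hk⟩ ⟨hy, l, hl⟩
    refine ⟨L.mul_mem hx hy, k + l, ?_⟩
    have hc : Commute x y := hL x hx y hy
    rw [hc.mul_pow, pow_add, pow_mul, hk, one_pow, one_mul, mul_comm (p ^ k) (p ^ l), pow_mul, hl,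
      one_pow]
  one_mem' := ⟨L.one_mem, 0, one_pow _⟩
  inv_mem' := by
    rintro x ⟨hx, k, hk⟩
    exact ⟨L.inv_mem hx, k, by rw [inv_pow, hk, inv_one]⟩

theorem mem_pr {G : Type} [Group G] {L : Subgroup G} {hL : Comm L} {p : ℕ} {x : G} :
    x ∈ pr L hL p ↔ x ∈ L ∧ ∃ k : ℕ, x ^ p ^ k = 1 := Iff.rfl

theorem pr_normal {G : Type} [Group G] {L : Subgroup G} (hL : Comm L) (hn : L.Normal) (p : ℕ) :
    (pr L hL p).Normal := by
  constructor
  rintro x ⟨hx, k, hk⟩ g
  refine ⟨hn.conj_mem x hx g, k, ?_⟩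
  rw [conj_pow, hk, mul_one, mul_inv_cancel]

theorem eq_top_of_pp {G : Type} [Group G] [Finite G] (K : Subgroup G)
    (h : ∀ p : ℕ, p.Prime → ∀ x : G, (∃ k : ℕ, x ^ p ^ k = 1) → x ∈ K) : K = ⊤ := by
  have hd : Nat.card G ∣ Nat.card K := by
    rw [Nat.dvd_iff_prime_pow_dvd_dvd]
    intro p k hp hk
    have := Fact.mk hp
    obtain ⟨H, hH⟩ := Sylow.exists_subgroup_card_pow_prime p hk
    have h1 : H ≤ K := by
      intro x hx
      refine h p hp x ⟨k, ?_⟩
      have h2 : (⟨x, hx⟩ : H) ^ Nat.card H = 1 := pow_card_eq_one'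
      rw [hH] at h2
      exact congrArg Subtype.val h2
    rw [← hH]
    exact Subgroup.card_dvd_of_le h1
  exact Subgroup.eq_top_of_card_eq K (Nat.dvd_antisymm (Subgroup.card_subgroup_dvd_card K) hd)

/-- a Sylow subgroup, in the form used in the statements -/
theorem exists_syl (G : Type) [Group G] [Finite G] (q : ℕ) (hq : q.Prime) :
    ∃ Q : Subgroup G, (∀ x ∈ Q, ∃ k : ℕ, x ^ q ^ k = 1) ∧ Nat.Coprime q Q.index ∧
      ∀ N : Subgroup G, N.Normal → (∀ x ∈ N, ∃ k : ℕ, x ^ q ^ k = 1) → N ≤ Q := by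
  have := Fact.mk hq
  obtain ⟨S⟩ : Nonempty (Sylow q G) := inferInstance
  refine ⟨S, ?_, ?_, ?_⟩
  · intro x hx
    obtain ⟨k, hk⟩ := S.isPGroup' ⟨x, hx⟩
    exact ⟨k, congrArg Subtype.val hk⟩
  · have := S.not_dvd_index
    exact (Nat.Prime.coprime_iff_not_dvd hq).2 this
  · intro N hN hq'
    have hNp : IsPGroup q N := by
      rintro ⟨x, hx⟩
      obtain ⟨k, hk⟩ := hq' x hx
      exact ⟨k, Subtype.ext hk⟩
    have h1 : IsPGroup q (S ⊔ N : Subgroup G) := S.isPGroup'.to_sup_of_normal_right hNp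
    have h2 := S.is_maximal' h1 le_sup_left
    rw [← h2]
    exact le_sup_right

theorem central_q {W : Set (FreeGroup ℕ)} {q : ℕ} (hq : q.Prime) (hT : Triv2 W q)
    (hA : AbSyl W) {G : Type} [Group G] [Finite G] (hG : Laws W G) {L : Subgroup G}
    (hn : L.Normal) (hL : Comm L) (x : G) (hx : ∃ k : ℕ, x ^ q ^ k = 1) :
    ∀ l ∈ L, x * l = l * x := by
  have := Fact.mk hq
  -- elements of prime power order
  have h1 : ∀ p : ℕ, p.Prime → ∀ l ∈ L, (∃ k : ℕ, l ^ p ^ k = 1) → x * l = l * x := by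
    intro p hp l hl hk
    by_cases hpq : p = q
    · subst hpq
      have := pr_normal hL hn p
      have hPp : IsPGroup p (pr L hL p) := by
        rintro ⟨y, hy⟩
        obtain ⟨k, hk⟩ := hy.2
        exact ⟨k, Subtype.ext hk⟩
      have hXp : IsPGroup p (Subgroup.zpowers x) := by
        rintro ⟨y, hy⟩
        obtain ⟨i, rfl⟩ := Subgroup.mem_zpowers_iff.1 hy
        obtain ⟨k, hk⟩ := hx
        refine ⟨k, Subtype.ext ?_⟩
        show (x ^ i) ^ p ^ k = 1
        rw [← zpow_natCast, ← zpow_mul, mul_comm, zpow_mul, zpow_natCast, hk, one_zpow]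
      have h2 : IsPGroup p (Subgroup.zpowers x ⊔ pr L hL p : Subgroup G) :=
        hXp.to_sup_of_normal_right hPp
      have h3 := hA G hG p hp (Subgroup.zpowers x ⊔ pr L hL p) (by
        intro y hy
        obtain ⟨k, hk⟩ := h2 ⟨y, hy⟩
        exact ⟨k, congrArg Subtype.val hk⟩)
      exact h3 x (Subgroup.mem_sup_left (Subgroup.mem_zpowers x)) l
        (Subgroup.mem_sup_right ⟨hl, hk⟩)
    · refine hT G hG (pr L hL p) ?_ p hp hpq (fun y hy => hy.2) x hx ?_ l ⟨hl, hk⟩
      · intro a ha b hb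
        exact hL a ha.1 b hb.1
      · intro m hm
        exact (pr_normal hL hn p).conj_mem m hm x
  have h2 : (Subgroup.centralizer {x}).subgroupOf L = ⊤ := by
    apply eq_top_of_pp
    rintro p hp ⟨l, hl⟩ ⟨k, hk⟩
    rw [Subgroup.mem_subgroupOf, Subgroup.mem_centralizer_singleton_iff]
    exact (h1 p hp l hl ⟨k, congrArg Subtype.val hk⟩).symm
  intro l hl
  have h3 : (⟨l, hl⟩ : L) ∈ (Subgroup.centralizer {x}).subgroupOf L := by
    rw [h2]; exact Subgroup.mem_top _
  rw [Subgroup.mem_subgroupOf, Subgroup.mem_centralizer_singleton_iff] at h3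
  exact h3.symm

theorem taskI : TaskI := by
  intro hG2 hTr W q hq hT hD hA G _ _ hG hQ L M hLn hMn hLc hLM hmono hfrat ⟨z, hzL, hz1, hzq⟩ hna
  have := hLn
  have := hMn
  -- (1)
  have hD1 : ∀ x : G, (∀ m ∈ M, x * m * x⁻¹ * m⁻¹ ∈ L) → x ∈ L := by
    let D : Subgroup G :=
      { carrier := {x | ∀ m ∈ M, x * m * x⁻¹ * m⁻¹ ∈ L}
        mul_mem' := by
          intro x y hx hy m hm
          have h1 := hx (y * m * y⁻¹) (hMn.conj_mem m hm y)
          have h2 := hy m hm
          have h3 := L.mul_mem h1 h2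
          convert h3 using 1
          group
        one_mem' := by
          intro m _
          simp
        inv_mem' := by
          intro x hx m hm
          have h1 := hx (x⁻¹ * m * x) (by
            have := hMn.conj_mem m hm x⁻¹
            simpa using this)
          have h2 := L.inv_mem h1
          convert h2 using 1
          group }
    have hDn : D.Normal := by
      constructor
      intro x hx g m hm
      have h1 := hx (g⁻¹ * m * g) (by
        have := hMn.conj_mem m hm g⁻¹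
        simpa using this)
      have h2 := hLn.conj_mem _ h1 g
      convert h2 using 1
      group
    have hLD : L ≤ D := by
      intro x hx m hm
      have h1 := hLn.conj_mem _ (L.inv_mem hx) m
      have h2 := L.mul_mem hx h1
      convert h2 using 1
      group
    intro x hx
    by_contra hxL
    have hlt : L < D := lt_of_le_of_ne hLD (by
      intro h
      apply hxL
      rw [h]
      exact hx)
    have h1 := hmono D hDn hlt
    exact hna fun x hx y hy => h1 hx y hy
  -- (2)
  have hC1 : ∀ x : G, (∃ k : ℕ, x ^ q ^ k = 1) → ∀ l ∈ L, x * l = l * x :=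
    fun x hx => central_q hq hT hA hG hLn hLc x hx
  obtain ⟨Q, hQ1, hQ2, hQ3⟩ := exists_syl G q hq
  have hLqn := pr_normal hLc hLn q
  have hML : ∀ m ∈ M, ∀ l ∈ L, m * l = l * m := by
    have hCn : (Subgroup.centralizer (L : Set G)).Normal := inferInstance
    have hLC : L ≤ Subgroup.centralizer (L : Set G) := by
      intro x hx
      rw [Subgroup.mem_centralizer_iff]
      intro y hy
      exact hLc y hy x hx
    have hne : L ≠ Subgroup.centralizer (L : Set G) := by
      intro heq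
      apply hQ
      refine ⟨pr L hLc q, hLqn, fun x hx => hx.2, ?_⟩
      have h1 : Q ≤ pr L hLc q := by
        intro x hx
        refine ⟨?_, hQ1 x hx⟩
        rw [heq, Subgroup.mem_centralizer_iff]
        intro y hy
        exact (hC1 x (hQ1 x hx) y hy).symm
      exact Nat.Coprime.coprime_dvd_right (Subgroup.index_dvd_of_le h1) hQ2
    have h1 := hmono _ hCn (lt_of_le_of_ne hLC hne)
    intro m hm l hl
    have h2 := h1 hm
    rw [Subgroup.mem_centralizer_iff] at h2
    exact (h2 l hl).symm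
  -- (3)
  let B : Subgroup G := ⁅M, M⁆
  have hBn : B.Normal := inferInstance
  have hBM : B ≤ M := Subgroup.commutator_le_left M M
  have hBL : ∀ x, x ∈ B → x ∈ L → x = 1 := by
    intro x hxB hxL
    by_contra hx1
    have hox : orderOf x ≠ 1 := fun h => hx1 (orderOf_eq_one_iff.1 h)
    obtain ⟨s, hs, t, ht⟩ := Nat.exists_prime_and_dvd hox
    have hpos : 0 < orderOf x := orderOf_pos x
    have ht0 : 0 < t := by
      rcases Nat.eq_zero_or_pos t with h | h
      · rw [h, mul_zero] at ht; omega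
      · exact h
    have hz1 : x ^ t ≠ 1 := by
      intro h
      have h1 := Nat.le_of_dvd ht0 (orderOf_dvd_of_pow_eq_one h)
      have h2 := hs.two_le
      nlinarith
    have hzs : (x ^ t) ^ s = 1 := by
      rw [← pow_mul, mul_comm, ← ht, pow_orderOf_eq_one]
    have hzB : x ^ t ∈ B := B.pow_mem hxB t
    have hzL : x ^ t ∈ L := L.pow_mem hxL t
    have hzB' : x ^ t ∈ (commutator M).map M.subtype := by
      rw [Subgroup.map_subtype_commutator]
      exact hzB
    obtain ⟨y, hy, hyx⟩ := hzB'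
    obtain ⟨Q', h1, h2, -⟩ := exists_syl M s hs
    have h3 := hTr M Q' s hs (hA M (laws_sub hG M) s hs Q' h1) h1 h2 y (by
      rw [Subgroup.mem_center_iff]
      intro g
      apply Subtype.ext
      have h4 := hML g.1 g.2 (x ^ t) hzL
      have h5 : (y : G) = x ^ t := hyx
      rw [Subgroup.coe_mul, Subgroup.coe_mul, h5]
      exact h4) hy ⟨1, by
        apply Subtype.ext
        have h5 : (y : G) = x ^ t := hyx
        rw [pow_one, Subgroup.coe_pow, h5, hzs]
        rfl⟩
    apply hz1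
    rw [← hyx, h3]
    rfl
  have hsup : ∀ m ∈ M, ∃ b ∈ B, ∃ l ∈ L, m = b * l := by
    have h1 : (B ⊔ L).Normal := inferInstance
    have h2 : L < B ⊔ L := by
      refine lt_of_le_of_ne le_sup_right ?_
      intro h
      apply hna
      intro x hx y hy
      have h3 : x * y * x⁻¹ * y⁻¹ ∈ B := Subgroup.commutator_mem_commutator hx hy
      rw [h]
      exact Subgroup.mem_sup_left h3
    intro m hm
    have h3 := hmono _ h1 h2 hm
    rw [Subgroup.mem_sup_of_normal_right] at h3
    obtain ⟨b, hb, l, hl, rfl⟩ := h3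
    exact ⟨b, hb, l, hl, rfl⟩
  have hBne : B ≠ ⊥ := by
    intro h
    apply hna
    intro x hx y hy
    have h3 : x * y * x⁻¹ * y⁻¹ ∈ B := Subgroup.commutator_mem_commutator hx hy
    rw [h, Subgroup.mem_bot] at h3
    rw [h3]
    exact L.one_mem
  have hBmin : MinNormal B := by
    refine ⟨hBn, hBne, ?_⟩
    intro K hKn hKB hKne
    have := hKn
    apply le_antisymm hKB
    obtain ⟨k0, hk0, hk01⟩ := (Subgroup.bot_or_exists_ne_one K).resolve_left hKne
    have h1 : (K ⊔ L).Normal := inferInstance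
    have h2 : L < K ⊔ L := by
      refine lt_of_le_of_ne le_sup_right ?_
      intro h
      apply hk01
      apply hBL k0 (hKB hk0)
      rw [h]
      exact Subgroup.mem_sup_left hk0
    intro b hb
    have h3 := hmono _ h1 h2 (hBM hb)
    rw [Subgroup.mem_sup_of_normal_right] at h3
    obtain ⟨k, hk, l, hl, rfl⟩ := h3
    have h4 : l ∈ B := by
      have := B.mul_mem (B.inv_mem (hKB hk)) hb
      simpa using this
    rw [hBL l h4 hl, mul_one]
    exact hk
  have hBnc : ¬ Comm B := by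
    intro hc
    apply hna
    intro x hx y hy
    obtain ⟨b, hb, l, hl, rfl⟩ := hsup x hx
    obtain ⟨b', hb', l', hl', rfl⟩ := hsup y hy
    have e1 := hc b hb b' hb'
    have e2 := hML b' (hBM hb') l hl
    have e3 := hML b (hBM hb) l' hl'
    have e4 := hLc l hl l' hl'
    have e5 : b * l * (b' * l') = b' * l' * (b * l) := by
      calc b * l * (b' * l') = b * (l * b') * l' := by group
        _ = b * b' * (l * l') := by rw [← e2]; group
        _ = b' * (b * l') * l := by rw [e1, e4]; group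
        _ = b' * l' * (b * l) := by rw [e3]; group
    have e6 : b * l * (b' * l') * (b * l)⁻¹ * (b' * l')⁻¹ = 1 := by
      rw [e5]; group
    rw [e6]
    exact L.one_mem
  have hCB : ∀ x ∈ Subgroup.centralizer (B : Set G), x ∈ L := by
    intro x hx
    apply hD1
    intro m hm
    obtain ⟨b, hb, l, hl, rfl⟩ := hsup m hm
    rw [Subgroup.mem_centralizer_iff] at hx
    have e1 := hx b hb
    have h1 : x * l * x⁻¹ * l⁻¹ ∈ L := L.mul_mem (hLn.conj_mem l hl x) (L.inv_mem hl)
    have h2 := hLn.conj_mem _ h1 b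
    have e2 : x * (b * l) * x⁻¹ * (b * l)⁻¹ = b * (x * l * x⁻¹ * l⁻¹) * b⁻¹ := by
      calc x * (b * l) * x⁻¹ * (b * l)⁻¹ = (x * b) * l * x⁻¹ * (b * l)⁻¹ := by group
        _ = (b * x) * l * x⁻¹ * (b * l)⁻¹ := by rw [e1]
        _ = b * (x * l * x⁻¹ * l⁻¹) * b⁻¹ := by group
    rw [e2]
    exact h2
  -- (4)
  have hqM : ∀ x : G, (∃ k : ℕ, x ^ q ^ k = 1) → ∃ b ∈ B, ∃ l ∈ L, x = b * l := by
    intro x hx
    have h1 := hD G hG B hBmin hBnc x hx
    rw [Subgroup.mem_sup_of_normal_left] at h1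
    obtain ⟨b, hb, l, hl, rfl⟩ := h1
    exact ⟨b, hb, l, hCB l hl, rfl⟩
  have hNQ : pr L hLc q ≤ Q := hQ3 _ hLqn (fun x hx => hx.2)
  obtain ⟨K, hK⟩ := hG2 G (pr L hLc q) Q (Q ⊓ B) q hq hLqn inf_le_left (by
      apply le_antisymm (sup_le hNQ inf_le_left)
      intro x hx
      obtain ⟨k, hk⟩ := hQ1 x hx
      obtain ⟨b, hb, l, hl, rfl⟩ := hqM x ⟨k, hk⟩
      have hc : Commute b l := hML b (hBM hb) l hl
      rw [hc.mul_pow] at hk
      have h1 : b ^ q ^ k ∈ L := by
        rw [eq_inv_of_mul_eq_one_left hk]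
        exact L.inv_mem (L.pow_mem hl _)
      have h2 : b ^ q ^ k = 1 := hBL _ (B.pow_mem hb _) h1
      rw [h2, one_mul] at hk
      have h3 : l ∈ pr L hLc q := ⟨hl, k, hk⟩
      have h4 : b ∈ Q := by
        have := Q.mul_mem hx (Q.inv_mem (hNQ h3))
        simpa using this
      exact Subgroup.mul_mem _ (Subgroup.mem_sup_right ⟨h4, hb⟩) (Subgroup.mem_sup_left h3)) (by
      rw [eq_bot_iff]
      rintro x ⟨hx1, hx2⟩
      exact hBL x hx2.2 hx1.1) (hA G hG q hq Q hQ1) hQ1 hQ2
  have h5 : K ⊔ L = ⊤ := by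
    rw [eq_top_iff, ← hK.sup_eq_top]
    exact sup_le (le_sup_of_le_right (fun x hx => hx.1)) le_sup_left
  have h6 := hfrat K h5
  have h7 : z ∈ pr L hLc q := ⟨hzL, 1, by rw [pow_one]; exact hzq⟩
  have h8 := hK.disjoint
  rw [Subgroup.disjoint_def] at h8
  exact hz1 (h8 h7 (by rw [h6]; exact Subgroup.mem_top _))

end Pool.Agent.H151PV
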