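import Mathlib
import Pool.Agent.H151.Main

set_option autoImplicit false

open Set Topology Filter unitInterval

namespace Pool.Agent.H151

universe u v w

/-- `C_p(Z)`: the continuous real functions on `Z` with the topology of pointwise convergence
(the subspace topology from the product `Z → ℝ`). -/
abbrev Cp (Z : Type u) [TopologicalSpace Z] : Type u := {f : Z → ℝ // Continuous f}

/-- `S` is t-embedded in `Y`: there is a continuous extender `C_p(S) → C_p(Y)`. -/
def TEmbedded {Y : Type u} [TopologicalSpace Y] (S : Set Y) : Prop :=
  ∃ φ : Cp S → Cp Y, Continuous φ ∧ ∀ (f : Cp S) (s : S), (φ f).1 s = f.1 s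

/-- `K` is t-extral: it is t-embedded in every Tychonoff space containing it as a closed
subspace. -/
def TExtral (K : Type u) [TopologicalSpace K] : Prop :=
  ∀ (Y : Type u) [TopologicalSpace Y] [T35Space Y] (e : K → Y), IsClosedEmbedding e →
    TEmbedded (range e)

/-- the real function of a clopen function -/
def ind {X : Type u} [TopologicalSpace X] (g : C(X, Bool)) : Cp X :=
  ⟨fun x => if g x then 1 else 0, by
    have h : Continuous fun b : Bool => (if b then (1 : ℝ) else 0) := continuous_of_discreteTopology
    exact h.comp g.continuous⟩

theorem countable_of_temb {κ : Type u} (S : Set (κ → I)) (hS : IsCompact S)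
    (hd : TotallyDisconnectedSpace S) (h : TEmbedded S) : Countable C(S, Bool) := by
  have : CompactSpace S := isCompact_iff_compactSpace.1 hS
  rcases isEmpty_or_nonempty S with hE | hN
  · have : Subsingleton C(S, Bool) := ⟨fun f g => ContinuousMap.ext fun x => (hE.false x).elim⟩
    infer_instance
  obtain ⟨φ, hφ, hext⟩ := h
  refine main (X := S) (κ := κ) (fun s => s.1) continuous_subtype_val
    (fun y g => (φ (ind g)).1 y) (fun g => (φ (ind g)).2) ?_ ?_
  · intro y g ε hε
    have hcont : Continuous fun f : Cp S => |(φ f).1 y - (φ (ind g)).1 y| :=
      ((((continuous_apply y).comp continuous_subtype_val).comp hφ).sub continuous_const).abs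
    have hopen : IsOpen {f : Cp S | |(φ f).1 y - (φ (ind g)).1 y| < ε} :=
      isOpen_lt hcont continuous_const
    rw [isOpen_induced_iff] at hopen
    obtain ⟨V, hV, hVU⟩ := hopen
    have hmem : (ind g).1 ∈ V := by
      have : ind g ∈ (Subtype.val ⁻¹' V : Set (Cp S)) := by
        rw [hVU]
        simpa using hε
      exact this
    obtain ⟨K, hK⟩ := basic_nhd hV hmem
    refine ⟨K, fun g' hg' => ?_⟩
    have : (ind g').1 ∈ V := hK _ fun x hx => by simp only [ind, hg' x hx]
    have h2 : ind g' ∈ (Subtype.val ⁻¹' V : Set (Cp S)) := this
    rw [hVU] at h2
    exact h2
  · intro x g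
    exact hext (ind g) x

theorem countable_of_temb_range {κ : Type u} {X : Type v} [TopologicalSpace X] [CompactSpace X]
    [TotallyDisconnectedSpace X] (e : X → (κ → I)) (he : IsEmbedding e)
    (h : TEmbedded (range e)) : Countable C(X, Bool) := by
  let H : X ≃ₜ range e := he.toHomeomorph
  have hd : TotallyDisconnectedSpace (range e) := H.totallyDisconnectedSpace
  have h1 : Countable C(range e, Bool) :=
    countable_of_temb (range e) (isCompact_range he.continuous) hd h
  have hinj : Function.Injective (fun g : C(X, Bool) => g.comp (H.symm : C(range e, X))) := by
    intro g g' hgg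
    ext x
    have := ContinuousMap.congr_fun hgg (H x)
    simpa using this
  exact hinj.countable

/-- A compact zero-dimensional space with countably many clopen functions is metrizable. -/
theorem metrizable_of_countable {X : Type v} [TopologicalSpace X] [CompactSpace X] [T2Space X]
    [TotallyDisconnectedSpace X] (h : Countable C(X, Bool)) :
    TopologicalSpace.MetrizableSpace X := by
  classical
  have h1 : Countable (TopologicalSpace.Clopens X) := by
    have hcont : ∀ s : TopologicalSpace.Clopens X,
        Continuous ((s : Set X).piecewise (fun _ => true) (fun _ => false)) := by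
      intro s
      refine Continuous.piecewise ?_ continuous_const continuous_const
      intro a ha
      rw [s.isClopen.frontier_eq] at ha
      exact absurd ha (notMem_empty a)
    have hinj : Function.Injective (fun s : TopologicalSpace.Clopens X =>
        (⟨_, hcont s⟩ : C(X, Bool))) := by
      intro s t hst
      ext x
      have h2 : (s : Set X).piecewise (fun _ => true) (fun _ => false) x =
          (t : Set X).piecewise (fun _ => true) (fun _ => false) x := ContinuousMap.congr_fun hst x
      by_cases hs : x ∈ (s : Set X) <;> by_cases ht : x ∈ (t : Set X) <;>
        simp_all [piecewise]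
    exact hinj.countable
  have h2 : SecondCountableTopology X :=
    TopologicalSpace.Clopens.countable_iff_secondCountable.1 h1
  infer_instance

/-- the Cantor cube of uncountable weight has uncountably many clopen functions -/
theorem cantor_uncountable (κ : Type u) [Uncountable κ] : ¬ Countable C(κ → Bool, Bool) := by
  classical
  intro h
  have hinj : Function.Injective (fun i : κ => (⟨fun x => x i, continuous_apply i⟩ :
      C(κ → Bool, Bool))) := by
    intro i j hij
    by_contra hne
    have := ContinuousMap.congr_fun hij (fun k => decide (k = i))
    simp only [ContinuousMap.coe_mk, decide_true] at this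
    rw [eq_comm, decide_eq_true_iff] at this
    exact hne this.symm
  exact not_countable (α := κ) hinj.countable

end Pool.Agent.H151
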