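import Pool.Agent.H369R3.UT.Defs

set_option autoImplicit false

open Set Filter Topology Metric MeasureTheory

namespace Pool.Agent.H151.UT

open Pool.Agent.H369R3.UT

theorem coe_trunc {n : ℕ} (φ : Cn n → EReal) (k : ℕ) (x : Cn n) (hx : φ x ≠ ⊤) :
    ((trunc φ k x : ℝ) : EReal) = max (φ x) ((-(k : ℝ) : ℝ) : EReal) := by
  unfold trunc
  apply EReal.coe_toReal
  · intro h
    rcases max_choice (φ x) ((-(k : ℝ) : ℝ) : EReal) with h1 | h1
    · rw [h1] at h; exact hx h
    · rw [h1] at h; exact EReal.coe_ne_top _ h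
  · intro h
    have h1 : ((-(k : ℝ) : ℝ) : EReal) ≤ ⊥ := h ▸ le_max_right _ _
    exact EReal.coe_ne_bot _ (le_bot_iff.1 h1)

theorem circ_mem {n : ℕ} {Ω : Set (Cn n)} {z w : Cn n}
    (h : ∀ ζ : ℂ, ‖ζ‖ ≤ 1 → z + ζ • w ∈ Ω) (θ : ℝ) : circ z w θ ∈ Ω :=
  h _ (by rw [Complex.norm_exp_ofReal_mul_I])

theorem circ_cont {n : ℕ} (z w : Cn n) : Continuous (circ z w) := by
  unfold circ
  fun_prop

theorem taskA2 : TaskA2 := by
  intro hA1 n Ω φ hφ k
  obtain ⟨hfin, husc, hsub⟩ := hφ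
  have key1 : UpperSemicontinuousOn (trunc φ k) Ω := by
    intro x hx y hy
    have h1 : ((trunc φ k x : ℝ) : EReal) < (y : EReal) := EReal.coe_lt_coe_iff.2 hy
    rw [coe_trunc φ k x (hfin x hx), max_lt_iff] at h1
    filter_upwards [husc x hx _ h1.1, self_mem_nhdsWithin] with x' h2 h3
    have h4 : ((trunc φ k x' : ℝ) : EReal) < (y : EReal) := by
      rw [coe_trunc φ k x' (hfin x' h3)]
      exact max_lt h2 h1.2
    exact EReal.coe_lt_coe_iff.1 h4
  have key2 : ∀ x ∈ Ω, -(k : ℝ) ≤ trunc φ k x := by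
    intro x hx
    have h1 : ((-(k : ℝ) : ℝ) : EReal) ≤ ((trunc φ k x : ℝ) : EReal) := by
      rw [coe_trunc φ k x (hfin x hx)]
      exact le_max_right _ _
    exact EReal.coe_le_coe_iff.1 h1
  refine ⟨key1, key2, ?_⟩
  intro z w hzw
  have hz : z ∈ Ω := by
    have := hzw 0 (by simp)
    simpa using this
  apply hA1 (fun θ => trunc φ k (circ z w θ)) (trunc φ k z) (-(k : ℝ))
  · intro θ _ y hy
    have h1 := key1 (circ z w θ) (circ_mem hzw θ) y hy
    have h2 : Tendsto (circ z w) (𝓝[Icc 0 (2 * Real.pi)] θ) (𝓝[Ω] (circ z w θ)) := by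
      apply tendsto_nhdsWithin_of_tendsto_nhds_of_eventually_within
      · exact ((circ_cont z w).tendsto θ).mono_left nhdsWithin_le_nhds
      · exact Eventually.of_forall fun t => circ_mem hzw t
    exact h2.eventually h1
  · intro θ _
    exact key2 _ (circ_mem hzw θ)
  · intro h hc hle
    have hpi : (0 : ℝ) ≤ 2 * Real.pi := by positivity
    have hpi' : (0 : ℝ) < 2 * Real.pi := by positivity
    have h1 : φ z ≤ (((2 * Real.pi)⁻¹ * ∫ θ in (0 : ℝ)..(2 * Real.pi), h θ : ℝ) : EReal) := by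
      apply hsub z w hzw h hc
      intro θ hθ
      calc φ (circ z w θ) ≤ ((trunc φ k (circ z w θ) : ℝ) : EReal) := by
            rw [coe_trunc φ k _ (hfin _ (circ_mem hzw θ))]
            exact le_max_left _ _
        _ ≤ (h θ : EReal) := EReal.coe_le_coe_iff.2 (hle θ hθ)
    have h2 : -(k : ℝ) ≤ (2 * Real.pi)⁻¹ * ∫ θ in (0 : ℝ)..(2 * Real.pi), h θ := by
      have h3 : ∫ θ in (0 : ℝ)..(2 * Real.pi), (-(k : ℝ)) ≤
          ∫ θ in (0 : ℝ)..(2 * Real.pi), h θ := by
        apply intervalIntegral.integral_mono_on hpi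
        · exact intervalIntegrable_const
        · exact hc.intervalIntegrable _ _
        · intro θ hθ
          exact (key2 _ (circ_mem hzw θ)).trans (hle θ hθ)
      rw [intervalIntegral.integral_const, sub_zero, smul_eq_mul] at h3
      calc -(k : ℝ) = (2 * Real.pi)⁻¹ * (2 * Real.pi * -(k : ℝ)) := by
            field_simp
        _ ≤ _ := mul_le_mul_of_nonneg_left h3 (by positivity)
    have h4 : ((trunc φ k z : ℝ) : EReal) ≤
        (((2 * Real.pi)⁻¹ * ∫ θ in (0 : ℝ)..(2 * Real.pi), h θ : ℝ) : EReal) := by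
      rw [coe_trunc φ k z (hfin z hz)]
      exact max_le h1 (EReal.coe_le_coe_iff.2 h2)
    exact EReal.coe_le_coe_iff.1 h4

end Pool.Agent.H151.UT
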